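import Pool.Agent.V7H77.RG.Alg

/-!
# Density in the algebraic extensions is inherited by almost all extensions
-/

set_option autoImplicit false

universe u

namespace Pool.Agent.V7H77.RG

open Polynomial IsLocalRing Pool.Agent.TH188.QS Pool.Agent.W418.LU2 Pool.Agent.V7H82.ZR

/-- The field is dense in its algebraic extensions. -/
def DAE {E : Type u} [Field E] (V : ValuationSubring E) : Prop :=
  ∀ (L : Type u) [Field L] [Algebra E L] [Algebra.IsAlgebraic E L] (W : ValuationSubring L),
    W.comap (algebraMap E L) = V → ∀ θ c : L, c ≠ 0 →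
      ∃ y : E, W.valuation (θ - algebraMap E L y) < W.valuation c

section

variable {E : Type u} [Field E] {V₀ : ValuationSubring E} {K : Type u} [Field K] [Algebra E K]
  {K' : Type u} [Field K'] [Algebra K K'] [Algebra E K'] [IsScalarTower E K K']

theorem approx_key (hD : DAE V₀) (W' : ValuationSubring K')
    (hWE : W'.comap (algebraMap E K') = V₀) (hnt : ∃ x : E, algebraMap E K' x ∉ W') (z : K')
    {m : K[X]} (hm : m.Monic) (hmz : aeval z m = 0)
    (hco : ∀ i, m.coeff i ∈ coarse E (W'.comap (algebraMap K K')))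
    (hPA : ∀ x ∈ coarse E (W'.comap (algebraMap K K')), ∃ P : E[X], P ≠ 0 ∧
      ∀ c : E, algebraMap E K c * aeval x P ∈ W'.comap (algebraMap K K'))
    {c : E} (hc : c ≠ 0) :
    ∃ y : E, W'.valuation ((z - algebraMap E K' y) * algebraMap E K' c⁻¹) < 1 := by
  classical
  set W : ValuationSubring K := W'.comap (algebraMap K K') with hW
  let D : ValuationSubring K := coarse E W
  let D' : ValuationSubring K' := coarse E W'
  have hDD : ∀ x : D, algebraMap K K' x ∈ D'.toSubring := by
    rintro ⟨x, d, hd, h⟩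
    refine ⟨d, hd, ?_⟩
    have h1 : algebraMap K K' (algebraMap E K d * x) ∈ W' := h
    rwa [map_mul, ← IsScalarTower.algebraMap_apply] at h1
  have hED : ∀ x : E, algebraMap E K' x ∈ D'.toSubring := base_coarse E W'
  let κ := ResidueField D'
  let e : E →+* D' := (algebraMap E K').codRestrict D'.toSubring hED
  let _ : Algebra E κ := ((residue D').comp e).toAlgebra
  obtain ⟨U, hU⟩ := exists_resid (le_coarse E W')
  let φ : D →+* D' := ((algebraMap K K').comp D.subtype).codRestrict D'.toSubring hDD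
  let A : IntermediateField E κ := algebraicClosure E κ
  have hCA : ∀ x : D, residue D' (φ x) ∈ A := by
    intro x
    obtain ⟨P, hP, hPc⟩ := hPA x x.2
    refine mem_algebraicClosure_iff.2 ⟨P, hP, ?_⟩
    have h1 : aeval (residue D' (φ x)) P = residue D' (eval₂ e (φ x) P) := by
      rw [hom_eval₂]
      rfl
    rw [h1]
    have h2 : ((eval₂ e (φ x) P : D') : K') = algebraMap K K' (aeval (x : K) P) := by
      change D'.subtype _ = _
      rw [hom_eval₂, ← aeval_algebraMap_apply]
      rfl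
    by_contra hne
    have h0 : ((eval₂ e (φ x) P : D') : K') ≠ 0 := by
      intro h
      apply hne
      have h3 : eval₂ e (φ x) P = 0 := Subtype.ext h
      rw [h3, map_zero]
    have h3 := (nu_inv (eval₂ e (φ x) P).2 h0).1 hne
    refine coarse_nonunit E W' hnt h0 (fun d => ?_) h3
    rw [h2, IsScalarTower.algebraMap_apply E K K', ← map_mul]
    exact hPc d
  let g : D →+* A := ((residue D').comp φ).codRestrict A.toSubring hCA
  have hlift : m ∈ Polynomial.lifts D.subtype :=
    (Polynomial.lifts_iff_coeff_lifts m).2 fun n => ⟨⟨m.coeff n, hco n⟩, rfl⟩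
  obtain ⟨mD, hmD, -, hmDm⟩ := Polynomial.lifts_and_natDegree_eq_and_monic hlift hm
  have hz' : eval₂ ((algebraMap K K').comp D.subtype) z mD = 0 := by
    rw [← eval₂_map, hmD]
    exact hmz
  have hzD : z ∈ D' := by
    have h1 : IsIntegral D' z := ⟨mD.map φ, hmDm.map _, by
      rw [eval₂_map]
      exact hz'⟩
    exact (IsIntegrallyClosed.isIntegral_iff.1 h1).elim fun y hy => hy ▸ y.2
  have hzr : eval₂ φ (⟨z, hzD⟩ : D') mD = 0 := Subtype.ext (by
    change D'.subtype _ = _
    rw [hom_eval₂]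
    exact hz')
  have hzA : residue D' ⟨z, hzD⟩ ∈ A := by
    have h1 : IsIntegral A (residue D' ⟨z, hzD⟩) := ⟨mD.map g, hmDm.map _, by
      rw [eval₂_map]
      have h2 := congrArg (residue D') hzr
      rw [hom_eval₂, map_zero] at h2
      exact h2⟩
    have h2 : Algebra.IsIntegral E A := inferInstance
    exact isIntegral_trans _ h1
  let UA : ValuationSubring A := U.comap (algebraMap A κ)
  have hUA : UA.comap (algebraMap E A) = V₀ := by
    ext x
    rw [← hWE]
    change residue D' (e x) ∈ U ↔ algebraMap E K' x ∈ W'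
    rw [hU]
    exact ⟨fun h => ⟨hED x, h⟩, fun h => h.2⟩
  obtain ⟨y, hy⟩ := hD A UA hUA ⟨_, hzA⟩ (algebraMap E A c) ((_root_.map_ne_zero _).2 hc)
  refine ⟨y, ?_⟩
  have hx : (z - algebraMap E K' y) * algebraMap E K' c⁻¹ ∈ D' :=
    mul_mem (sub_mem hzD (hED y)) (hED c⁻¹)
  rw [cmp_lt hU hx]
  have h3 : residue D' ⟨(z - algebraMap E K' y) * algebraMap E K' c⁻¹, hx⟩ =
      algebraMap A κ ((⟨residue D' ⟨z, hzD⟩, hzA⟩ - algebraMap E A y) * algebraMap E A c⁻¹) := by
    have h4 : (⟨(z - algebraMap E K' y) * algebraMap E K' c⁻¹, hx⟩ : D') =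
        (⟨z, hzD⟩ - e y) * e c⁻¹ := rfl
    rw [h4, map_mul, map_sub, map_mul, map_sub]
    rfl
  rw [h3, ← val_lt_comap (algebraMap A κ) U]
  change UA.valuation _ < 1
  have h5 : UA.valuation (algebraMap E A c) ≠ 0 :=
    (_root_.map_ne_zero _).2 ((_root_.map_ne_zero _).2 hc)
  rw [map_mul, map_inv₀ (algebraMap E A), map_inv₀, ← div_eq_mul_inv,
    div_lt_one₀ (zero_lt_iff.2 h5)]
  exact hy

end

section

variable {R E : Type u} [CommRing R] [Field E] {ρ : R →+* E} {V₀ : ValuationSubring E}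
  {K : Type u} [Field K] [Algebra E K]

theorem nwd_dense (hR : HJ R) (hne : V₀ ≠ ⊤) (hU : UU ρ V₀) (hD : DAE V₀)
    (hK : ∃ T : Finset K, FiniteDimensional (IntermediateField.adjoin E (T : Set K)) K)
    (K' : Type u) [Field K'] [Algebra K K'] (z : K') {m : K[X]} (hm : m.Monic)
    (hmz : aeval z m = 0) {c : E} (hc : c ≠ 0) :
    @IsNowhereDense (Ex V₀ K) (pt exm) {V | ∃ V' : ValuationSubring K',
      V'.comap (algebraMap K K') = V.1 ∧ ∀ x : K,
        ¬ V'.valuation ((z - algebraMap K K' x) * algebraMap K K' (algebraMap E K c⁻¹)) < 1} := by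
  classical
  let _ : Algebra E K' := ((algebraMap K K').comp (algebraMap E K)).toAlgebra
  have htw : IsScalarTower E K K' := IsScalarTower.of_algebraMap_eq' rfl
  let _ : TopologicalSpace (Ex V₀ K) := pt exm
  let _ : TopologicalSpace (Ex V₀ K') := pt exm
  have hc' : CompactSpace (Ex V₀ K') := ex_compact
  have ht : T2Space (Ex V₀ K) := ex_t2
  let r : Ex V₀ K' → Ex V₀ K := fun V' => ⟨V'.1.comap (algebraMap K K'),
    (rfl : _ = V'.1.comap (algebraMap E K')).trans V'.2⟩
  have hr : Continuous r := by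
    refine continuous_generateFrom_iff.2 ?_
    rintro _ ⟨x, rfl | rfl⟩
    · exact (pt_isOpen (m := exm (V₀ := V₀) (K := K')) (algebraMap K K' x)).1
    · exact (pt_isOpen (m := exm (V₀ := V₀) (K := K')) (algebraMap K K' x)).2
  let bad : Set (Ex V₀ K') := {V' | ∀ x : K,
    ¬ V'.1.valuation ((z - algebraMap K K' x) * algebraMap K K' (algebraMap E K c⁻¹)) < 1}
  refine pt_nowhereDense fun V A N hA hN h1 h2 => ?_
  obtain ⟨W, -, h3, h4, hPA, hUN⟩ := near_va hR hne hU hK V hA hN h1 h2
    (m.support.image m.coeff)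
  have hWn : W ∉ r '' closure bad := by
    rintro ⟨W', hW', hr'⟩
    have hcomap : W'.1.comap (algebraMap K K') = W.1 := congrArg Subtype.val hr'
    obtain ⟨y, hy⟩ := approx_key (K := K) hD W'.1 W'.2 (ex_ne_top hne W') z hm hmz
      (fun i => by
        rw [hcomap]
        by_cases hi : i ∈ m.support
        · exact (hUN _ (Finset.mem_image_of_mem _ hi) (mem_support_iff.1 hi)).1
        · rw [notMem_support_iff.1 hi]
          exact zero_mem _)
      (by rw [hcomap]; exact hPA) hc
    have hy' : W'.1.valuation ((z - algebraMap K K' (algebraMap E K y)) *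
        algebraMap K K' (algebraMap E K c⁻¹)) < 1 := hy
    set q : K' := (z - algebraMap K K' (algebraMap E K y)) *
        algebraMap K K' (algebraMap E K c⁻¹) with hq
    by_cases hq0 : q = 0
    · obtain ⟨V', -, hV'b⟩ := mem_closure_iff.1 hW' _ isOpen_univ trivial
      refine hV'b (algebraMap E K y) ?_
      rw [← hq, hq0, map_zero]
      exact zero_lt_one
    · have hO := (pt_isOpen (m := exm (V₀ := V₀) (K := K')) q⁻¹).2
      obtain ⟨V', hV', hV'b⟩ := mem_closure_iff.1 hW' _ hO ((val_lt_iff W'.1 hq0).1 hy')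
      refine hV'b (algebraMap E K y) ?_
      rw [← hq]
      exact (val_lt_iff V'.1 hq0).2 hV'
  have hcl : IsClosed (r '' closure bad) :=
    (isClosed_closure.isCompact.image hr).isClosed
  obtain ⟨A', N', hA', hN', h5, h6, h7⟩ := pt_basic hcl.isOpen_compl hWn
  refine ⟨W, A', N', hA', hN', ?_, ?_, fun V₁ h8 h9 => ?_⟩
  · rintro x (hx | hx)
    · exact h3 x hx
    · exact h5 x hx
  · rintro x (hx | hx)
    · exact h4 x hx
    · exact h6 x hx
  · rintro ⟨V', hV', hn⟩
    refine h7 V₁ h8 h9 ⟨⟨V', ?_⟩, subset_closure hn, Subtype.ext hV'⟩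
    rw [← V₁.2, ← hV']
    rfl

/-- Density in the algebraic extensions is inherited by almost all extensions. -/
theorem meagre_dae (hR : HJ R) [Countable R] (hne : V₀ ≠ ⊤) (hU : UU ρ V₀) (hD : DAE V₀)
    (hE : ∃ S : Set E, S.Finite ∧ ∀ z, Fr (Subring.closure ((ρ.range : Set E) ∪ S)) z)
    (hK : (⊤ : IntermediateField E K).FG) :
    @IsMeagre (Ex V₀ K) (pt exm) {V | ¬ DAE V.1} := by
  classical
  let _ : TopologicalSpace (Ex V₀ K) := pt exm
  have hKc : Countable K := countable_fr (fg_tower hE hK)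
  have hEc : Countable E := (algebraMap E K).injective.countable
  have hKX : Countable K[X] := by
    rw [← Cardinal.mk_le_aleph0_iff]
    refine Polynomial.cardinalMk_le_max.trans ?_
    simp
  have hKf := fd_of_fg hK
  let S : {m : K[X] // Irreducible m ∧ m.Monic} → {c : E // c ≠ 0} → Set (Ex V₀ K) :=
    fun m c =>
      let _ : Fact (Irreducible m.1) := ⟨m.2.1⟩
      {V | ∃ V' : ValuationSubring (AdjoinRoot m.1),
        V'.comap (algebraMap K (AdjoinRoot m.1)) = V.1 ∧ ∀ x : K,
          ¬ V'.valuation ((AdjoinRoot.root m.1 - algebraMap K (AdjoinRoot m.1) x) *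
            algebraMap K (AdjoinRoot m.1) (algebraMap E K (c.1)⁻¹)) < 1}
  have hS : ∀ m c, IsMeagre (S m c) := by
    intro m c
    let _ : Fact (Irreducible m.1) := ⟨m.2.1⟩
    exact (nwd_dense (V₀ := V₀) hR hne hU hD hKf (AdjoinRoot m.1) (AdjoinRoot.root m.1) m.2.2
      (by rw [AdjoinRoot.aeval_eq, AdjoinRoot.mk_self]) c.2).isMeagre
  refine IsMeagre.mono ?_ ((isMeagre_iUnion fun m => isMeagre_iUnion fun c => hS m c).union
    (meagre_va hR hne hU hE hK))
  intro V hV
  by_contra hcon
  rw [Set.mem_union, not_or] at hcon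
  obtain ⟨hcon1, hcon2⟩ := hcon
  have hVA : VA E V.1 := by
    by_contra h
    exact hcon2 h
  apply hV
  intro L _ _ _ W hW θ c hc
  let _ : Algebra E L := ((algebraMap K L).comp (algebraMap E K)).toAlgebra
  have htw : IsScalarTower E K L := IsScalarTower.of_algebraMap_eq' rfl
  have hVW : ∀ x : K, algebraMap K L x ∈ W ↔ x ∈ V.1 := by
    intro x
    rw [← hW]
    rfl
  have htop : coarse E W = ⊤ := by
    refine top_of_alg (L := K) (coarse E W) fun x => ?_
    by_cases hx0 : x = 0
    · rw [hx0, map_zero]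
      exact zero_mem _
    obtain ⟨n, hn, d, hd, h1, -⟩ := hVA.1 x hx0
    have h2 : (algebraMap K L x) ^ n ∈ coarse E W := by
      refine ⟨d⁻¹, inv_ne_zero hd, ?_⟩
      have h3 : algebraMap E L d⁻¹ * (algebraMap K L x) ^ n =
          algebraMap K L (x ^ n / algebraMap E K d) := by
        rw [map_div₀, map_pow, map_inv₀, IsScalarTower.algebraMap_apply E K L, div_eq_mul_inv,
          mul_comm]
      rw [h3, hVW]
      exact h1
    rcases (coarse E W).mem_or_inv_mem (algebraMap K L x) with h3 | h3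
    · exact h3
    · by_contra h4
      apply h4
      obtain ⟨k, rfl⟩ := Nat.exists_eq_succ_of_ne_zero hn
      have h5 := mul_mem h2 (pow_mem h3 k)
      have hx0' : algebraMap K L x ≠ 0 := (_root_.map_ne_zero _).2 hx0
      have h6 : (algebraMap K L x) ^ (k.succ) * ((algebraMap K L x)⁻¹) ^ k =
          algebraMap K L x := by
        rw [inv_pow, pow_succ]
        field_simp
      rwa [h6] at h5
  obtain ⟨c₀, hc₀, hcc⟩ : c⁻¹ ∈ coarse E W := by
    rw [htop]
    trivial
  have hint : IsIntegral K θ := Algebra.IsIntegral.isIntegral θ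
  let m : {m : K[X] // Irreducible m ∧ m.Monic} :=
    ⟨minpoly K θ, minpoly.irreducible hint, minpoly.monic hint⟩
  let _ : Fact (Irreducible m.1) := ⟨m.2.1⟩
  let σ : AdjoinRoot m.1 →+* L := AdjoinRoot.lift (algebraMap K L) θ (minpoly.aeval K θ)
  have hσr : σ (AdjoinRoot.root m.1) = θ := AdjoinRoot.lift_root _
  have hσK : ∀ x : K, σ (algebraMap K (AdjoinRoot m.1) x) = algebraMap K L x := fun x =>
    AdjoinRoot.lift_of _
  have hns : V ∉ S m ⟨c₀, hc₀⟩ := by
    intro h
    apply hcon1
    rw [Set.mem_iUnion]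
    refine ⟨m, ?_⟩
    rw [Set.mem_iUnion]
    exact ⟨_, h⟩
  have hex : ∃ x : K, (W.comap σ).valuation ((AdjoinRoot.root m.1 -
      algebraMap K (AdjoinRoot m.1) x) *
        algebraMap K (AdjoinRoot m.1) (algebraMap E K c₀⁻¹)) < 1 := by
    by_contra h
    push Not at h
    refine hns ⟨W.comap σ, ?_, fun x => not_lt.2 (h x)⟩
    rw [← hW]
    ext x
    change σ (algebraMap K (AdjoinRoot m.1) x) ∈ W ↔ algebraMap K L x ∈ W
    rw [hσK]
  obtain ⟨x, hx⟩ := hex
  rw [val_lt_comap, map_mul, map_sub, hσr, hσK, hσK] at hx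
  refine ⟨x, ?_⟩
  have hc₀' : algebraMap K L (algebraMap E K c₀) ≠ 0 :=
    (_root_.map_ne_zero _).2 ((_root_.map_ne_zero _).2 hc₀)
  have h1 : W.valuation (algebraMap K L (algebraMap E K c₀)) ≠ 0 := (_root_.map_ne_zero _).2 hc₀'
  rw [map_mul, map_inv₀ (algebraMap E K), map_inv₀ (algebraMap K L), map_inv₀,
    ← div_eq_mul_inv, div_lt_one₀ (zero_lt_iff.2 h1)] at hx
  refine hx.trans_le ?_
  have h2 := (W.valuation_le_one_iff _).2 hcc
  have h3 : W.valuation c ≠ 0 := (_root_.map_ne_zero _).2 hc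
  rw [map_mul, map_inv₀, ← div_eq_mul_inv, div_le_one₀ (zero_lt_iff.2 h3)] at h2
  exact h2

end

end Pool.Agent.V7H77.RG
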