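import Pool.Agent.V7H77.RG.Gener

/-!
# Almost all extensions are universally uniformizable
-/

set_option autoImplicit false

universe u

namespace Pool.Agent.V7H77.RG

open IsLocalRing Pool.Agent.TH188.QS Pool.Agent.W418.LU2 Pool.Agent.V7H82.ZR
open Pool.Agent.R187.CT (gp_of_logUnif good_given fr_iff)

/-- Transport by isomorphisms. -/
theorem gp_iso {L K : Type u} [Field L] [Field K] (j : L →+* K) (hj : Function.Surjective j)
    (W : ValuationSubring K) {A : Subring L} (h : GP (W.comap j) A) : GP W (A.map j) := by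
  intro G H hG hH hGf hHf
  have hfr : ∀ x : L, Fr (A.map j) (j x) → Fr A x := by
    rintro x ⟨_, ⟨a, ha, rfl⟩, _, ⟨b, hb, rfl⟩, hb0, h1⟩
    refine ⟨a, ha, b, hb, (map_ne_zero j).1 hb0, j.injective ?_⟩
    rw [h1, map_mul, map_inv₀]
  have h1 : DA (W.comap j) A (j ⁻¹' G) (j ⁻¹' H) :=
    h (j ⁻¹' G) (j ⁻¹' H) (hG.preimage j.injective.injOn) (hH.preimage j.injective.injOn)
      (fun x hx => ⟨fun h0 => (hGf _ hx).1 (by rw [h0, map_zero]), hfr _ (hGf _ hx).2⟩)
      (fun x hx => ⟨(hHf _ hx).1, hfr _ (hHf _ hx).2⟩)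
  have h2 := DA.map h1
  rw [Set.image_preimage_eq _ hj, Set.image_preimage_eq _ hj] at h2
  exact h2

section

variable {R E : Type u} [CommRing R] [Field E] {ρ : R →+* E} {V₀ : ValuationSubring E}
  {K : Type u} [Field K] [Algebra E K]

/-- Towers of finitely generated fields. -/
theorem fg_tower (hE : ∃ S : Set E, S.Finite ∧
      ∀ z, Fr (Subring.closure ((ρ.range : Set E) ∪ S)) z)
    (hK : (⊤ : IntermediateField E K).FG) :
    ∃ S : Set K, S.Finite ∧
      ∀ z, Fr (Subring.closure ((((algebraMap E K).comp ρ).range : Set K) ∪ S)) z := by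
  obtain ⟨S, hS, hSE⟩ := hE
  obtain ⟨T, hT⟩ := hK
  refine ⟨algebraMap E K '' S ∪ T, (hS.image _).union T.finite_toSet, fun z => ?_⟩
  set A := Subring.closure ((((algebraMap E K).comp ρ).range : Set K) ∪
    (algebraMap E K '' S ∪ T)) with hA
  have h1 : ∀ x : E, algebraMap E K x ∈ fr A := by
    intro x
    obtain ⟨a, ha, b, hb, hb0, rfl⟩ := hSE x
    have h2 : ∀ y ∈ Subring.closure ((ρ.range : Set E) ∪ S), algebraMap E K y ∈ A := by
      intro y hy
      have h3 : Subring.closure ((ρ.range : Set E) ∪ S) ≤ A.comap (algebraMap E K) := by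
        rw [Subring.closure_le]
        rintro _ (⟨r, rfl⟩ | hs)
        · exact Subring.subset_closure (Or.inl ⟨r, rfl⟩)
        · exact Subring.subset_closure (Or.inr (Or.inl ⟨_, hs, rfl⟩))
      exact h3 hy
    rw [map_mul, map_inv₀]
    exact (fr A).mul_mem (le_fr A (h2 a ha)) ((fr A).inv_mem (le_fr A (h2 b hb)))
  have h2 : (IntermediateField.adjoin E (T : Set K)).toSubfield ≤ fr A := by
    rw [IntermediateField.adjoin_toSubfield, Subfield.closure_le]
    rintro _ (⟨x, rfl⟩ | hx)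
    · exact h1 x
    · exact le_fr A (Subring.subset_closure (Or.inr (Or.inr hx)))
  refine fr_iff.2 (h2 ?_)
  rw [hT]
  trivial

theorem fd_of_fg (hK : (⊤ : IntermediateField E K).FG) :
    ∃ T : Finset K, FiniteDimensional (IntermediateField.adjoin E (T : Set K)) K := by
  obtain ⟨T, hT⟩ := hK
  refine ⟨T, ?_⟩
  rw [hT]
  refine Module.Finite.of_surjective (Algebra.linearMap (⊤ : IntermediateField E K) K) ?_
  intro x
  exact ⟨⟨x, trivial⟩, rfl⟩

lemma countable_fr [Countable R] {ρ : R →+* K} (h : ∃ S : Set K, S.Finite ∧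
    ∀ z, Fr (Subring.closure ((ρ.range : Set K) ∪ S)) z) : Countable K := by
  obtain ⟨S, hS, hSK⟩ := h
  have h1 : Ess ρ S (Subring.closure ((ρ.range : Set K) ∪ S)) :=
    ⟨hS, le_rfl, fun b hb => ⟨b, hb, 1, Subring.one_mem _, one_ne_zero, by
      rw [inv_one]; exact Subring.one_mem _, by rw [inv_one, mul_one]⟩⟩
  have h2 := h1.countable
  have h3 : Function.Surjective
      fun p : Subring.closure ((ρ.range : Set K) ∪ S) × Subring.closure ((ρ.range : Set K) ∪ S) =>
        (p.1 : K) * (p.2 : K)⁻¹ := by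
    intro z
    obtain ⟨a, ha, b, hb, -, rfl⟩ := hSK z
    exact ⟨(⟨a, ha⟩, ⟨b, hb⟩), rfl⟩
  exact h3.countable

/-- Almost all extensions are universally uniformizable. -/
theorem meagre_uu (hR : HJ R) [Countable R] (hU : UU ρ V₀)
    (hE : ∃ S : Set E, S.Finite ∧ ∀ z, Fr (Subring.closure ((ρ.range : Set E) ∪ S)) z)
    (hK : (⊤ : IntermediateField E K).FG) :
    @IsMeagre (Ex V₀ K) (pt exm) {V | ¬ UU ((algebraMap E K).comp ρ) V.1} := by
  classical
  let _ : TopologicalSpace (Ex V₀ K) := pt exm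
  have hKR := fg_tower hE hK
  have hKc : Countable K := countable_fr hKR
  let Ω := AlgebraicClosure K
  have hΩ : Countable Ω := by
    rw [← Cardinal.mk_le_aleph0_iff]
    refine (Algebra.IsAlgebraic.cardinalMk_le_max K Ω).trans ?_
    simp
  let F : Finset Ω → IntermediateField K Ω := fun T => IntermediateField.adjoin K (T : Set Ω)
  have hF : ∀ T, FiniteDimensional K (F T) := fun T =>
    IntermediateField.finiteDimensional_adjoin fun x _ => Algebra.IsIntegral.isIntegral x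
  let ρF : ∀ T, R →+* F T := fun T => (algebraMap K (F T)).comp ((algebraMap E K).comp ρ)
  let TF : ∀ T : Finset Ω, Set (F T) := fun T => (fun x : F T => (x : Ω)) ⁻¹' (T : Set Ω)
  have hTF : ∀ T, (TF T).Finite := fun T => T.finite_toSet.preimage Subtype.val_injective.injOn
  let BF : ∀ T, Subring (F T) := fun T => Subring.closure (((ρF T).range : Set (F T)) ∪ TF T)
  have hess : ∀ T, Ess (ρF T) (TF T) (BF T) := fun T =>
    ⟨hTF T, le_rfl, fun b hb => ⟨b, hb, 1, Subring.one_mem _, one_ne_zero, by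
      rw [inv_one]; exact Subring.one_mem _, by rw [inv_one, mul_one]⟩⟩
  have hnoe : ∀ T, IsNoetherianRing (BF T) := fun T => (hess T).noeth hR
  have hcI : ∀ T, Countable (Ideal (BF T)) := by
    intro T
    have hc : Countable (BF T) := (hess T).countable
    have h1 : Function.Surjective (fun s : Finset (BF T) => Ideal.span (s : Set (BF T))) := by
      intro I
      obtain ⟨s, hs⟩ := (IsNoetherian.noetherian I : I.FG)
      exact ⟨s, hs⟩
    exact h1.countable
  let S : ∀ T : Finset Ω, Ideal (BF T) × Ideal (BF T) → Set (Ex V₀ K) := fun T q =>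
    {V | (∀ z, Fr (BF T) z) ∧ q.1 ≠ ⊥ ∧ q.2 ≠ ⊥ ∧ ∃ V' : ValuationSubring (F T),
      V'.comap (algebraMap K (F T)) = V.1 ∧ BF T ≤ V'.toSubring ∧
        ¬ ∃ I₁ : Ideal (BF T), I₁ ≠ ⊥ ∧ LogDesing V' (BF T) q.1 (q.2 * I₁)}
  have hS : ∀ T q, IsMeagre (S T q) := by
    intro T q
    by_cases hq : (∀ z, Fr (BF T) z) ∧ q.1 ≠ ⊥ ∧ q.2 ≠ ⊥
    · refine IsMeagre.mono ?_ (nwd hR hU (fd_of_fg hK) (F T) (hess T) hq.1 hq.2.1
        hq.2.2).isMeagre
      rintro V ⟨-, -, -, h⟩
      exact h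
    · have h2 : S T q = ∅ := by
        rw [Set.eq_empty_iff_forall_notMem]
        rintro V ⟨h3, h4, h5, -⟩
        exact hq ⟨h3, h4, h5⟩
      rw [h2]
      exact IsMeagre.empty
  refine IsMeagre.mono ?_ (isMeagre_iUnion fun T => isMeagre_iUnion fun q => hS T q)
  intro V hV
  have hV' : ¬ UU ((algebraMap E K).comp ρ) V.1 := hV
  unfold UU at hV'
  push Not at hV'
  obtain ⟨K', _, _, _, V', hV'V, hng⟩ := hV'
  let ρ' : R →+* K' := (algebraMap K K').comp ((algebraMap E K).comp ρ)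
  have hfgK' : (⊤ : IntermediateField K K').FG := IntermediateField.fg_of_noetherian _
  have hK'R := fg_tower hKR hfgK'
  obtain ⟨T, hT, hTV, hTfr, hTn⟩ : ∃ T : Set K', T.Finite ∧
      Subring.closure ((ρ'.range : Set K') ∪ T) ≤ V'.toSubring ∧
      (∀ z, Fr (Subring.closure ((ρ'.range : Set K') ∪ T)) z) ∧
      ¬ LogUnif V' (Subring.closure ((ρ'.range : Set K') ∪ T)) := by
    by_contra h
    push Not at h
    exact hng (good_given hR ρ' V' hK'R h)
  let σ : K' →ₐ[K] Ω := IsAlgClosed.lift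
  let Tt : Finset Ω := hT.toFinset.image σ
  have hσT : ∀ t ∈ T, σ t ∈ Tt := fun t ht => Finset.mem_image_of_mem _ (hT.mem_toFinset.2 ht)
  have hσ1 : ∀ a ∈ Subring.closure ((ρ'.range : Set K') ∪ T), σ a ∈ F Tt := by
    intro a ha
    have h1 : Subring.closure ((ρ'.range : Set K') ∪ T) ≤
        (F Tt).toSubring.comap (σ : K' →+* Ω) := by
      rw [Subring.closure_le]
      rintro _ (⟨r, rfl⟩ | ht)
      · change σ (algebraMap K K' _) ∈ F Tt
        rw [AlgHom.commutes]
        exact (F Tt).algebraMap_mem _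
      · exact IntermediateField.subset_adjoin K _ (Finset.mem_coe.2 (hσT _ ht))
    exact h1 ha
  have hσ2 : ∀ z : K', σ z ∈ F Tt := by
    intro z
    obtain ⟨a, ha, b, hb, -, rfl⟩ := hTfr z
    rw [map_mul, map_inv₀]
    exact (F Tt).mul_mem (hσ1 a ha) ((F Tt).inv_mem (hσ1 b hb))
  let σF : K' →+* F Tt := (σ : K' →+* Ω).codRestrict (F Tt).toSubring hσ2
  have hσF : ∀ z, ((σF z : F Tt) : Ω) = σ z := fun z => rfl
  have hsurj : Function.Surjective σF := by
    rintro ⟨x, hx⟩
    have h1 : F Tt ≤ σ.fieldRange := by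
      refine IntermediateField.adjoin_le_iff.2 ?_
      intro y hy
      obtain ⟨t, -, rfl⟩ := Finset.mem_image.1 (Finset.mem_coe.1 hy)
      exact ⟨t, rfl⟩
    obtain ⟨z, hz⟩ := h1 hx
    exact ⟨z, Subtype.ext hz⟩
  let e : K' ≃+* F Tt := RingEquiv.ofBijective σF ⟨σF.injective, hsurj⟩
  let j : F Tt →+* K' := e.symm.toRingHom
  have hje : ∀ z, j (σF z) = z := fun z => e.symm_apply_apply z
  have hej : ∀ y, σF (j y) = y := fun y => e.apply_symm_apply y
  have hjs : Function.Surjective j := fun z => ⟨σF z, hje z⟩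
  have hjK : ∀ x : K, j (algebraMap K (F Tt) x) = algebraMap K K' x := by
    intro x
    have h1 : algebraMap K (F Tt) x = σF (algebraMap K K' x) := by
      apply Subtype.ext
      rw [hσF, AlgHom.commutes]
      rfl
    rw [h1, hje]
  have hmap : (BF Tt).map j = Subring.closure ((ρ'.range : Set K') ∪ T) := by
    change (Subring.closure (((ρF Tt).range : Set (F Tt)) ∪ TF Tt)).map j = _
    rw [RingHom.map_closure, Set.image_union]
    congr 2
    · ext z
      constructor
      · rintro ⟨_, ⟨a, rfl⟩, rfl⟩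
        exact ⟨a, (hjK _).symm⟩
      · rintro ⟨a, rfl⟩
        exact ⟨_, ⟨a, rfl⟩, hjK _⟩
    · ext z
      constructor
      · rintro ⟨y, hy, rfl⟩
        obtain ⟨t, ht, hty⟩ := Finset.mem_image.1 (Finset.mem_coe.1 hy)
        have h1 : y = σF t := Subtype.ext hty.symm
        rw [h1, hje]
        exact hT.mem_toFinset.1 ht
      · intro hz
        exact ⟨σF z, Finset.mem_coe.2 (hσT z hz), hje z⟩
  let V'' : ValuationSubring (F Tt) := V'.comap j
  have hV''V : V''.comap (algebraMap K (F Tt)) = V.1 := by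
    rw [← hV'V]
    ext x
    change j (algebraMap K (F Tt) x) ∈ V' ↔ algebraMap K K' x ∈ V'
    rw [hjK]
  have hBV : BF Tt ≤ V''.toSubring := by
    intro b hb
    have h1 : j b ∈ Subring.closure ((ρ'.range : Set K') ∪ T) := by
      rw [← hmap]
      exact ⟨b, hb, rfl⟩
    exact hTV h1
  have hfr : ∀ z, Fr (BF Tt) z := by
    intro z
    obtain ⟨a, ha, b, hb, hb0, h1⟩ := hTfr (j z)
    rw [← hmap] at ha hb
    obtain ⟨a', ha', rfl⟩ := ha
    obtain ⟨b', hb', rfl⟩ := hb
    refine ⟨a', ha', b', hb', fun h0 => hb0 (by rw [h0, map_zero]), j.injective ?_⟩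
    rw [h1, map_mul, map_inv₀]
  have hn : ¬ LogUnif V'' (BF Tt) := by
    intro h
    have hnB : IsNoetherianRing (BF Tt) := hnoe Tt
    have h1 : GP V'' (BF Tt) := gp_of_logUnif ⟨hBV, hfr⟩ h
    have h2 := gp_iso j hjs V' h1
    rw [hmap] at h2
    have hnA : IsNoetherianRing (Subring.closure ((ρ'.range : Set K') ∪ T)) := Pool.Agent.R187.CT.noe_rg hR ρ' hT
    exact hTn (h2.logUnif hTV)
  unfold LogUnif at hn
  push Not at hn
  obtain ⟨D, I₀, hD, hI, hn⟩ := hn
  rw [Set.mem_iUnion]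
  refine ⟨Tt, ?_⟩
  rw [Set.mem_iUnion]
  refine ⟨(D, I₀), hfr, hD, hI, V'', hV''V, hBV, ?_⟩
  rintro ⟨I₁, h1, h2⟩
  exact hn I₁ h1 h2

end

end Pool.Agent.V7H77.RG
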