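import Pool.Agent.V7H77.RG.Dens2
import Pool.Agent.V7H77.RG.Meagre

/-!
# Almost all extensions are valuation-algebraic
-/

set_option autoImplicit false

universe u

namespace Pool.Agent.V7H77.RG

open Polynomial IsLocalRing Pool.Agent.TH188.QS Pool.Agent.W418.LU2 Pool.Agent.V7H82.ZR

section

variable {E : Type u} [Field E] {K : Type u} [Field K] [Algebra E K]

/-- Elements which are algebraic modulo the coarsening have torsion values. -/
theorem torsion_aux (W : ValuationSubring K) (hnt : ∃ x : E, algebraMap E K x ∉ W) {z : K}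
    (hz0 : z ≠ 0) (hz : z⁻¹ ∈ coarse E W) {P : E[X]} (hP : P ≠ 0)
    (hPz : ∀ c : E, algebraMap E K c * aeval z P ∈ W) :
    ∃ n : ℕ, n ≠ 0 ∧ ∃ c : E, c ≠ 0 ∧ z ^ n / algebraMap E K c ∈ W ∧
      (z ^ n / algebraMap E K c)⁻¹ ∈ W := by
  classical
  by_contra hcon
  push Not at hcon
  let v : Valuation K W.ValueGroup := W.valuation
  have hm : ∀ i ∈ P.support, algebraMap E K (P.coeff i) ≠ 0 := fun i hi =>
    (_root_.map_ne_zero _).2 (mem_support_iff.1 hi)
  have key : ∀ i j : ℕ, i < j → i ∈ P.support → j ∈ P.support →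
      v (algebraMap E K (P.coeff i) * z ^ i) ≠ v (algebraMap E K (P.coeff j) * z ^ j) := by
    intro i j hij hi hj h
    have hi0 := hm i hi
    have hj0 := hm j hj
    have h1 : z ^ (j - i) / algebraMap E K (P.coeff i / P.coeff j) =
        (algebraMap E K (P.coeff j) * z ^ j) / (algebraMap E K (P.coeff i) * z ^ i) := by
      have h2 : z ^ j = z ^ (j - i) * z ^ i := by rw [← pow_add, Nat.sub_add_cancel hij.le]
      rw [map_div₀, h2]
      have h3 : z ^ i ≠ 0 := pow_ne_zero _ hz0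
      field_simp
    have h4 : v (z ^ (j - i) / algebraMap E K (P.coeff i / P.coeff j)) = 1 := by
      rw [h1, map_div₀, ← h, div_self]
      exact (_root_.map_ne_zero _).2 (mul_ne_zero hi0 (pow_ne_zero _ hz0))
    refine hcon (j - i) (Nat.sub_ne_zero_of_lt hij) (P.coeff i / P.coeff j)
      (div_ne_zero (mem_support_iff.1 hi) (mem_support_iff.1 hj)) ?_ ?_
    · exact (W.valuation_le_one_iff _).1 h4.le
    · refine (W.valuation_le_one_iff _).1 ?_
      have h5 : W.valuation (z ^ (j - i) / algebraMap E K (P.coeff i / P.coeff j)) = 1 := h4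
      rw [map_inv₀, h5, inv_one]
  obtain ⟨i, hi, hmax⟩ := Finset.exists_max_image P.support
    (fun i => v (algebraMap E K (P.coeff i) * z ^ i)) (support_nonempty.2 hP)
  have hi0 := hm i hi
  have hv0 : v (algebraMap E K (P.coeff i) * z ^ i) ≠ 0 :=
    (_root_.map_ne_zero _).2 (mul_ne_zero hi0 (pow_ne_zero _ hz0))
  have hsum : aeval z P = algebraMap E K (P.coeff i) * z ^ i +
      ∑ j ∈ P.support.erase i, algebraMap E K (P.coeff j) * z ^ j := by
    rw [aeval_def, eval₂_eq_sum, sum_def, ← Finset.add_sum_erase _ _ hi]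
  have hlt : v (∑ j ∈ P.support.erase i, algebraMap E K (P.coeff j) * z ^ j) <
      v (algebraMap E K (P.coeff i) * z ^ i) := by
    refine v.map_sum_lt hv0 fun j hj => ?_
    have hj' := Finset.mem_of_mem_erase hj
    refine lt_of_le_of_ne (hmax j hj') ?_
    rcases lt_or_gt_of_ne (Finset.ne_of_mem_erase hj) with h | h
    · exact key j i h hj' hi
    · exact (key i j h hi hj').symm
  have hval : v (aeval z P) = v (algebraMap E K (P.coeff i) * z ^ i) := by
    rw [hsum]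
    exact v.map_add_eq_of_lt_left hlt
  obtain ⟨c, hc, hcz⟩ := pow_mem hz i
  obtain ⟨x, hx⟩ := hnt
  apply hx
  have hc' : algebraMap E K c ≠ 0 := (_root_.map_ne_zero _).2 hc
  have h1 : algebraMap E K (x / (P.coeff i * c)) * (algebraMap E K (P.coeff i) * z ^ i) ∈ W := by
    rw [← W.valuation_le_one_iff, map_mul]
    have h2 := (W.valuation_le_one_iff _).2 (hPz (x / (P.coeff i * c)))
    rw [map_mul] at h2
    have h3 : W.valuation (aeval z P) = W.valuation (algebraMap E K (P.coeff i) * z ^ i) := hval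
    rwa [h3] at h2
  have h2 := mul_mem h1 hcz
  have h3 : algebraMap E K (x / (P.coeff i * c)) * (algebraMap E K (P.coeff i) * z ^ i) *
      (algebraMap E K c * z⁻¹ ^ i) = algebraMap E K x := by
    rw [map_div₀, map_mul, inv_pow]
    have h4 : z ^ i ≠ 0 := pow_ne_zero _ hz0
    field_simp
  rwa [h3] at h2

/-- Elements which are algebraic modulo the coarsening have algebraic residues. -/
theorem residue_aux (W : ValuationSubring K) (hnt : ∃ x : E, algebraMap E K x ∉ W) {z : K}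
    {P : E[X]} (hP : P ≠ 0) (hPz : ∀ c : E, algebraMap E K c * aeval z P ∈ W) :
    ∃ Q : E[X], (∀ i, algebraMap E K (Q.coeff i) ∈ W) ∧ (∃ i, Q.coeff i = 1) ∧
      W.valuation (aeval z Q) < 1 := by
  classical
  obtain ⟨i, hi, hmax⟩ := Finset.exists_max_image P.support
    (fun i => W.valuation (algebraMap E K (P.coeff i))) (support_nonempty.2 hP)
  have hi0 : P.coeff i ≠ 0 := mem_support_iff.1 hi
  have hi0' : algebraMap E K (P.coeff i) ≠ 0 := (_root_.map_ne_zero _).2 hi0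
  refine ⟨C (P.coeff i)⁻¹ * P, fun j => ?_, ⟨i, ?_⟩, ?_⟩
  · rw [coeff_C_mul, ← W.valuation_le_one_iff, map_mul, map_mul, map_inv₀, map_inv₀]
    by_cases hj : j ∈ P.support
    · have h1 := hmax j hj
      have h2 : W.valuation (algebraMap E K (P.coeff i)) ≠ 0 := (_root_.map_ne_zero _).2 hi0'
      rw [inv_mul_le_one₀ (zero_lt_iff.2 h2)]
      exact h1
    · rw [notMem_support_iff.1 hj, map_zero, map_zero, mul_zero]
      exact zero_le_one
  · rw [coeff_C_mul, inv_mul_cancel₀ hi0]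
  · by_cases h0 : aeval z (C (P.coeff i)⁻¹ * P) = 0
    · rw [h0, map_zero]
      exact zero_lt_one
    rw [val_lt_iff W h0]
    intro hinv
    obtain ⟨x, hx⟩ := hnt
    apply hx
    have h1 := mul_mem hinv (hPz (x * (P.coeff i)⁻¹))
    have h2 : (aeval z (C (P.coeff i)⁻¹ * P))⁻¹ *
        (algebraMap E K (x * (P.coeff i)⁻¹) * aeval z P) = algebraMap E K x := by
      rw [map_mul, aeval_C] at h0 ⊢
      have h3 : aeval z P ≠ 0 := right_ne_zero_of_mul h0
      rw [map_mul, map_inv₀]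
      field_simp
    rwa [h2] at h1

end

section

variable {R E : Type u} [CommRing R] [Field E] {ρ : R →+* E} {V₀ : ValuationSubring E}
  {K : Type u} [Field K] [Algebra E K]

/-- The extension of valued fields `(K | E, V)` is valuation-algebraic: the value group of `V` is torsion over that of
`V ∩ E`, and the residue field is algebraic. -/
def VA (E : Type u) [Field E] {K : Type u} [Field K] [Algebra E K] (V : ValuationSubring K) :
    Prop :=
  (∀ z : K, z ≠ 0 → ∃ n : ℕ, n ≠ 0 ∧ ∃ c : E, c ≠ 0 ∧ z ^ n / algebraMap E K c ∈ V ∧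
    (z ^ n / algebraMap E K c)⁻¹ ∈ V) ∧
  ∀ z : K, z ∈ V → ∃ Q : E[X], (∀ i, algebraMap E K (Q.coeff i) ∈ V) ∧ (∃ i, Q.coeff i = 1) ∧
    V.valuation (aeval z Q) < 1

lemma ex_ne_top (hne : V₀ ≠ ⊤) (V : Ex V₀ K) : ∃ x : E, algebraMap E K x ∉ V.1 := by
  by_contra h
  push Not at h
  apply hne
  rw [← V.2, eq_top_iff]
  intro x _
  exact h x

theorem near_va (hR : HJ R) (hne : V₀ ≠ ⊤) (hU : UU ρ V₀)
    (hK : ∃ T : Finset K, FiniteDimensional (IntermediateField.adjoin E (T : Set K)) K)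
    (V : Ex V₀ K) {A N : Set K} (hA : A.Finite) (hN : N.Finite) (hAV : ∀ x ∈ A, exm V x)
    (hNV : ∀ x ∈ N, ¬ exm V x) (Z : Finset K) :
    ∃ W : Ex V₀ K, UU ((algebraMap E K).comp ρ) W.1 ∧ (∀ x ∈ A, exm W x) ∧
      (∀ x ∈ N, ¬ exm W x) ∧
      (∀ x ∈ coarse E W.1, ∃ P : E[X], P ≠ 0 ∧ ∀ c : E, algebraMap E K c * aeval x P ∈ W.1) ∧
      (∀ s ∈ Z, s ≠ 0 → s ∈ coarse E W.1 ∧ s⁻¹ ∈ coarse E W.1) := by
  classical
  obtain ⟨T, hT⟩ := hK
  obtain ⟨W, hWE, hWU, h1, h2, h3, h4⟩ := dense2 hR ρ V₀ hne hU T.card K T le_rfl hT V.1 V.2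
    ((hA.toFinset ∪ hN.toFinset.image fun x => x⁻¹) ∪ Z)
  refine ⟨⟨W, hWE⟩, hWU, fun x hx => ?_, fun x hx hxW => ?_, h3, fun s hs hs0 =>
    h4 s (Finset.mem_union_right _ hs) hs0⟩
  · exact h1 x (Finset.mem_union_left _ (Finset.mem_union_left _ (hA.mem_toFinset.2 hx)))
      (hAV x hx)
  · have hx0 : x ≠ 0 := by
      rintro rfl
      exact hNV 0 hx (zero_mem V.1)
    have h3 : V.1.valuation x⁻¹ < 1 := by
      rw [val_lt_iff _ (inv_ne_zero hx0), inv_inv]
      exact hNV x hx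
    have h4 := h2 x⁻¹ (Finset.mem_union_left _ (Finset.mem_union_right _
      (Finset.mem_image_of_mem _ (hN.mem_toFinset.2 hx)))) h3
    rw [val_lt_iff _ (inv_ne_zero hx0), inv_inv] at h4
    exact h4 hxW

theorem nwd_tors (hR : HJ R) (hne : V₀ ≠ ⊤) (hU : UU ρ V₀)
    (hK : ∃ T : Finset K, FiniteDimensional (IntermediateField.adjoin E (T : Set K)) K)
    {z : K} (hz : z ≠ 0) :
    @IsNowhereDense (Ex V₀ K) (pt exm) {V | ¬ ∃ n : ℕ, n ≠ 0 ∧ ∃ c : E, c ≠ 0 ∧
      z ^ n / algebraMap E K c ∈ V.1 ∧ (z ^ n / algebraMap E K c)⁻¹ ∈ V.1} := by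
  classical
  refine pt_nowhereDense fun V A N hA hN h1 h2 => ?_
  obtain ⟨W, -, h3, h4, h5, h6⟩ := near_va hR hne hU hK V hA hN h1 h2 {z}
  obtain ⟨h7, h8⟩ := h6 z (Finset.mem_singleton_self z) hz
  obtain ⟨P, hP, hPz⟩ := h5 z h7
  obtain ⟨n, hn, c, hc, h9, h10⟩ := torsion_aux W.1 (ex_ne_top hne W) hz h8 hP hPz
  refine ⟨W, {z ^ n / algebraMap E K c, (z ^ n / algebraMap E K c)⁻¹}, ∅, Set.toFinite _,
    Set.finite_empty, ?_, ?_, fun V₁ h11 _ h12 => h12 ⟨n, hn, c, hc, h11 _ (Or.inl rfl),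
      h11 _ (Or.inr rfl)⟩⟩
  · rintro x (hx | rfl | rfl)
    · exact h3 x hx
    · exact h9
    · exact h10
  · rintro x (hx | hx)
    · exact h4 x hx
    · exact hx.elim

theorem nwd_resid (hR : HJ R) (hne : V₀ ≠ ⊤) (hU : UU ρ V₀)
    (hK : ∃ T : Finset K, FiniteDimensional (IntermediateField.adjoin E (T : Set K)) K)
    (z : K) :
    @IsNowhereDense (Ex V₀ K) (pt exm) {V | z ∈ V.1 ∧ ¬ ∃ Q : E[X],
      (∀ i, algebraMap E K (Q.coeff i) ∈ V.1) ∧ (∃ i, Q.coeff i = 1) ∧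
        V.1.valuation (aeval z Q) < 1} := by
  classical
  refine pt_nowhereDense fun V A N hA hN h1 h2 => ?_
  obtain ⟨W, -, h3, h4, h5, -⟩ := near_va hR hne hU hK V hA hN h1 h2 ∅
  by_cases hzW : z ∈ W.1
  · obtain ⟨P, hP, hPz⟩ := h5 z (le_coarse E W.1 hzW)
    obtain ⟨Q, h6, h7, h8⟩ := residue_aux W.1 (ex_ne_top hne W) hP hPz
    have hco : ∀ V₁ : Ex V₀ K, ∀ i, algebraMap E K (Q.coeff i) ∈ V₁.1 := by
      intro V₁ i
      have h9 : Q.coeff i ∈ W.1.comap (algebraMap E K) := h6 i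
      rw [W.2, ← V₁.2] at h9
      exact h9
    by_cases h0 : aeval z Q = 0
    · refine ⟨W, ∅, ∅, Set.finite_empty, Set.finite_empty, ?_, ?_, fun V₁ _ _ h12 =>
        h12.2 ⟨Q, hco V₁, h7, ?_⟩⟩
      · rintro x (hx | hx)
        · exact h3 x hx
        · exact hx.elim
      · rintro x (hx | hx)
        · exact h4 x hx
        · exact hx.elim
      · rw [h0, map_zero]
        exact zero_lt_one
    · refine ⟨W, ∅, {(aeval z Q)⁻¹}, Set.finite_empty, Set.finite_singleton _, ?_, ?_,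
        fun V₁ _ h11 h12 => h12.2 ⟨Q, hco V₁, h7, ?_⟩⟩
      · rintro x (hx | hx)
        · exact h3 x hx
        · exact hx.elim
      · rintro x (hx | rfl)
        · exact h4 x hx
        · exact (val_lt_iff W.1 h0).1 h8
      · exact (val_lt_iff V₁.1 h0).2 (h11 _ rfl)
  · refine ⟨W, ∅, {z}, Set.finite_empty, Set.finite_singleton _, ?_, ?_,
        fun V₁ _ h11 h12 => h11 z rfl h12.1⟩
    · rintro x (hx | hx)
      · exact h3 x hx
      · exact hx.elim
    · rintro x (hx | rfl)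
      · exact h4 x hx
      · exact hzW

/-- Almost all extensions are valuation-algebraic. -/
theorem meagre_va (hR : HJ R) [Countable R] (hne : V₀ ≠ ⊤) (hU : UU ρ V₀)
    (hE : ∃ S : Set E, S.Finite ∧ ∀ z, Fr (Subring.closure ((ρ.range : Set E) ∪ S)) z)
    (hK : (⊤ : IntermediateField E K).FG) :
    @IsMeagre (Ex V₀ K) (pt exm) {V | ¬ VA E V.1} := by
  classical
  let _ : TopologicalSpace (Ex V₀ K) := pt exm
  have hKc : Countable K := countable_fr (fg_tower hE hK)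
  have hKf := fd_of_fg hK
  refine IsMeagre.mono ?_ ((isMeagre_iUnion fun z : {z : K // z ≠ 0} =>
    (nwd_tors (V₀ := V₀) hR hne hU hKf z.2).isMeagre).union (isMeagre_iUnion fun z : K =>
      (nwd_resid (V₀ := V₀) hR hne hU hKf z).isMeagre))
  intro V hV
  have hV' : ¬ VA E V.1 := hV
  unfold VA at hV'
  rw [not_and_or] at hV'
  rcases hV' with h | h
  · left
    push Not at h
    obtain ⟨z, hz, h⟩ := h
    rw [Set.mem_iUnion]
    refine ⟨⟨z, hz⟩, ?_⟩
    rintro ⟨n, hn, c, hc, h1, h2⟩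
    exact h n hn c hc h1 h2
  · right
    push Not at h
    obtain ⟨z, hz, h⟩ := h
    rw [Set.mem_iUnion]
    refine ⟨z, hz, ?_⟩
    rintro ⟨Q, h1, ⟨i, hi⟩, h2⟩
    exact absurd h2 (not_lt.2 (h Q h1 ⟨i, hi⟩))

end

end Pool.Agent.V7H77.RG
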