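import Mathlib

/-!
# Valuation rings in finite extensions
-/

set_option autoImplicit false

namespace Pool.Agent.V7H77.RG

open Polynomial

section

variable {L F : Type*} [Field L] [Field F] [Algebra L F] (V : ValuationSubring F)

/-- The image in `F` of the valuation ring of `L`. -/
def base : Subring F := (V.comap (algebraMap L F)).toSubring.map (algebraMap L F)

lemma mem_base {x : F} : x ∈ base (L := L) V ↔ ∃ l : L, algebraMap L F l ∈ V ∧ algebraMap L F l = x :=
  Iff.rfl

/-- The integral closure. -/
abbrev IC : Subalgebra (base (L := L) V) F := integralClosure (base (L := L) V) F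

lemma base_le : base (L := L) V ≤ V.toSubring := by
  rintro _ ⟨l, hl, rfl⟩
  exact hl

lemma mem_IC {x : F} (h : ∀ W : ValuationSubring F, base (L := L) V ≤ W.toSubring → x ∈ W) :
    x ∈ IC (L := L) V := by
  by_contra hx
  have hx' : x ∉ (IC (L := L) V).toSubring := hx
  obtain ⟨W, hW, hxW⟩ := Subring.exists_le_valuationSubring_of_isIntegrallyClosedIn hx'
  refine hxW (h W fun a ha => hW ?_)
  exact (IC (L := L) V).algebraMap_mem ⟨a, ha⟩

lemma IC_le {x : F} (hx : x ∈ IC (L := L) V) : x ∈ V := by
  have h1 : IsIntegral (base (L := L) V) x := hx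
  have h2 : IsIntegral V x := by
    obtain ⟨p, hp, hpx⟩ := h1
    refine ⟨p.map (Subring.inclusion (base_le V)), hp.map _, ?_⟩
    rw [eval₂_map]
    exact hpx
  exact (IsIntegrallyClosed.isIntegral_iff.1 h2).elim fun y hy => hy ▸ y.2

/-- Elements of the valuation ring are fractions of integral elements. -/
theorem exists_frac [FiniteDimensional L F] {x : F} (hx : x ∈ V) :
    ∃ u ∈ IC (L := L) V, V.valuation u = 1 ∧ u * x ∈ IC (L := L) V := by
  classical
  by_cases hx0 : x = 0
  · exact ⟨1, one_mem _, map_one _, by rw [hx0, mul_zero]; exact zero_mem _⟩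
  let v := V.valuation
  have hxa : IsAlgebraic L x := Algebra.IsAlgebraic.isAlgebraic x
  obtain ⟨p, hp0, hpx⟩ := hxa
  obtain ⟨m, hm, hmax⟩ := Finset.exists_max_image p.support (fun i => v (algebraMap L F (p.coeff i)))
    (support_nonempty.2 hp0)
  have hc0 : p.coeff m ≠ 0 := mem_support_iff.1 hm
  set q : L[X] := C (p.coeff m)⁻¹ * p with hq
  have hqx : aeval x q = 0 := by rw [hq, map_mul, hpx, mul_zero]
  have hqle : ∀ i, v (algebraMap L F (q.coeff i)) ≤ 1 := by
    intro i
    rw [hq, coeff_C_mul, map_mul, map_mul, map_inv₀, map_inv₀]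
    by_cases hi : i ∈ p.support
    · exact inv_mul_le_one_of_le₀ (hmax i hi) zero_le
    · rw [notMem_support_iff.1 hi, map_zero, map_zero, mul_zero]
      exact zero_le_one
  have hqm : v (algebraMap L F (q.coeff m)) = 1 := by
    rw [hq, coeff_C_mul, inv_mul_cancel₀ hc0, map_one, map_one]
  -- the largest index of a unit
  obtain ⟨K, hK, hKmax⟩ := Finset.exists_max_image
    ((Finset.range (q.natDegree + 1)).filter fun i => v (algebraMap L F (q.coeff i)) = 1) id
    ⟨m, Finset.mem_filter.2 ⟨Finset.mem_range.2 (Nat.lt_succ_of_le (le_natDegree_of_ne_zero (by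
      intro h
      rw [h, map_zero, map_zero] at hqm
      exact zero_ne_one hqm))), hqm⟩⟩
  rw [Finset.mem_filter, Finset.mem_range] at hK
  have hKgt : ∀ i, K < i → v (algebraMap L F (q.coeff i)) < 1 := by
    intro i hi
    refine lt_of_le_of_ne (hqle i) fun h => ?_
    have h1 : i < q.natDegree + 1 := by
      refine Nat.lt_succ_of_le (le_natDegree_of_ne_zero ?_)
      intro h2
      rw [h2, map_zero, map_zero] at h
      exact zero_ne_one h
    have h2 := hKmax i (Finset.mem_filter.2 ⟨Finset.mem_range.2 h1, h⟩)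
    exact absurd h2 (not_le.2 hi)
  set n := q.natDegree with hn
  let c : ℕ → F := fun i => algebraMap L F (q.coeff i)
  have hcW : ∀ (W : ValuationSubring F), base (L := L) V ≤ W.toSubring → ∀ i, c i ∈ W := by
    intro W hW i
    refine hW ⟨q.coeff i, ?_, rfl⟩
    exact (V.valuation_le_one_iff _).1 (hqle i)
  set u : F := ∑ i ∈ Finset.range (n + 1 - K), c (K + i) * x ^ i with hu
  have hsum : ∑ i ∈ Finset.range (n + 1), c i * x ^ i = 0 := by
    rw [← hqx, aeval_eq_sum_range]
    exact Finset.sum_congr rfl fun i _ => by rw [Algebra.smul_def]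
  have hsplit : ∑ i ∈ Finset.range K, c i * x ^ i + u * x ^ K = 0 := by
    rw [← hsum, ← Finset.sum_range_add_sum_Ico _ hK.1.le, hu, Finset.sum_mul,
      Finset.sum_Ico_eq_sum_range]
    congr 1
    refine Finset.sum_congr rfl fun i _ => ?_
    rw [mul_assoc, ← pow_add, add_comm i K]
  have hvu : v u = 1 := by
    have h1 : n + 1 - K = (n - K) + 1 := by omega
    rw [hu, h1, Finset.sum_range_succ']
    simp only [add_zero, pow_zero, mul_one]
    have h2 : v (∑ i ∈ Finset.range (n - K), c (K + (i + 1)) * x ^ (i + 1)) < 1 := by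
      refine v.map_sum_lt one_ne_zero fun i _ => ?_
      rw [map_mul, map_pow]
      have h3 : v x ≤ 1 := (V.valuation_le_one_iff x).2 hx
      calc v (c (K + (i + 1))) * v x ^ (i + 1) ≤ v (c (K + (i + 1))) * 1 :=
            mul_le_mul_right (pow_le_one' h3 _) _
        _ < 1 := by rw [mul_one]; exact hKgt _ (by omega)
    have h4 : v (c K) = 1 := hK.2
    rw [add_comm, Valuation.map_add_eq_of_lt_left v (by rw [h4]; exact h2), h4]
  have hux : ∀ (W : ValuationSubring F), base (L := L) V ≤ W.toSubring → u * x ∈ W ∧ u ∈ W := by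
    intro W hW
    rcases W.mem_or_inv_mem x with h | h
    · have h1 : u ∈ W := by
        rw [hu]
        exact sum_mem fun i _ => mul_mem (hcW W hW _) (pow_mem h _)
      exact ⟨mul_mem h1 h, h1⟩
    · have h1 : u * x ∈ W := by
        have h2 : u * x = - ∑ i ∈ Finset.range K, c i * (x⁻¹) ^ (K - 1 - i) := by
          by_cases hK0 : K = 0
          · rw [hK0, Finset.range_zero, Finset.sum_empty, zero_add, pow_zero, mul_one] at hsplit
            rw [hK0, Finset.range_zero, Finset.sum_empty, neg_zero, hsplit, zero_mul]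
          · have h3 : x ^ (K - 1) ≠ 0 := pow_ne_zero _ hx0
            apply mul_right_cancel₀ h3
            have h4 : u * x * x ^ (K - 1) = u * x ^ K := by
              rw [mul_assoc, ← pow_succ', Nat.sub_add_cancel (Nat.pos_of_ne_zero hK0)]
            rw [h4, neg_mul]
            have h5 : (∑ i ∈ Finset.range K, c i * x⁻¹ ^ (K - 1 - i)) * x ^ (K - 1) =
                ∑ i ∈ Finset.range K, c i * x ^ i := by
              rw [Finset.sum_mul]
              refine Finset.sum_congr rfl fun i hi => ?_
              have h6 : i ≤ K - 1 := by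
                have := Finset.mem_range.1 hi
                omega
              rw [mul_assoc]
              congr 1
              rw [← Nat.sub_add_cancel h6, Nat.add_sub_cancel, pow_add, ← mul_assoc, ← mul_pow,
                inv_mul_cancel₀ hx0, one_pow, one_mul]
            rw [h5]
            exact eq_neg_of_add_eq_zero_right hsplit
        rw [h2]
        exact neg_mem (sum_mem fun i _ => mul_mem (hcW W hW _) (pow_mem h _))
      refine ⟨h1, ?_⟩
      have h2 : u = u * x * x⁻¹ := by rw [mul_assoc, mul_inv_cancel₀ hx0, mul_one]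
      rw [h2]
      exact mul_mem h1 h
  exact ⟨u, mem_IC V fun W hW => (hux W hW).2, hvu, mem_IC V fun W hW => (hux W hW).1⟩

/-- The ideal of the valuation in the integral closure. -/
def cm : Ideal (IC (L := L) V) where
  carrier := {x | V.valuation (x : F) < 1}
  zero_mem' := by
    change V.valuation ((0 : IC (L := L) V) : F) < 1
    rw [ZeroMemClass.coe_zero, map_zero]
    exact zero_lt_one
  add_mem' := fun {a b} ha hb => lt_of_le_of_lt (V.valuation.map_add _ _) (max_lt ha hb)
  smul_mem' := fun c a ha => by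
    change V.valuation ((c : F) * (a : F)) < 1
    rw [map_mul]
    have h1 := (V.valuation_le_one_iff _).2 (IC_le V c.2)
    calc V.valuation (c : F) * V.valuation (a : F) ≤ 1 * V.valuation (a : F) := mul_le_mul_left h1 _
      _ = V.valuation (a : F) := one_mul _
      _ < 1 := ha

lemma mem_cm {x : IC (L := L) V} : x ∈ cm (L := L) V ↔ V.valuation (x : F) < 1 := Iff.rfl

instance cm_prime : (cm (L := L) V).IsPrime := by
  refine ⟨fun h => ?_, fun {a b} hab => ?_⟩
  · have h1 : (1 : IC (L := L) V) ∈ cm (L := L) V := by rw [h]; trivial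
    have h2 : V.valuation ((1 : IC (L := L) V) : F) < 1 := h1
    rw [OneMemClass.coe_one, map_one] at h2
    exact lt_irrefl _ h2
  · by_contra h
    rw [not_or] at h
    have h1 : V.valuation ((a : F) * (b : F)) < 1 := hab
    have ha : V.valuation (a : F) = 1 :=
      le_antisymm ((V.valuation_le_one_iff _).2 (IC_le V a.2)) (not_lt.1 h.1)
    have hb : V.valuation (b : F) = 1 :=
      le_antisymm ((V.valuation_le_one_iff _).2 (IC_le V b.2)) (not_lt.1 h.2)
    rw [map_mul, ha, hb, mul_one] at h1
    exact lt_irrefl _ h1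

instance cm_maximal : (cm (L := L) V).IsMaximal := by
  have h1 : (Ideal.comap (algebraMap (base (L := L) V) (IC (L := L) V)) (cm V)).IsMaximal := by
    rw [Ideal.isMaximal_iff]
    refine ⟨fun h => ?_, fun J x hJ hx hxJ => ?_⟩
    · have h2 : V.valuation (1 : F) < 1 := h
      rw [map_one] at h2
      exact lt_irrefl _ h2
    · obtain ⟨l, hl, hlx⟩ := x.2
      have hv : V.valuation (x : F) = 1 := by
        refine le_antisymm ((V.valuation_le_one_iff _).2 (base_le V x.2)) (not_lt.1 fun h => ?_)
        exact hx h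
      have hx0 : (x : F) ≠ 0 := by
        intro h
        rw [h, map_zero] at hv
        exact zero_ne_one hv
      have h2 : (x : F)⁻¹ ∈ base (L := L) V := by
        refine ⟨l⁻¹, ?_, ?_⟩
        · change algebraMap L F l⁻¹ ∈ V
          rw [map_inv₀, hlx, ← V.valuation_le_one_iff, map_inv₀, hv, inv_one]
        · rw [← hlx]
          exact map_inv₀ _ _
      have h3 : (⟨(x : F)⁻¹, h2⟩ : base (L := L) V) * x = 1 := Subtype.ext (inv_mul_cancel₀ hx0)
      rw [← h3]
      exact J.mul_mem_left _ hxJ
  exact Ideal.isMaximal_of_isIntegral_of_isMaximal_comap (cm V) h1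

/-- There are finitely many maximal ideals. -/
theorem finite_max [FiniteDimensional L F] : Finite (MaximalSpectrum (IC (L := L) V)) := by
  classical
  by_contra hinf
  rw [not_finite_iff_infinite] at hinf
  obtain ⟨f, hf⟩ := Infinite.natEmbedding (MaximalSpectrum (IC (L := L) V))
  let n := Module.finrank L F
  let I : Fin (n + 1) → Ideal (IC (L := L) V) := fun i => (f i).asIdeal
  have hcop : Pairwise (Function.onFun IsCoprime I) := by
    intro i j hij
    have h1 : I i ≠ I j := fun h => hij (Fin.ext (hf (MaximalSpectrum.ext h)))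
    have hi : (I i).IsMaximal := (f i).isMaximal
    have hj : (I j).IsMaximal := (f j).isMaximal
    exact Ideal.isCoprime_of_isMaximal h1
  have he : ∀ i : Fin (n + 1), ∃ r : IC (L := L) V, ∀ j, r - (if j = i then 1 else 0) ∈ I j :=
    fun i => Ideal.exists_forall_sub_mem_ideal hcop fun j => if j = i then 1 else 0
  choose e he using he
  obtain ⟨c, hc, i₀, hi₀⟩ : ∃ c : Fin (n + 1) → L, ∑ i, c i • (e i : F) = 0 ∧ ∃ i, c i ≠ 0 := by
    have h1 : ¬ LinearIndependent L fun i => (e i : F) := by
      intro h
      have h2 := h.fintype_card_le_finrank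
      rw [Fintype.card_fin] at h2
      exact absurd h2 (by omega)
    exact Fintype.not_linearIndependent_iff.1 h1
  obtain ⟨j, -, hj⟩ := Finset.exists_max_image Finset.univ
    (fun i => V.valuation (algebraMap L F (c i))) ⟨i₀, Finset.mem_univ _⟩
  have hj0 : c j ≠ 0 := by
    intro h
    have h1 := hj i₀ (Finset.mem_univ _)
    rw [h, map_zero, map_zero] at h1
    exact (V.valuation.ne_zero_iff.2 ((map_ne_zero (algebraMap L F)).2 hi₀)) (le_zero_iff.1 h1)
  have hmem : ∀ i, algebraMap L F (c i / c j) ∈ base (L := L) V := by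
    intro i
    refine ⟨c i / c j, ?_, rfl⟩
    change algebraMap L F (c i / c j) ∈ V
    rw [← V.valuation_le_one_iff, map_div₀, map_div₀]
    exact div_le_one_of_le₀ (hj i (Finset.mem_univ _)) zero_le
  let d : Fin (n + 1) → IC (L := L) V := fun i => algebraMap (base (L := L) V) _ ⟨_, hmem i⟩
  have hsum : ∑ i, d i * e i = 0 := by
    apply Subtype.ext
    rw [AddSubmonoidClass.coe_finsetSum]
    have h1 : ∀ i, ((d i * e i : IC (L := L) V) : F) =
        (algebraMap L F (c j))⁻¹ * (c i • (e i : F)) := by
      intro i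
      change algebraMap L F (c i / c j) * (e i : F) = _
      rw [Algebra.smul_def, map_div₀]
      field_simp
    rw [Finset.sum_congr rfl fun i _ => h1 i, ← Finset.mul_sum, hc, mul_zero]
    rfl
  have hdj : d j = 1 := by
    apply Subtype.ext
    change algebraMap L F (c j / c j) = 1
    rw [div_self hj0, map_one]
  have h1 : (1 : IC (L := L) V) ∈ I j := by
    have h2 : ∑ i, d i * (e i - (if j = i then 1 else 0)) ∈ I j :=
      Ideal.sum_mem _ fun i _ => (I j).mul_mem_left _ (he i j)
    have h3 : ∑ i, d i * (e i - (if j = i then 1 else 0)) = -1 := by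
      simp only [mul_sub]
      rw [Finset.sum_sub_distrib, hsum]
      simp [hdj]
    rw [h3] at h2
    simpa using (I j).neg_mem h2
  exact (f j).isMaximal.ne_top ((Ideal.eq_top_iff_one _).2 h1)

/-- A separating element. -/
theorem exists_eps [FiniteDimensional L F] : ∃ e : IC (L := L) V, e ∈ cm (L := L) V ∧
    ∀ N : Ideal (IC (L := L) V), N.IsMaximal → N ≠ cm (L := L) V → 1 - e ∈ N := by
  classical
  have hfin := finite_max (L := L) V
  have hcop : Pairwise (Function.onFun IsCoprime
      fun i : MaximalSpectrum (IC (L := L) V) => i.asIdeal) := by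
    intro i j hij
    have h1 : i.asIdeal ≠ j.asIdeal := fun h => hij (MaximalSpectrum.ext h)
    have hi : i.asIdeal.IsMaximal := i.isMaximal
    have hj : j.asIdeal.IsMaximal := j.isMaximal
    exact Ideal.isCoprime_of_isMaximal h1
  obtain ⟨r, hr⟩ := Ideal.exists_forall_sub_mem_ideal hcop
    fun i => if i.asIdeal = cm (L := L) V then 0 else 1
  refine ⟨r, ?_, fun N hN hne => ?_⟩
  · have h1 := hr ⟨cm (L := L) V, inferInstance⟩
    simpa using h1
  · have h1 := hr ⟨N, hN⟩
    simp only [if_neg hne] at h1
    rw [← neg_sub]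
    exact N.neg_mem h1

/-- The separating element for finitely many elements. -/
theorem exists_sep [FiniteDimensional L F] (S : Finset F) :
    ∃ w ∈ IC (L := L) V, V.valuation w < 1 ∧
      (∀ s ∈ S, V.valuation s < 1 → V.valuation s ≤ V.valuation w) ∧
      ∀ s ∈ V, ∃ u ∈ IC (L := L) V, ∃ a ∈ IC (L := L) V, ∃ b ∈ IC (L := L) V,
        u * s ∈ IC (L := L) V ∧ a * u + b * w = 1 := by
  classical
  obtain ⟨e, he, heN⟩ := exists_eps (L := L) V
  obtain ⟨w, hw, hwN, hwS⟩ : ∃ w : IC (L := L) V, w ∈ cm (L := L) V ∧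
      (∀ N : Ideal (IC (L := L) V), N.IsMaximal → N ≠ cm (L := L) V → 1 - w ∈ N) ∧
      ∀ s ∈ S, V.valuation s < 1 → V.valuation s ≤ V.valuation (w : F) := by
    by_cases h : ∀ s ∈ S, V.valuation s < 1 → V.valuation s ≤ V.valuation (e : F)
    · exact ⟨e, he, heN, h⟩
    · push Not at h
      obtain ⟨s₀, hs₀, hs₀1, hs₀e⟩ := h
      obtain ⟨s, hs, hmax⟩ := Finset.exists_max_image (S.filter fun s => V.valuation s < 1)
        (fun s => V.valuation s) ⟨s₀, Finset.mem_filter.2 ⟨hs₀, hs₀1⟩⟩
      rw [Finset.mem_filter] at hs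
      have hes : V.valuation (e : F) < V.valuation s :=
        hs₀e.trans_le (hmax s₀ (Finset.mem_filter.2 ⟨hs₀, hs₀1⟩))
      obtain ⟨u, -, hu1, hus⟩ := exists_frac (L := L) V
        ((V.valuation_le_one_iff s).1 hs.2.le)
      let b : IC (L := L) V := ⟨u * s, hus⟩
      have hb : V.valuation (b : F) = V.valuation s := by
        change V.valuation (u * s) = _
        rw [map_mul, hu1, one_mul]
      have h1e : V.valuation (1 - (e : F)) = 1 := by
        rw [Valuation.map_sub_eq_of_lt_left _ (by rw [map_one]; exact he), map_one]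
      let w : IC (L := L) V := e + b * (1 - e)
      have hw : V.valuation (w : F) = V.valuation s := by
        change V.valuation ((e : F) + (b : F) * (1 - (e : F))) = _
        have h2 : V.valuation ((b : F) * (1 - (e : F))) = V.valuation s := by
          rw [map_mul, hb, h1e, mul_one]
        rw [Valuation.map_add_eq_of_lt_right _ (by rw [h2]; exact hes), h2]
      refine ⟨w, ?_, fun N hN hne => ?_, fun s' hs' h1 => ?_⟩
      · rw [mem_cm, hw]
        exact hs.2
      · have h2 : 1 - w = (1 - b) * (1 - e) := by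
          change 1 - (e + b * (1 - e)) = _
          ring
        rw [h2]
        exact N.mul_mem_left _ (heN N hN hne)
      · rw [hw]
        exact hmax s' (Finset.mem_filter.2 ⟨hs', h1⟩)
  refine ⟨w, w.2, hw, hwS, fun s hs => ?_⟩
  obtain ⟨u, hu, hu1, hus⟩ := exists_frac (L := L) V hs
  have htop : Ideal.span {(⟨u, hu⟩ : IC (L := L) V), w} = ⊤ := by
    by_contra h
    obtain ⟨N, hN, hle⟩ := Ideal.exists_le_maximal _ h
    have h1 : (⟨u, hu⟩ : IC (L := L) V) ∈ N := hle (Ideal.subset_span (Set.mem_insert _ _))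
    have h2 : w ∈ N := hle (Ideal.subset_span (Set.mem_insert_of_mem _ rfl))
    by_cases hNc : N = cm (L := L) V
    · rw [hNc] at h1
      have h3 : V.valuation u < 1 := h1
      rw [hu1] at h3
      exact lt_irrefl _ h3
    · have h3 := N.add_mem (hwN N hN hNc) h2
      rw [sub_add_cancel] at h3
      exact hN.ne_top ((Ideal.eq_top_iff_one _).2 h3)
  obtain ⟨a, b, hab⟩ := Ideal.mem_span_pair.1 ((Ideal.eq_top_iff_one _).1 htop)
  refine ⟨u, hu, a, a.2, b, b.2, hus, ?_⟩
  exact congrArg Subtype.val hab

end

end Pool.Agent.V7H77.RG
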