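import Pool.Agent.V7H77.RG.One
import Pool.Agent.V7H77.RG.Fin

/-!
# Approximation of a valuation on a curve by valuations centred at points
-/

set_option autoImplicit false

namespace Pool.Agent.V7H77.RG

open Polynomial

lemma mul_lt_of_le {Γ : Type*} [LinearOrderedCommGroupWithZero Γ] {a b : Γ} (ha : a ≤ 1)
    (hb : b < 1) : a * b < 1 :=
  calc a * b ≤ 1 * b := mul_le_mul_left ha _
    _ = b := one_mul _
    _ < 1 := hb

section

variable {L F : Type*} [Field L] [Field F] [Algebra L F] (V : ValuationSubring F)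

/-- The coefficients of the minimal polynomials of integral elements are integral. -/
theorem mp_mem {g : F} (hg : g ∈ IC (L := L) V) (i : ℕ) :
    algebraMap L F ((minpoly L g).coeff i) ∈ V := by
  let R : ValuationSubring L := V.comap (algebraMap L F)
  let : Algebra R F := ((algebraMap L F).comp (algebraMap R L)).toAlgebra
  have : IsScalarTower R L F := IsScalarTower.of_algebraMap_eq' rfl
  have hgR : IsIntegral R g := by
    obtain ⟨p, hp, hpg⟩ := (show IsIntegral (base (L := L) V) g from hg)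
    let π : R →+* base (L := L) V :=
      ((algebraMap L F).comp (algebraMap R L)).codRestrict (base (L := L) V)
        fun r => ⟨r, r.2, rfl⟩
    have hπ : Function.Surjective π := by
      rintro ⟨_, ⟨l, hl, rfl⟩⟩
      exact ⟨⟨l, hl⟩, rfl⟩
    obtain ⟨q, hq1, -, hq⟩ := lifts_and_degree_eq_and_monic (f := π)
      ((lifts_iff_coeff_lifts _).2 fun n => hπ _) hp
    refine ⟨q, hq, ?_⟩
    rw [← hpg, ← hq1, eval₂_map]
    rfl
  rw [minpoly.isIntegrallyClosed_eq_field_fractions' L hgR, coeff_map]
  exact ((minpoly R g).coeff i).2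

theorem mp_zero [FiniteDimensional L F] {g : F} (hg : g ∈ IC (L := L) V)
    (h : V.valuation g < 1) :
    V.valuation (algebraMap L F ((minpoly L g).coeff 0)) < 1 := by
  have h0 : aeval g (minpoly L g) = 0 := minpoly.aeval L g
  have h1 := divX_mul_X_add (minpoly L g)
  rw [← h1, map_add, map_mul, aeval_X, aeval_C] at h0
  have h2 : algebraMap L F ((minpoly L g).coeff 0) = -(aeval g (minpoly L g).divX * g) := by
    rw [eq_neg_iff_add_eq_zero, add_comm]
    exact h0
  have h3 : V.valuation (aeval g (minpoly L g).divX) ≤ 1 := by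
    rw [V.valuation_le_one_iff, aeval_eq_sum_range]
    refine sum_mem fun i _ => ?_
    rw [Algebra.smul_def, coeff_divX]
    exact mul_mem (mp_mem V hg _) (pow_mem (IC_le V hg) _)
  rw [h2, Valuation.map_neg, map_mul]
  calc V.valuation (aeval g (minpoly L g).divX) * V.valuation g ≤ 1 * V.valuation g :=
        mul_le_mul_left h3 _
    _ = V.valuation g := one_mul _
    _ < 1 := h

end

section

variable {k F : Type*} [Field k] [Field F] [Algebra k F] (V : ValuationSubring F) (t : F) (a : k)

/-- The fractions whose value at `a` is integral. -/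
def Av : Subring F where
  carrier := {x | ∃ f g : k[X], g.eval a ≠ 0 ∧ x * aeval t g = aeval t f ∧
    V.valuation (algebraMap k F (f.eval a)) ≤ V.valuation (algebraMap k F (g.eval a))}
  one_mem' := ⟨1, 1, by simp, by simp, le_rfl⟩
  zero_mem' := ⟨0, 1, by simp, by simp, by simp⟩
  neg_mem' := by
    rintro x ⟨f, g, hg, hx, h⟩
    refine ⟨-f, g, hg, ?_, ?_⟩
    · rw [map_neg, ← hx, neg_mul]
    · rw [eval_neg, map_neg, Valuation.map_neg]
      exact h
  mul_mem' := by
    rintro x y ⟨f, g, hg, hx, h⟩ ⟨f', g', hg', hy, h'⟩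
    refine ⟨f * f', g * g', ?_, ?_, ?_⟩
    · rw [eval_mul]
      exact mul_ne_zero hg hg'
    · rw [map_mul, map_mul, ← hx, ← hy]
      ring
    · rw [eval_mul, eval_mul, map_mul, map_mul, map_mul, map_mul]
      exact mul_le_mul' h h'
  add_mem' := by
    rintro x y ⟨f, g, hg, hx, h⟩ ⟨f', g', hg', hy, h'⟩
    refine ⟨f * g' + f' * g, g * g', ?_, ?_, ?_⟩
    · rw [eval_mul]
      exact mul_ne_zero hg hg'
    · rw [map_mul, map_add, map_mul, map_mul, ← hx, ← hy]
      ring
    · rw [eval_mul, eval_add, eval_mul, eval_mul, map_mul, map_add, map_mul, map_mul, map_mul]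
      refine (Valuation.map_add _ _ _).trans (max_le ?_ ?_)
      · rw [map_mul]
        exact mul_le_mul' h le_rfl
      · rw [map_mul, mul_comm (V.valuation (algebraMap k F (eval a g)))]
        exact mul_le_mul' h' le_rfl

/-- The fractions whose value at `a` is in the maximal ideal. -/
def Iv : Ideal (Av V t a) where
  carrier := {x | ∃ f g : k[X], g.eval a ≠ 0 ∧ (x : F) * aeval t g = aeval t f ∧
    V.valuation (algebraMap k F (f.eval a)) < V.valuation (algebraMap k F (g.eval a))}
  zero_mem' := ⟨0, 1, by simp, by simp, by simp⟩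
  add_mem' := by
    rintro x y ⟨f, g, hg, hx, h⟩ ⟨f', g', hg', hy, h'⟩
    have hg1 : (0 : V.ValueGroup) < V.valuation (algebraMap k F (g.eval a)) :=
      zero_lt_iff.2 ((_root_.map_ne_zero _).2 ((_root_.map_ne_zero _).2 hg))
    have hg2 : (0 : V.ValueGroup) < V.valuation (algebraMap k F (g'.eval a)) :=
      zero_lt_iff.2 ((_root_.map_ne_zero _).2 ((_root_.map_ne_zero _).2 hg'))
    refine ⟨f * g' + f' * g, g * g', ?_, ?_, ?_⟩
    · rw [eval_mul]
      exact mul_ne_zero hg hg'
    · change ((x : F) + (y : F)) * _ = _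
      rw [map_mul, map_add, map_mul, map_mul, ← hx, ← hy]
      ring
    · rw [eval_mul, eval_add, eval_mul, eval_mul, map_mul, map_add, map_mul, map_mul, map_mul]
      refine lt_of_le_of_lt (Valuation.map_add _ _ _) (max_lt ?_ ?_)
      · rw [map_mul]
        exact (mul_lt_mul_iff_left₀ hg2).2 h
      · rw [map_mul, mul_comm (V.valuation (algebraMap k F (eval a g)))]
        exact (mul_lt_mul_iff_left₀ hg1).2 h'
  smul_mem' := by
    rintro ⟨c, f', g', hg', hy, h'⟩ x ⟨f, g, hg, hx, h⟩
    have hg2 : (0 : V.ValueGroup) < V.valuation (algebraMap k F (g'.eval a)) :=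
      zero_lt_iff.2 ((_root_.map_ne_zero _).2 ((_root_.map_ne_zero _).2 hg'))
    refine ⟨f' * f, g' * g, ?_, ?_, ?_⟩
    · rw [eval_mul]
      exact mul_ne_zero hg' hg
    · change (c * (x : F)) * _ = _
      rw [map_mul, map_mul, ← hx, ← hy]
      ring
    · rw [eval_mul, eval_mul, map_mul, map_mul, map_mul, map_mul]
      calc V.valuation (algebraMap k F (eval a f')) * V.valuation (algebraMap k F (eval a f))
          ≤ V.valuation (algebraMap k F (eval a g')) * V.valuation (algebraMap k F (eval a f)) :=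
            mul_le_mul_left h' _
        _ < V.valuation (algebraMap k F (eval a g')) * V.valuation (algebraMap k F (eval a g)) :=
            (mul_lt_mul_iff_right₀ hg2).2 h

variable {t}

theorem one_notMem (ht : Transcendental k t) : (1 : Av V t a) ∉ Iv V t a := by
  rintro ⟨f, g, hg, h1, h⟩
  rw [OneMemClass.coe_one, one_mul] at h1
  have h2 : g = f := (transcendental_iff_injective.1 ht) h1
  rw [h2] at h
  exact lt_irrefl _ h

end

section

variable {k F : Type*} [Field k] [IsAlgClosed k] [Field F] [Algebra k F] (V : ValuationSubring F)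

open IntermediateField

/-- Approximation of a valuation of a function field of one variable. -/
theorem curve (L : Type*) [Field L] [Algebra L F] [FiniteDimensional L F]
    (hnt : ∃ x : k, x ≠ 0 ∧ V.valuation (algebraMap k F x) < 1) (t : F) (ht : Transcendental k t)
    (hL₁ : ∀ c : L, ∃ f g : k[X], g ≠ 0 ∧ algebraMap L F c * aeval t g = aeval t f)
    (hL₂ : ∀ (x : F) (f g : k[X]), g ≠ 0 → x * aeval t g = aeval t f → ∃ c : L,
      algebraMap L F c = x) (S : Finset F) :
    ∃ (a : k) (W : ValuationSubring F),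
      (∀ x : k, algebraMap k F x ∈ W ↔ algebraMap k F x ∈ V) ∧
      (∀ c : k, algebraMap k F c * (t - algebraMap k F a) ∈ W) ∧
      (∀ s ∈ S, s ∈ V → s ∈ W) ∧ (∀ s ∈ S, V.valuation s < 1 → W.valuation s < 1) := by
  classical
  obtain ⟨w, hwI, hw1, hwS, hwV⟩ := exists_sep (L := L) V S
  have hw0 : w ≠ 0 ∨ w = 0 := (eq_or_ne w 0).symm
  -- the elements whose denominators are controlled
  let S₁ : Finset F := (S ∪ (S.filter fun s => V.valuation s < 1).image fun s => s / w).filter
    fun s => s ∈ V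
  have hS₁V : ∀ s ∈ S₁, s ∈ V := fun s hs => (Finset.mem_filter.1 hs).2
  have hch : ∀ s : F, ∃ u a b : F, s ∈ V → u ∈ IC (L := L) V ∧ a ∈ IC (L := L) V ∧
      b ∈ IC (L := L) V ∧ u * s ∈ IC (L := L) V ∧ a * u + b * w = 1 := by
    intro s
    by_cases hs : s ∈ V
    · obtain ⟨u, hu, a, ha, b, hb, h1, h2⟩ := hwV s hs
      exact ⟨u, a, b, fun _ => ⟨hu, ha, hb, h1, h2⟩⟩
    · exact ⟨0, 0, 0, fun h => absurd h hs⟩
  choose u α β huab using hch
  let G : Finset F := insert w (S₁.image u ∪ S₁.image α ∪ S₁.image β ∪ S₁.image fun s => u s * s)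
  have hG : ∀ g ∈ G, g ∈ IC (L := L) V := by
    intro g hg
    simp only [G, Finset.mem_insert, Finset.mem_union, Finset.mem_image] at hg
    rcases hg with rfl | ((⟨s, hs, rfl⟩ | ⟨s, hs, rfl⟩) | ⟨s, hs, rfl⟩) | ⟨s, hs, rfl⟩
    · exact hwI
    · exact (huab s (hS₁V s hs)).1
    · exact (huab s (hS₁V s hs)).2.1
    · exact (huab s (hS₁V s hs)).2.2.1
    · exact (huab s (hS₁V s hs)).2.2.2.1
  -- their coefficients
  choose nu de hde hnd using hL₁
  let Cf : Finset L := G.biUnion fun g => (minpoly L g).coeffs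
  let P : Finset k[X] := (Cf.image nu ∪ Cf.image de).filter fun f => f ≠ 0
  obtain ⟨a, ha0, ha⟩ := one_var (k := k) (M := F) V.valuation hnt t
    (fun x hx => ht (by rw [← hx]; exact isAlgebraic_algebraMap x)) P
    (fun f hf => (Finset.mem_filter.1 hf).2)
  have hdeP : ∀ c ∈ Cf, de c ∈ P := fun c hc => Finset.mem_filter.2
    ⟨Finset.mem_union_right _ (Finset.mem_image_of_mem _ hc), hde c⟩
  have hnuP : ∀ c ∈ Cf, nu c ≠ 0 → nu c ∈ P := fun c hc h0 => Finset.mem_filter.2
    ⟨Finset.mem_union_left _ (Finset.mem_image_of_mem _ hc), h0⟩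
  have hpos : ∀ f : k[X], f ≠ 0 → (0 : V.ValueGroup) < V.valuation (aeval t f) := fun f hf =>
    zero_lt_iff.2 ((_root_.map_ne_zero _).2 fun h => hf ((transcendental_iff.1 ht) f h))
  have hpos' : ∀ f ∈ P, (0 : V.ValueGroup) < V.valuation (algebraMap k F (f.eval a)) :=
    fun f hf => zero_lt_iff.2 ((_root_.map_ne_zero _).2 ((_root_.map_ne_zero _).2 (ha0 f hf)))
  have hval : ∀ c ∈ Cf, V.valuation (aeval t (nu c)) =
      V.valuation (algebraMap L F c) * V.valuation (aeval t (de c)) := by
    intro c _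
    rw [← map_mul, hnd c]
  have hCA : ∀ c ∈ Cf, (algebraMap L F c) ∈ V → (algebraMap L F c) ∈ Av V t a := by
    intro c hc hcV
    refine ⟨nu c, de c, ha0 _ (hdeP c hc), hnd c, ?_⟩
    by_cases h0 : nu c = 0
    · rw [h0, eval_zero, map_zero, map_zero]
      exact zero_le
    · rw [← ha _ (hnuP c hc h0) _ (hdeP c hc), hval c hc]
      exact mul_le_of_le_one_left' ((V.valuation_le_one_iff _).2 hcV)
  have hCI : ∀ c ∈ Cf, V.valuation (algebraMap L F c) < 1 → ∃ f g : k[X], g.eval a ≠ 0 ∧
      (algebraMap L F c) * aeval t g = aeval t f ∧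
      V.valuation (algebraMap k F (f.eval a)) < V.valuation (algebraMap k F (g.eval a)) := by
    intro c hc hcV
    refine ⟨nu c, de c, ha0 _ (hdeP c hc), hnd c, ?_⟩
    by_cases h0 : nu c = 0
    · rw [h0, eval_zero, map_zero, map_zero]
      exact hpos' _ (hdeP c hc)
    · rw [← not_le, ← ha _ (hdeP c hc) _ (hnuP c hc h0), hval c hc, not_le]
      calc V.valuation (algebraMap L F c) * V.valuation (aeval t (de c))
          < 1 * V.valuation (aeval t (de c)) := (mul_lt_mul_iff_left₀ (hpos _ (hde c))).2 hcV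
        _ = _ := one_mul _
  -- the ring and the ideal
  have hAL : ∀ x : Av V t a, ∃ c : L, algebraMap L F c = x := by
    rintro ⟨x, f, g, hg, hx, -⟩
    exact hL₂ x f g (by rintro rfl; exact hg eval_zero) hx
  choose jf hjf using hAL
  have hLi := (algebraMap L F).injective
  let j : Av V t a →+* L :=
    { toFun := jf
      map_one' := hLi (by rw [hjf, map_one]; rfl)
      map_zero' := hLi (by rw [hjf, map_zero]; rfl)
      map_mul' := fun x y => hLi (by rw [map_mul, hjf, hjf, hjf]; rfl)
      map_add' := fun x y => hLi (by rw [map_add, hjf, hjf, hjf]; rfl) }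
  have hjF : ∀ x, algebraMap L F (j x) = x := hjf
  have hjinj : Function.Injective j := fun x y h => Subtype.ext (by rw [← hjF, ← hjF, h])
  have hcoef : ∀ g ∈ G, ∀ i, algebraMap L F ((minpoly L g).coeff i) ∈ Av V t a := by
    intro g hg i
    by_cases h0 : (minpoly L g).coeff i = 0
    · rw [h0, map_zero]
      exact (Av V t a).zero_mem
    · exact hCA _ (Finset.mem_biUnion.2 ⟨g, hg, coeff_mem_coeffs h0⟩) (mp_mem V (hG g hg) i)
  have hlift : ∀ g ∈ G, ∃ q : (Av V t a)[X], q.map j = minpoly L g ∧ q.Monic := by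
    intro g hg
    have hint : IsIntegral L g := Algebra.IsIntegral.isIntegral g
    obtain ⟨q, h1, -, h2⟩ := lifts_and_degree_eq_and_monic (f := j)
      ((lifts_iff_coeff_lifts _).2 fun n => ⟨⟨_, hcoef g hg n⟩, hLi (hjF _)⟩) (minpoly.monic hint)
    exact ⟨q, h1, h2⟩
  have haev : ∀ (q : (Av V t a)[X]) (x : F), aeval x (q.map j) = aeval x q := by
    intro q x
    rw [aeval_def, aeval_def, eval₂_map]
    congr 1
    exact RingHom.ext hjF
  have hGint : ∀ g ∈ G, IsIntegral (Av V t a) g := by
    intro g hg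
    obtain ⟨q, h1, h2⟩ := hlift g hg
    refine ⟨q, h2, ?_⟩
    have h3 := haev q g
    rw [h1, minpoly.aeval] at h3
    exact h3.symm
  have hI1 : Iv V t a ≠ ⊤ := fun h => one_notMem V a ht (by rw [h]; trivial)
  -- the valuation ring
  obtain ⟨W, hAW, hIW, hwW⟩ : ∃ W : ValuationSubring F, Av V t a ≤ W.toSubring ∧
      (∀ x ∈ Iv V t a, (x : F) ∈ W.nonunits) ∧ w ∈ W.nonunits := by
    by_cases hw : w = 0
    · obtain ⟨W, h1, h2⟩ := Ideal.image_subset_nonunits_valuationSubring (Iv V t a) hI1
      refine ⟨W, h1, fun x hx => h2 ⟨x, hx, rfl⟩, ?_⟩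
      rw [hw, ValuationSubring.mem_nonunits_iff, map_zero]
      exact zero_lt_one
    let : Invertible w := invertibleOfNonzero hw
    by_cases htop : (Iv V t a).map (algebraMap (Av V t a) (Algebra.adjoin (Av V t a) {w})) ⊔
        Ideal.span {(⟨w, Algebra.subset_adjoin rfl⟩ : Algebra.adjoin (Av V t a) {w})} = ⊤
    · exfalso
      obtain ⟨p, hp1, hp2⟩ :=
        Algebra.exists_aeval_invOf_eq_zero_of_idealMap_adjoin_sup_span_eq_top w (Iv V t a) hI1 htop
      have hwG : w ∈ G := Finset.mem_insert_self _ _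
      obtain ⟨q, hq1, hq2⟩ := hlift w hwG
      have h3 : aeval w p.reverse = 0 := by
        have h4 := (eval₂_reverse_eq_zero_iff (algebraMap (Av V t a) F) (⅟w) p).2 hp2
        rwa [invOf_invOf] at h4
      have h4 : q ∣ p.reverse := by
        rw [← map_dvd_map j hjinj hq2, hq1]
        refine minpoly.dvd _ _ ?_
        rw [haev]
        exact h3
      obtain ⟨r, hr⟩ := h4
      have h5 : p.leadingCoeff = q.coeff 0 * r.coeff 0 := by
        rw [← coeff_zero_reverse, hr, mul_coeff_zero]
      have h6 : q.coeff 0 ∈ Iv V t a := by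
        have h7 : j (q.coeff 0) = (minpoly L w).coeff 0 := by rw [← hq1, coeff_map]
        have h8 : ((q.coeff 0 : Av V t a) : F) = algebraMap L F ((minpoly L w).coeff 0) := by
          rw [← h7, hjF]
        by_cases h0 : (minpoly L w).coeff 0 = 0
        · have h9 : q.coeff 0 = 0 := hjinj (by rw [h7, h0, map_zero])
          rw [h9]
          exact zero_mem _
        · obtain ⟨f, g, hg, h9, h10⟩ := hCI _
            (Finset.mem_biUnion.2 ⟨w, hwG, coeff_mem_coeffs h0⟩) (mp_zero V hwI hw1)
          exact ⟨f, g, hg, by rw [h8]; exact h9, h10⟩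
      apply hI1
      rw [Ideal.eq_top_iff_one]
      have h7 : (1 : Av V t a) = p.leadingCoeff - (p.leadingCoeff - 1) := by ring
      rw [h7]
      refine Ideal.sub_mem _ ?_ hp1
      rw [h5]
      exact Ideal.mul_mem_right _ _ h6
    · obtain ⟨W, h1, h2⟩ := Ideal.image_subset_nonunits_valuationSubring
        (A := (Algebra.adjoin (Av V t a) {w}).toSubring) _ htop
      refine ⟨W, fun x hx => h1 ((Algebra.adjoin (Av V t a) {w}).algebraMap_mem ⟨x, hx⟩),
        fun x hx => h2 ⟨_, Ideal.mem_sup_left (Ideal.mem_map_of_mem _ hx), rfl⟩,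
        h2 ⟨_, Ideal.mem_sup_right (Ideal.subset_span rfl), rfl⟩⟩
  have hwW' : W.valuation w < 1 := (W.mem_nonunits_iff).1 hwW
  have hGW : ∀ g ∈ G, g ∈ W := by
    intro g hg
    obtain ⟨p, hp, hpx⟩ := hGint g hg
    have h2 : IsIntegral W g := by
      refine ⟨p.map (Subring.inclusion hAW), hp.map _, ?_⟩
      rw [eval₂_map]
      exact hpx
    exact (IsIntegrallyClosed.isIntegral_iff.1 h2).elim fun y hy => hy ▸ y.2
  have hS₁W : ∀ s ∈ S₁, s ∈ W := by
    intro s hs
    obtain ⟨-, -, -, -, h1⟩ := huab s (hS₁V s hs)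
    have hu : u s ∈ W := hGW _ (Finset.mem_insert_of_mem (Finset.mem_union_left _
      (Finset.mem_union_left _ (Finset.mem_union_left _ (Finset.mem_image_of_mem _ hs)))))
    have hα : α s ∈ W := hGW _ (Finset.mem_insert_of_mem (Finset.mem_union_left _
      (Finset.mem_union_left _ (Finset.mem_union_right _ (Finset.mem_image_of_mem _ hs)))))
    have hβ : β s ∈ W := hGW _ (Finset.mem_insert_of_mem (Finset.mem_union_left _
      (Finset.mem_union_right _ (Finset.mem_image_of_mem _ hs))))
    have hus : u s * s ∈ W := hGW _ (Finset.mem_insert_of_mem (Finset.mem_union_right _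
      (Finset.mem_image_of_mem (fun s => u s * s) hs)))
    have h2 : W.valuation (u s) = 1 := by
      refine le_antisymm ((W.valuation_le_one_iff _).2 hu) (not_lt.1 fun h => ?_)
      have h3 : W.valuation (α s * u s + β s * w) < 1 := by
        refine lt_of_le_of_lt (Valuation.map_add _ _ _) (max_lt ?_ ?_)
        · rw [map_mul]
          exact mul_lt_of_le ((W.valuation_le_one_iff _).2 hα) h
        · rw [map_mul]
          exact mul_lt_of_le ((W.valuation_le_one_iff _).2 hβ) hwW'
      rw [h1, map_one] at h3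
      exact lt_irrefl _ h3
    have h3 := (W.valuation_le_one_iff _).2 hus
    rw [map_mul, h2, one_mul] at h3
    exact (W.valuation_le_one_iff _).1 h3
  refine ⟨a, W, fun x => ⟨fun hx => ?_, fun hx => ?_⟩, fun c => ?_, fun s hs hsV => ?_,
    fun s hs hsV => ?_⟩
  · by_contra hxV
    have hx0 : x ≠ 0 := by
      rintro rfl
      exact hxV (by rw [map_zero]; exact zero_mem _)
    have h1 : V.valuation (algebraMap k F x⁻¹) < 1 := by
      rw [map_inv₀, map_inv₀]
      exact inv_lt_one_of_one_lt₀ (not_le.1 fun h => hxV ((V.valuation_le_one_iff _).1 h))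
    have h2 : algebraMap k F x⁻¹ ∈ Av V t a :=
      ⟨C x⁻¹, 1, by simp, by simp, by
        rw [eval_C, eval_one, map_one (algebraMap k F), map_one]
        exact h1.le⟩
    have h3 : (⟨_, h2⟩ : Av V t a) ∈ Iv V t a :=
      ⟨C x⁻¹, 1, by simp, by simp, by
        rw [eval_C, eval_one, map_one (algebraMap k F), map_one]
        exact h1⟩
    have h4 := (W.mem_nonunits_iff).1 (hIW _ h3)
    change W.valuation (algebraMap k F x⁻¹) < 1 at h4
    have h5 := (W.valuation_le_one_iff _).2 hx
    have h6 : W.valuation (algebraMap k F x * algebraMap k F x⁻¹) < 1 := by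
      rw [map_mul]
      exact mul_lt_of_le h5 h4
    rw [← map_mul, mul_inv_cancel₀ hx0, map_one, map_one] at h6
    exact lt_irrefl _ h6
  · exact hAW ⟨C x, 1, by simp, by simp, by
      rw [eval_C, eval_one, map_one (algebraMap k F), map_one]
      exact (V.valuation_le_one_iff _).2 hx⟩
  · exact hAW ⟨C c * (X - C a), 1, by simp, by simp, by simp⟩
  · exact hS₁W s (Finset.mem_filter.2 ⟨Finset.mem_union_left _ hs, hsV⟩)
  · by_cases hs0 : s = 0
    · rw [hs0, map_zero]
      exact zero_lt_one
    have hsw := hwS s hs hsV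
    have hw0 : w ≠ 0 := by
      rintro rfl
      rw [map_zero] at hsw
      exact (_root_.map_ne_zero V.valuation).2 hs0 (le_zero_iff.1 hsw)
    have hvw : (0 : V.ValueGroup) < V.valuation w := zero_lt_iff.2 ((_root_.map_ne_zero _).2 hw0)
    have h1 : s / w ∈ V := by
      rw [← V.valuation_le_one_iff, map_div₀]
      exact div_le_one_of_le₀ hsw zero_le
    have h2 : s / w ∈ W := hS₁W _ (Finset.mem_filter.2 ⟨Finset.mem_union_right _
      (Finset.mem_image.2 ⟨s, Finset.mem_filter.2 ⟨hs, hsV⟩, rfl⟩), h1⟩)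
    have h3 : s = s / w * w := (div_mul_cancel₀ s hw0).symm
    rw [h3, map_mul]
    exact mul_lt_of_le ((W.valuation_le_one_iff _).2 h2) hwW'

end

end Pool.Agent.V7H77.RG
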