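import Pool.Agent.V7H77.RG.Step

/-!
# Approximation on a curve with control of finitely many elements at the point
-/

set_option autoImplicit false

namespace Pool.Agent.V7H77.RG

open Polynomial

section

variable {L F : Type*} [Field L] [Field F] [Algebra L F]

theorem mp_unit (C : ValuationSubring F) {p : L[X]} (hp : p.Monic) {s : F}
    (hs : aeval s p = 0) (hc : ∀ i, algebraMap L F (p.coeff i) ∈ C)
    (hc0 : C.valuation (algebraMap L F (p.coeff 0)) = 1) : C.valuation s = 1 := by
  have hsC : s ∈ C := by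
    have hint : IsIntegral C s := by
      obtain ⟨q, hq1, -, hq⟩ := lifts_and_degree_eq_and_monic (f := C.subtype)
        (p := p.map (algebraMap L F)) ((lifts_iff_coeff_lifts _).2 fun n => by
          rw [coeff_map]
          exact ⟨⟨_, hc n⟩, rfl⟩) (hp.map _)
      refine ⟨q, hq, ?_⟩
      have h1 : eval₂ C.subtype s q = aeval s p := by
        rw [← eval_map, hq1, eval_map]
        rfl
      rw [hs] at h1
      exact h1
    exact (IsIntegrallyClosed.isIntegral_iff.1 hint).elim fun y hy => hy ▸ y.2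
  refine le_antisymm ((C.valuation_le_one_iff _).2 hsC) (not_lt.1 fun h => ?_)
  have h1 := divX_mul_X_add p
  rw [← h1, map_add, map_mul, aeval_X, aeval_C] at hs
  have h2 : algebraMap L F (p.coeff 0) = -(aeval s p.divX * s) := by
    rw [eq_neg_iff_add_eq_zero, add_comm]
    exact hs
  have h3 : C.valuation (aeval s p.divX) ≤ 1 := by
    rw [C.valuation_le_one_iff, aeval_eq_sum_range]
    refine sum_mem fun i _ => ?_
    rw [Algebra.smul_def, coeff_divX]
    exact mul_mem (hc _) (pow_mem hsC _)
  rw [h2, Valuation.map_neg, map_mul] at hc0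
  exact absurd hc0 (mul_lt_of_le h3 h).ne

end

section

variable {k F : Type*} [Field k] [IsAlgClosed k] [Field F] [Algebra k F] (V : ValuationSubring F)

open IntermediateField

/-- Approximation of a valuation of a function field of one variable. -/
theorem curve2 (L : Type*) [Field L] [Algebra L F] [FiniteDimensional L F]
    (hnt : ∃ x : k, x ≠ 0 ∧ V.valuation (algebraMap k F x) < 1) (t : F) (ht : Transcendental k t)
    (hL₁ : ∀ c : L, ∃ f g : k[X], g ≠ 0 ∧ algebraMap L F c * aeval t g = aeval t f)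
    (hL₂ : ∀ (x : F) (f g : k[X]), g ≠ 0 → x * aeval t g = aeval t f → ∃ c : L,
      algebraMap L F c = x) (S : Finset F) :
    ∃ (a : k) (W : ValuationSubring F),
      (∀ x : k, algebraMap k F x ∈ W ↔ algebraMap k F x ∈ V) ∧
      (∀ c : k, algebraMap k F c * (t - algebraMap k F a) ∈ W) ∧
      (∀ s ∈ S, s ∈ V → s ∈ W) ∧ (∀ s ∈ S, V.valuation s < 1 → W.valuation s < 1) ∧
      (∀ s ∈ S, s ≠ 0 → (coarse k W).valuation s = 1) := by
  classical
  obtain ⟨w, hwI, hw1, hwS, hwV⟩ := exists_sep (L := L) V S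
  have hw0 : w ≠ 0 ∨ w = 0 := (eq_or_ne w 0).symm
  -- the elements whose denominators are controlled
  let S₁ : Finset F := (S ∪ (S.filter fun s => V.valuation s < 1).image fun s => s / w).filter
    fun s => s ∈ V
  have hS₁V : ∀ s ∈ S₁, s ∈ V := fun s hs => (Finset.mem_filter.1 hs).2
  have hch : ∀ s : F, ∃ u a b : F, s ∈ V → u ∈ IC (L := L) V ∧ a ∈ IC (L := L) V ∧
      b ∈ IC (L := L) V ∧ u * s ∈ IC (L := L) V ∧ a * u + b * w = 1 := by
    intro s
    by_cases hs : s ∈ V
    · obtain ⟨u, hu, a, ha, b, hb, h1, h2⟩ := hwV s hs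
      exact ⟨u, a, b, fun _ => ⟨hu, ha, hb, h1, h2⟩⟩
    · exact ⟨0, 0, 0, fun h => absurd h hs⟩
  choose u α β huab using hch
  let G : Finset F := insert w (S₁.image u ∪ S₁.image α ∪ S₁.image β ∪ S₁.image fun s => u s * s)
  have hG : ∀ g ∈ G, g ∈ IC (L := L) V := by
    intro g hg
    simp only [G, Finset.mem_insert, Finset.mem_union, Finset.mem_image] at hg
    rcases hg with rfl | ((⟨s, hs, rfl⟩ | ⟨s, hs, rfl⟩) | ⟨s, hs, rfl⟩) | ⟨s, hs, rfl⟩
    · exact hwI
    · exact (huab s (hS₁V s hs)).1
    · exact (huab s (hS₁V s hs)).2.1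
    · exact (huab s (hS₁V s hs)).2.2.1
    · exact (huab s (hS₁V s hs)).2.2.2.1
  -- their coefficients
  choose nu de hde hnd using hL₁
  let Cf : Finset L := (G ∪ S).biUnion fun g => (minpoly L g).coeffs
  let P : Finset k[X] := (Cf.image nu ∪ Cf.image de).filter fun f => f ≠ 0
  obtain ⟨a, ha0, ha⟩ := one_var (k := k) (M := F) V.valuation hnt t
    (fun x hx => ht (by rw [← hx]; exact isAlgebraic_algebraMap x)) P
    (fun f hf => (Finset.mem_filter.1 hf).2)
  have hdeP : ∀ c ∈ Cf, de c ∈ P := fun c hc => Finset.mem_filter.2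
    ⟨Finset.mem_union_right _ (Finset.mem_image_of_mem _ hc), hde c⟩
  have hnuP : ∀ c ∈ Cf, nu c ≠ 0 → nu c ∈ P := fun c hc h0 => Finset.mem_filter.2
    ⟨Finset.mem_union_left _ (Finset.mem_image_of_mem _ hc), h0⟩
  have hpos : ∀ f : k[X], f ≠ 0 → (0 : V.ValueGroup) < V.valuation (aeval t f) := fun f hf =>
    zero_lt_iff.2 ((_root_.map_ne_zero _).2 fun h => hf ((transcendental_iff.1 ht) f h))
  have hpos' : ∀ f ∈ P, (0 : V.ValueGroup) < V.valuation (algebraMap k F (f.eval a)) :=
    fun f hf => zero_lt_iff.2 ((_root_.map_ne_zero _).2 ((_root_.map_ne_zero _).2 (ha0 f hf)))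
  have hval : ∀ c ∈ Cf, V.valuation (aeval t (nu c)) =
      V.valuation (algebraMap L F c) * V.valuation (aeval t (de c)) := by
    intro c _
    rw [← map_mul, hnd c]
  have hCA : ∀ c ∈ Cf, (algebraMap L F c) ∈ V → (algebraMap L F c) ∈ Av V t a := by
    intro c hc hcV
    refine ⟨nu c, de c, ha0 _ (hdeP c hc), hnd c, ?_⟩
    by_cases h0 : nu c = 0
    · rw [h0, eval_zero, map_zero, map_zero]
      exact zero_le
    · rw [← ha _ (hnuP c hc h0) _ (hdeP c hc), hval c hc]
      exact mul_le_of_le_one_left' ((V.valuation_le_one_iff _).2 hcV)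
  have hCI : ∀ c ∈ Cf, V.valuation (algebraMap L F c) < 1 → ∃ f g : k[X], g.eval a ≠ 0 ∧
      (algebraMap L F c) * aeval t g = aeval t f ∧
      V.valuation (algebraMap k F (f.eval a)) < V.valuation (algebraMap k F (g.eval a)) := by
    intro c hc hcV
    refine ⟨nu c, de c, ha0 _ (hdeP c hc), hnd c, ?_⟩
    by_cases h0 : nu c = 0
    · rw [h0, eval_zero, map_zero, map_zero]
      exact hpos' _ (hdeP c hc)
    · rw [← not_le, ← ha _ (hdeP c hc) _ (hnuP c hc h0), hval c hc, not_le]
      calc V.valuation (algebraMap L F c) * V.valuation (aeval t (de c))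
          < 1 * V.valuation (aeval t (de c)) := (mul_lt_mul_iff_left₀ (hpos _ (hde c))).2 hcV
        _ = _ := one_mul _
  -- the ring and the ideal
  have hAL : ∀ x : Av V t a, ∃ c : L, algebraMap L F c = x := by
    rintro ⟨x, f, g, hg, hx, -⟩
    exact hL₂ x f g (by rintro rfl; exact hg eval_zero) hx
  choose jf hjf using hAL
  have hLi := (algebraMap L F).injective
  let j : Av V t a →+* L :=
    { toFun := jf
      map_one' := hLi (by rw [hjf, map_one]; rfl)
      map_zero' := hLi (by rw [hjf, map_zero]; rfl)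
      map_mul' := fun x y => hLi (by rw [map_mul, hjf, hjf, hjf]; rfl)
      map_add' := fun x y => hLi (by rw [map_add, hjf, hjf, hjf]; rfl) }
  have hjF : ∀ x, algebraMap L F (j x) = x := hjf
  have hjinj : Function.Injective j := fun x y h => Subtype.ext (by rw [← hjF, ← hjF, h])
  have hcoef : ∀ g ∈ G, ∀ i, algebraMap L F ((minpoly L g).coeff i) ∈ Av V t a := by
    intro g hg i
    by_cases h0 : (minpoly L g).coeff i = 0
    · rw [h0, map_zero]
      exact (Av V t a).zero_mem
    · exact hCA _ (Finset.mem_biUnion.2 ⟨g, Finset.mem_union_left _ hg, coeff_mem_coeffs h0⟩)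
        (mp_mem V (hG g hg) i)
  have hlift : ∀ g ∈ G, ∃ q : (Av V t a)[X], q.map j = minpoly L g ∧ q.Monic := by
    intro g hg
    have hint : IsIntegral L g := Algebra.IsIntegral.isIntegral g
    obtain ⟨q, h1, -, h2⟩ := lifts_and_degree_eq_and_monic (f := j)
      ((lifts_iff_coeff_lifts _).2 fun n => ⟨⟨_, hcoef g hg n⟩, hLi (hjF _)⟩) (minpoly.monic hint)
    exact ⟨q, h1, h2⟩
  have haev : ∀ (q : (Av V t a)[X]) (x : F), aeval x (q.map j) = aeval x q := by
    intro q x
    rw [aeval_def, aeval_def, eval₂_map]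
    congr 1
    exact RingHom.ext hjF
  have hGint : ∀ g ∈ G, IsIntegral (Av V t a) g := by
    intro g hg
    obtain ⟨q, h1, h2⟩ := hlift g hg
    refine ⟨q, h2, ?_⟩
    have h3 := haev q g
    rw [h1, minpoly.aeval] at h3
    exact h3.symm
  have hI1 : Iv V t a ≠ ⊤ := fun h => one_notMem V a ht (by rw [h]; trivial)
  -- the valuation ring
  obtain ⟨W, hAW, hIW, hwW⟩ : ∃ W : ValuationSubring F, Av V t a ≤ W.toSubring ∧
      (∀ x ∈ Iv V t a, (x : F) ∈ W.nonunits) ∧ w ∈ W.nonunits := by
    by_cases hw : w = 0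
    · obtain ⟨W, h1, h2⟩ := Ideal.image_subset_nonunits_valuationSubring (Iv V t a) hI1
      refine ⟨W, h1, fun x hx => h2 ⟨x, hx, rfl⟩, ?_⟩
      rw [hw, ValuationSubring.mem_nonunits_iff, map_zero]
      exact zero_lt_one
    let : Invertible w := invertibleOfNonzero hw
    by_cases htop : (Iv V t a).map (algebraMap (Av V t a) (Algebra.adjoin (Av V t a) {w})) ⊔
        Ideal.span {(⟨w, Algebra.subset_adjoin rfl⟩ : Algebra.adjoin (Av V t a) {w})} = ⊤
    · exfalso
      obtain ⟨p, hp1, hp2⟩ :=
        Algebra.exists_aeval_invOf_eq_zero_of_idealMap_adjoin_sup_span_eq_top w (Iv V t a) hI1 htop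
      have hwG : w ∈ G := Finset.mem_insert_self _ _
      obtain ⟨q, hq1, hq2⟩ := hlift w hwG
      have h3 : aeval w p.reverse = 0 := by
        have h4 := (eval₂_reverse_eq_zero_iff (algebraMap (Av V t a) F) (⅟w) p).2 hp2
        rwa [invOf_invOf] at h4
      have h4 : q ∣ p.reverse := by
        rw [← map_dvd_map j hjinj hq2, hq1]
        refine minpoly.dvd _ _ ?_
        rw [haev]
        exact h3
      obtain ⟨r, hr⟩ := h4
      have h5 : p.leadingCoeff = q.coeff 0 * r.coeff 0 := by
        rw [← coeff_zero_reverse, hr, mul_coeff_zero]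
      have h6 : q.coeff 0 ∈ Iv V t a := by
        have h7 : j (q.coeff 0) = (minpoly L w).coeff 0 := by rw [← hq1, coeff_map]
        have h8 : ((q.coeff 0 : Av V t a) : F) = algebraMap L F ((minpoly L w).coeff 0) := by
          rw [← h7, hjF]
        by_cases h0 : (minpoly L w).coeff 0 = 0
        · have h9 : q.coeff 0 = 0 := hjinj (by rw [h7, h0, map_zero])
          rw [h9]
          exact zero_mem _
        · obtain ⟨f, g, hg, h9, h10⟩ := hCI _
            (Finset.mem_biUnion.2 ⟨w, Finset.mem_union_left _ hwG, coeff_mem_coeffs h0⟩)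
            (mp_zero V hwI hw1)
          exact ⟨f, g, hg, by rw [h8]; exact h9, h10⟩
      apply hI1
      rw [Ideal.eq_top_iff_one]
      have h7 : (1 : Av V t a) = p.leadingCoeff - (p.leadingCoeff - 1) := by ring
      rw [h7]
      refine Ideal.sub_mem _ ?_ hp1
      rw [h5]
      exact Ideal.mul_mem_right _ _ h6
    · obtain ⟨W, h1, h2⟩ := Ideal.image_subset_nonunits_valuationSubring
        (A := (Algebra.adjoin (Av V t a) {w}).toSubring) _ htop
      refine ⟨W, fun x hx => h1 ((Algebra.adjoin (Av V t a) {w}).algebraMap_mem ⟨x, hx⟩),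
        fun x hx => h2 ⟨_, Ideal.mem_sup_left (Ideal.mem_map_of_mem _ hx), rfl⟩,
        h2 ⟨_, Ideal.mem_sup_right (Ideal.subset_span rfl), rfl⟩⟩
  have hwW' : W.valuation w < 1 := (W.mem_nonunits_iff).1 hwW
  have hGW : ∀ g ∈ G, g ∈ W := by
    intro g hg
    obtain ⟨p, hp, hpx⟩ := hGint g hg
    have h2 : IsIntegral W g := by
      refine ⟨p.map (Subring.inclusion hAW), hp.map _, ?_⟩
      rw [eval₂_map]
      exact hpx
    exact (IsIntegrallyClosed.isIntegral_iff.1 h2).elim fun y hy => hy ▸ y.2
  have hS₁W : ∀ s ∈ S₁, s ∈ W := by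
    intro s hs
    obtain ⟨-, -, -, -, h1⟩ := huab s (hS₁V s hs)
    have hu : u s ∈ W := hGW _ (Finset.mem_insert_of_mem (Finset.mem_union_left _
      (Finset.mem_union_left _ (Finset.mem_union_left _ (Finset.mem_image_of_mem _ hs)))))
    have hα : α s ∈ W := hGW _ (Finset.mem_insert_of_mem (Finset.mem_union_left _
      (Finset.mem_union_left _ (Finset.mem_union_right _ (Finset.mem_image_of_mem _ hs)))))
    have hβ : β s ∈ W := hGW _ (Finset.mem_insert_of_mem (Finset.mem_union_left _
      (Finset.mem_union_right _ (Finset.mem_image_of_mem _ hs))))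
    have hus : u s * s ∈ W := hGW _ (Finset.mem_insert_of_mem (Finset.mem_union_right _
      (Finset.mem_image_of_mem (fun s => u s * s) hs)))
    have h2 : W.valuation (u s) = 1 := by
      refine le_antisymm ((W.valuation_le_one_iff _).2 hu) (not_lt.1 fun h => ?_)
      have h3 : W.valuation (α s * u s + β s * w) < 1 := by
        refine lt_of_le_of_lt (Valuation.map_add _ _ _) (max_lt ?_ ?_)
        · rw [map_mul]
          exact mul_lt_of_le ((W.valuation_le_one_iff _).2 hα) h
        · rw [map_mul]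
          exact mul_lt_of_le ((W.valuation_le_one_iff _).2 hβ) hwW'
      rw [h1, map_one] at h3
      exact lt_irrefl _ h3
    have h3 := (W.valuation_le_one_iff _).2 hus
    rw [map_mul, h2, one_mul] at h3
    exact (W.valuation_le_one_iff _).1 h3
  have hbase : ∀ x : k, algebraMap k F x ∈ W ↔ algebraMap k F x ∈ V := by
    refine fun x => ⟨fun hx => ?_, fun hx => ?_⟩
    · by_contra hxV
      have hx0 : x ≠ 0 := by
        rintro rfl
        exact hxV (by rw [map_zero]; exact zero_mem _)
      have h1 : V.valuation (algebraMap k F x⁻¹) < 1 := by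
        rw [map_inv₀, map_inv₀]
        exact inv_lt_one_of_one_lt₀ (not_le.1 fun h => hxV ((V.valuation_le_one_iff _).1 h))
      have h2 : algebraMap k F x⁻¹ ∈ Av V t a :=
        ⟨C x⁻¹, 1, by simp, by simp, by
          rw [eval_C, eval_one, map_one (algebraMap k F), map_one]
          exact h1.le⟩
      have h3 : (⟨_, h2⟩ : Av V t a) ∈ Iv V t a :=
        ⟨C x⁻¹, 1, by simp, by simp, by
          rw [eval_C, eval_one, map_one (algebraMap k F), map_one]
          exact h1⟩
      have h4 := (W.mem_nonunits_iff).1 (hIW _ h3)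
      change W.valuation (algebraMap k F x⁻¹) < 1 at h4
      have h5 := (W.valuation_le_one_iff _).2 hx
      have h6 : W.valuation (algebraMap k F x * algebraMap k F x⁻¹) < 1 := by
        rw [map_mul]
        exact mul_lt_of_le h5 h4
      rw [← map_mul, mul_inv_cancel₀ hx0, map_one, map_one] at h6
      exact lt_irrefl _ h6
    · exact hAW ⟨C x, 1, by simp, by simp, by
        rw [eval_C, eval_one, map_one (algebraMap k F), map_one]
        exact (V.valuation_le_one_iff _).2 hx⟩
  have hta : ∀ c : k, algebraMap k F c * (t - algebraMap k F a) ∈ W := fun c =>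
    hAW ⟨C c * (X - C a), 1, by simp, by simp, by simp⟩
  -- the coarsening
  have hntW : ∃ x : k, algebraMap k F x ∉ W := by
    obtain ⟨x, hx0, hx1⟩ := hnt
    refine ⟨x⁻¹, fun h => ?_⟩
    rw [hbase, map_inv₀] at h
    exact (val_lt_iff V ((_root_.map_ne_zero _).2 hx0)).1 hx1 h
  have hkC : ∀ x : k, x ≠ 0 → (coarse k W).valuation (algebraMap k F x) = 1 := by
    intro x hx
    refine le_antisymm ((ValuationSubring.valuation_le_one_iff _ _).2 (base_coarse k W x)) ?_
    have h1 := (ValuationSubring.valuation_le_one_iff _ _).2 (base_coarse k W x⁻¹)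
    rw [map_inv₀, map_inv₀] at h1
    have h2 : (0 : (coarse k W).ValueGroup) < (coarse k W).valuation (algebraMap k F x) :=
      zero_lt_iff.2 ((_root_.map_ne_zero _).2 ((_root_.map_ne_zero _).2 hx))
    exact (inv_le_one₀ h2).1 h1
  have htaC : (coarse k W).valuation (t - algebraMap k F a) < 1 := by
    have h0 : t - algebraMap k F a ≠ 0 := by
      intro h
      exact ht (by rw [sub_eq_zero.1 h]; exact isAlgebraic_algebraMap a)
    rw [val_lt_iff _ h0]
    exact coarse_nonunit k W hntW h0 hta
  have htC : t ∈ coarse k W := by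
    have h1 := add_mem ((ValuationSubring.valuation_le_one_iff _ _).1 htaC.le)
      (base_coarse k W a)
    rwa [sub_add_cancel] at h1
  have haeC : ∀ f : k[X], aeval t f ∈ coarse k W := by
    intro f
    rw [aeval_eq_sum_range]
    refine sum_mem fun i _ => ?_
    rw [Algebra.smul_def]
    exact mul_mem (base_coarse k W _) (pow_mem htC _)
  have hfC : ∀ f : k[X], f.eval a ≠ 0 → (coarse k W).valuation (aeval t f) = 1 := by
    intro f hf
    obtain ⟨h, hh⟩ : (X - C a) ∣ f - C (f.eval a) := by
      rw [dvd_iff_isRoot]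
      simp
    have h1 : aeval t f = algebraMap k F (f.eval a) + (t - algebraMap k F a) * aeval t h := by
      have h2 := congrArg (aeval t) hh
      rw [map_sub, map_mul, map_sub, aeval_X, aeval_C, aeval_C] at h2
      rw [← h2]
      ring
    have h2 : (coarse k W).valuation ((t - algebraMap k F a) * aeval t h) < 1 := by
      rw [map_mul, mul_comm]
      exact mul_lt_of_le ((ValuationSubring.valuation_le_one_iff _ _).2 (haeC h)) htaC
    have h3 := hkC _ hf
    rw [h1, Valuation.map_add_eq_of_lt_left _ (by rw [h3]; exact h2), h3]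
  have hCfC : ∀ c ∈ Cf, c ≠ 0 → (coarse k W).valuation (algebraMap L F c) = 1 := by
    intro c hc h0
    have h1 : nu c ≠ 0 := by
      intro h
      have h2 := hnd c
      rw [h, map_zero, mul_eq_zero] at h2
      rcases h2 with h2 | h2
      · exact h0 (hLi (by rw [h2, map_zero]))
      · exact hde c ((transcendental_iff.1 ht) _ h2)
    have h2 := congrArg (coarse k W).valuation (hnd c)
    rwa [map_mul, hfC _ (ha0 _ (hdeP c hc)), hfC _ (ha0 _ (hnuP c hc h1)), mul_one] at h2
  refine ⟨a, W, hbase, hta, fun s hs hsV => ?_, fun s hs hsV => ?_, fun s hs hs0 => ?_⟩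
  · exact hS₁W s (Finset.mem_filter.2 ⟨Finset.mem_union_left _ hs, hsV⟩)
  · by_cases hs0 : s = 0
    · rw [hs0, map_zero]
      exact zero_lt_one
    have hsw := hwS s hs hsV
    have hw0 : w ≠ 0 := by
      rintro rfl
      rw [map_zero] at hsw
      exact (_root_.map_ne_zero V.valuation).2 hs0 (le_zero_iff.1 hsw)
    have hvw : (0 : V.ValueGroup) < V.valuation w := zero_lt_iff.2 ((_root_.map_ne_zero _).2 hw0)
    have h1 : s / w ∈ V := by
      rw [← V.valuation_le_one_iff, map_div₀]
      exact div_le_one_of_le₀ hsw zero_le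
    have h2 : s / w ∈ W := hS₁W _ (Finset.mem_filter.2 ⟨Finset.mem_union_right _
      (Finset.mem_image.2 ⟨s, Finset.mem_filter.2 ⟨hs, hsV⟩, rfl⟩), h1⟩)
    have h3 : s = s / w * w := (div_mul_cancel₀ s hw0).symm
    rw [h3, map_mul]
    exact mul_lt_of_le ((W.valuation_le_one_iff _).2 h2) hwW'
  · have hint : IsIntegral L s := Algebra.IsIntegral.isIntegral s
    have hc : ∀ i, algebraMap L F ((minpoly L s).coeff i) ∈ coarse k W := by
      intro i
      by_cases h0 : (minpoly L s).coeff i = 0
      · rw [h0, map_zero]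
        exact zero_mem _
      · exact (ValuationSubring.valuation_le_one_iff _ _).1 (hCfC _ (Finset.mem_biUnion.2
          ⟨s, Finset.mem_union_right _ hs, coeff_mem_coeffs h0⟩) h0).le
    have h00 : (minpoly L s).coeff 0 ≠ 0 := minpoly.coeff_zero_ne_zero hint hs0
    have hc0 := hCfC _ (Finset.mem_biUnion.2
      ⟨s, Finset.mem_union_right _ hs, coeff_mem_coeffs h00⟩) h00
    exact mp_unit (coarse k W) (minpoly.monic hint) (minpoly.aeval L s) hc hc0

end

end Pool.Agent.V7H77.RG
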