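import Pool.Agent.V7H77.RG.Step
import Pool.Agent.R187.CT.Base

/-!
# Density of good valuations among the extensions of a valuation
-/

set_option autoImplicit false

universe u

namespace Pool.Agent.V7H77.RG

open Polynomial IntermediateField IsLocalRing Pool.Agent.TH188.QS Pool.Agent.R187.CT
  Pool.Agent.W418.LU2

section

variable {K : Type u} [Field K]

/-- The composite. -/
def cp (ν : ValuationSubring K) (U : ValuationSubring (ResidueField ν)) : ValuationSubring K where
  carrier := {x | ∃ hx : x ∈ ν, residue ν ⟨x, hx⟩ ∈ U}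
  one_mem' := ⟨one_mem _, by
    have h : (⟨1, one_mem _⟩ : ν) = 1 := rfl
    rw [h, map_one]
    exact one_mem _⟩
  zero_mem' := ⟨zero_mem _, by
    have h : (⟨0, zero_mem _⟩ : ν) = 0 := rfl
    rw [h, map_zero]
    exact zero_mem _⟩
  neg_mem' := by
    rintro x ⟨hx, h⟩
    refine ⟨neg_mem hx, ?_⟩
    have h1 : (⟨-x, neg_mem hx⟩ : ν) = -⟨x, hx⟩ := rfl
    rw [h1, map_neg]
    exact neg_mem h
  mul_mem' := by
    rintro x y ⟨hx, h⟩ ⟨hy, h'⟩
    refine ⟨mul_mem hx hy, ?_⟩
    have h1 : (⟨x * y, mul_mem hx hy⟩ : ν) = ⟨x, hx⟩ * ⟨y, hy⟩ := rfl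
    rw [h1, map_mul]
    exact mul_mem h h'
  add_mem' := by
    rintro x y ⟨hx, h⟩ ⟨hy, h'⟩
    refine ⟨add_mem hx hy, ?_⟩
    have h1 : (⟨x + y, add_mem hx hy⟩ : ν) = ⟨x, hx⟩ + ⟨y, hy⟩ := rfl
    rw [h1, map_add]
    exact add_mem h h'
  mem_or_inv_mem' := by
    intro x
    by_cases hx0 : x = 0
    · left
      rw [hx0]
      refine ⟨zero_mem _, ?_⟩
      have h : (⟨0, zero_mem _⟩ : ν) = 0 := rfl
      rw [h, map_zero]
      exact zero_mem _
    by_cases hx : x ∈ ν
    · by_cases hxi : x⁻¹ ∈ ν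
      · have h1 : residue ν ⟨x, hx⟩ * residue ν ⟨x⁻¹, hxi⟩ = 1 := by
          rw [← map_mul]
          have h2 : (⟨x, hx⟩ * ⟨x⁻¹, hxi⟩ : ν) = 1 := Subtype.ext (mul_inv_cancel₀ hx0)
          rw [h2, map_one]
        rcases U.mem_or_inv_mem (residue ν ⟨x, hx⟩) with h | h
        · exact Or.inl ⟨hx, h⟩
        · refine Or.inr ⟨hxi, ?_⟩
          rwa [← eq_inv_of_mul_eq_one_right h1] at h
      · left
        refine ⟨hx, ?_⟩
        have h1 : residue ν ⟨x, hx⟩ = 0 := by
          rw [residue_eq_zero_iff, mem_maximalIdeal, mem_nonunits_iff, isUnit_iff_exists_inv]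
          rintro ⟨y, hy⟩
          apply hxi
          have h2 : x * (y : K) = 1 := congrArg Subtype.val hy
          rw [← eq_inv_of_mul_eq_one_right h2]
          exact y.2
        rw [h1]
        exact zero_mem _
    · right
      have hxi : x⁻¹ ∈ ν := (ν.mem_or_inv_mem x).resolve_left hx
      refine ⟨hxi, ?_⟩
      have h1 : residue ν ⟨x⁻¹, hxi⟩ = 0 := by
        rw [residue_eq_zero_iff, mem_maximalIdeal, mem_nonunits_iff, isUnit_iff_exists_inv]
        rintro ⟨y, hy⟩
        apply hx
        have h2 : x⁻¹ * (y : K) = 1 := congrArg Subtype.val hy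
        have h3 : (y : K) = x := by
          rw [← mul_one x, ← h2, mul_inv_cancel_left₀ hx0]
        rw [← h3]
        exact y.2
      rw [h1]
      exact zero_mem _

lemma cp_cmp (ν : ValuationSubring K) (U : ValuationSubring (ResidueField ν)) :
    Cmp (cp ν U) ν U := fun _ => Iff.rfl

lemma nu_inv {ν : ValuationSubring K} {x : K} (hx : x ∈ ν) (hx0 : x ≠ 0) :
    residue ν ⟨x, hx⟩ ≠ 0 ↔ x⁻¹ ∈ ν := by
  rw [Ne, residue_eq_zero_iff, mem_maximalIdeal, mem_nonunits_iff, not_not,
    isUnit_iff_exists_inv]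
  constructor
  · rintro ⟨y, hy⟩
    have h2 : x * (y : K) = 1 := congrArg Subtype.val hy
    rw [← eq_inv_of_mul_eq_one_right h2]
    exact y.2
  · intro h
    exact ⟨⟨x⁻¹, h⟩, Subtype.ext (mul_inv_cancel₀ hx0)⟩

lemma cmp_lt {W ν : ValuationSubring K} {U : ValuationSubring (ResidueField ν)} (h : Cmp W ν U)
    {x : K} (hx : x ∈ ν) : W.valuation x < 1 ↔ U.valuation (residue ν ⟨x, hx⟩) < 1 := by
  by_cases hx0 : x = 0
  · have h1 : (⟨x, hx⟩ : ν) = 0 := Subtype.ext hx0
    rw [h1, map_zero, hx0, map_zero, map_zero]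
    exact ⟨fun _ => zero_lt_one, fun _ => zero_lt_one⟩
  by_cases hr : residue ν ⟨x, hx⟩ = 0
  · rw [hr, map_zero, val_lt_iff W hx0]
    refine ⟨fun _ => zero_lt_one, fun _ hW => ?_⟩
    obtain ⟨h1, -⟩ := (h _).1 hW
    exact (nu_inv hx hx0).2 h1 hr
  · have hxi := (nu_inv hx hx0).1 hr
    rw [val_lt_iff W hx0, val_lt_iff U hr, h]
    have h1 : residue ν ⟨x, hx⟩ * residue ν ⟨x⁻¹, hxi⟩ = 1 := by
      rw [← map_mul]
      have h2 : (⟨x, hx⟩ * ⟨x⁻¹, hxi⟩ : ν) = 1 := Subtype.ext (mul_inv_cancel₀ hx0)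
      rw [h2, map_one]
    rw [← eq_inv_of_mul_eq_one_right h1]
    exact not_congr ⟨fun h => h.2, fun h => ⟨hxi, h⟩⟩

/-- The valuation ring of the residue field. -/
theorem exists_resid {W ν : ValuationSubring K} (hW : W ≤ ν) :
    ∃ U : ValuationSubring (ResidueField ν), Cmp W ν U := by
  have key : ∀ x : ν, residue ν x = 0 → (x : K) ∈ W := by
    intro x hx
    by_contra h
    have hx0 : (x : K) ≠ 0 := fun h0 => h (by rw [h0]; exact zero_mem _)
    have h1 : (x : K)⁻¹ ∈ ν := hW ((W.mem_or_inv_mem (x : K)).resolve_left h)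
    exact (nu_inv x.2 hx0).2 h1 hx
  let U : ValuationSubring (ResidueField ν) :=
    { carrier := {z | ∃ x : ν, (x : K) ∈ W ∧ residue ν x = z}
      one_mem' := ⟨1, one_mem _, map_one _⟩
      zero_mem' := ⟨0, zero_mem _, map_zero _⟩
      neg_mem' := by
        rintro _ ⟨x, hx, rfl⟩
        exact ⟨-x, neg_mem hx, map_neg _ _⟩
      mul_mem' := by
        rintro _ _ ⟨x, hx, rfl⟩ ⟨y, hy, rfl⟩
        exact ⟨x * y, mul_mem hx hy, map_mul _ _ _⟩
      add_mem' := by
        rintro _ _ ⟨x, hx, rfl⟩ ⟨y, hy, rfl⟩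
        exact ⟨x + y, add_mem hx hy, map_add _ _ _⟩
      mem_or_inv_mem' := by
        intro z
        obtain ⟨x, rfl⟩ := residue_surjective z
        rcases W.mem_or_inv_mem (x : K) with h | h
        · exact Or.inl ⟨x, h, rfl⟩
        · right
          by_cases hx0 : (x : K) = 0
          · refine ⟨0, zero_mem _, ?_⟩
            have h1 : x = 0 := Subtype.ext hx0
            rw [h1, map_zero, inv_zero]
          · refine ⟨⟨(x : K)⁻¹, hW h⟩, h, ?_⟩
            refine eq_inv_of_mul_eq_one_right ?_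
            rw [← map_mul]
            have h2 : (x * ⟨(x : K)⁻¹, hW h⟩ : ν) = 1 := Subtype.ext (mul_inv_cancel₀ hx0)
            rw [h2, map_one] }
  refine ⟨U, fun x => ⟨fun hx => ⟨hW hx, ⟨x, hW hx⟩, hx, rfl⟩, ?_⟩⟩
  rintro ⟨hx, y, hy, hxy⟩
  have h1 : residue ν (⟨x, hx⟩ - y) = 0 := by rw [map_sub, hxy, sub_self]
  have h2 := add_mem (key _ h1) hy
  have h3 : ((⟨x, hx⟩ - y : ν) : K) + (y : K) = x := by
    change x - (y : K) + (y : K) = x
    ring
  rwa [h3] at h2

end

section

variable {k K : Type u} [Field k] [Field K] [Algebra k K]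

lemma top_of_alg {L : Type u} [Field L] [Algebra L K] [Algebra.IsAlgebraic L K]
    (V : ValuationSubring K) (h : ∀ x : L, algebraMap L K x ∈ V) : V = ⊤ := by
  rw [eq_top_iff]
  intro x _
  obtain ⟨p, hp, hpx⟩ := (Algebra.IsAlgebraic.isAlgebraic (R := L) x).isIntegral
  have h2 : IsIntegral V x := by
    refine ⟨p.map ((algebraMap L K).codRestrict V.toSubring h), hp.map _, ?_⟩
    rw [eval₂_map]
    exact hpx
  exact (IsIntegrallyClosed.isIntegral_iff.1 h2).elim fun y hy => hy ▸ y.2

theorem triv_aux (V : ValuationSubring K) (h : ∀ x : k, algebraMap k K x ∈ V) (t : K)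
    (ht : Transcendental k t) [FiniteDimensional k⟮t⟯ K] (htV : t ∈ V) :
    V = ⊤ ∨ IsDiscreteValuationRing V := by
  by_cases hf : ∀ f : k[X], f ≠ 0 → (aeval t f)⁻¹ ∈ V
  · left
    refine top_of_alg (L := k⟮t⟯) V fun x => ?_
    obtain ⟨r, s, hrs⟩ := (mem_adjoin_simple_iff k (x : K)).1 x.2
    change (x : K) ∈ V
    have hr : aeval t r ∈ V := by
      rw [aeval_eq_sum_range]
      refine sum_mem fun i _ => ?_
      rw [Algebra.smul_def]
      exact mul_mem (h _) (pow_mem htV _)
    by_cases hs : s = 0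
    · rw [hrs, hs, map_zero, div_zero]
      exact zero_mem _
    · rw [hrs, div_eq_mul_inv]
      exact mul_mem hr (hf s hs)
  · right
    push Not at hf
    obtain ⟨f, hf0, hf⟩ := hf
    have hlc : f.leadingCoeff ≠ 0 := leadingCoeff_ne_zero.2 hf0
    refine (dvr_of_center t ht V h htV (f * C f.leadingCoeff⁻¹) (monic_mul_leadingCoeff_inv hf0)
      fun hV => hf ?_).1
    have h1 : (aeval t f)⁻¹ = (aeval t (f * C f.leadingCoeff⁻¹))⁻¹ *
        algebraMap k K f.leadingCoeff⁻¹ := by
      rw [map_mul, aeval_C, mul_inv]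
      have h2 : algebraMap k K f.leadingCoeff⁻¹ ≠ 0 :=
        (_root_.map_ne_zero _).2 (inv_ne_zero hlc)
      rw [mul_assoc, inv_mul_cancel₀ h2, mul_one]
    rw [h1]
    exact mul_mem hV (h _)

theorem triv_case (V : ValuationSubring K) (h : ∀ x : k, algebraMap k K x ∈ V) (t : K)
    (ht : Transcendental k t) (hfin : FiniteDimensional k⟮t⟯ K) :
    V = ⊤ ∨ IsDiscreteValuationRing V := by
  rcases V.mem_or_inv_mem t with htV | htV
  · exact triv_aux V h t ht htV
  · have h1 : k⟮t⁻¹⟯ = k⟮t⟯ := by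
      apply le_antisymm
      · rw [adjoin_simple_le_iff]
        exact inv_mem (mem_adjoin_simple_self k t)
      · rw [adjoin_simple_le_iff]
        have h2 := inv_mem (mem_adjoin_simple_self k t⁻¹)
        rwa [inv_inv] at h2
    have h2 : Transcendental k t⁻¹ := by
      intro h3
      have h4 := h3.inv
      rw [inv_inv] at h4
      exact ht h4
    have h3 : FiniteDimensional k⟮t⁻¹⟯ K := by rw [h1]; exact hfin
    exact triv_aux V h t⁻¹ h2 htV

end

section

variable {R E : Type u} [CommRing R] [Field E]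

/-- The extensions to finite extensions are good. -/
def UU (ρ : R →+* E) (V₀ : ValuationSubring E) : Prop :=
  ∀ (E' : Type u) [Field E'] [Algebra E E'] [FiniteDimensional E E'] (V' : ValuationSubring E'),
    V'.comap (algebraMap E E') = V₀ → Good ((algebraMap E E').comp ρ) V'

lemma UU.good {ρ : R →+* E} {V₀ : ValuationSubring E} (h : UU ρ V₀) : Good ρ V₀ := by
  have h1 := h E V₀ (by ext x; rfl)
  exact h1

/-- Valuations of finite extensions. -/
theorem UU.fin {ρ : R →+* E} {V₀ : ValuationSubring E} (h : UU ρ V₀) {K : Type u} [Field K]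
    [Algebra E K] [FiniteDimensional E K] {V : ValuationSubring K}
    (hV : V.comap (algebraMap E K) = V₀) : UU ((algebraMap E K).comp ρ) V := by
  intro K' _ _ _ V' hV'
  let _ : Algebra E K' := ((algebraMap K K').comp (algebraMap E K)).toAlgebra
  have htw : IsScalarTower E K K' := IsScalarTower.of_algebraMap_eq' rfl
  have hfin : FiniteDimensional E K' := FiniteDimensional.trans E K K'
  exact h K' V' (by
    rw [← hV, ← hV']
    rfl)

theorem uu_top (ρ : R →+* E) : UU ρ (⊤ : ValuationSubring E) := by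
  intro E' _ _ _ V' hV'
  have h1 : V' = ⊤ := top_of_alg (L := E) V' fun x => by
    have h2 : x ∈ V'.comap (algebraMap E E') := by
      rw [hV']
      trivial
    exact h2
  rw [h1]
  exact good_top _

/-- Extensions of discrete valuation rings. -/
theorem dvr_ext {K L : Type u} [Field K] [Field L] [Algebra K L] [FiniteDimensional K L]
    (V : ValuationSubring K) (hV : IsDiscreteValuationRing V) (W : ValuationSubring L)
    (hWV : W.comap (algebraMap K L) = V) (hVW : ∀ x : V, algebraMap K L x ∈ W.toSubring) :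
    IsDiscreteValuationRing W ∧
      ((residue W).comp (((algebraMap K L).comp V.subtype).codRestrict W.toSubring hVW)).Finite :=
      by
  let _ : Algebra V L := ((algebraMap K L).comp V.subtype).toAlgebra
  have htw : IsScalarTower V K L := IsScalarTower.of_algebraMap_eq' rfl
  let _ : Algebra V W :=
    (((algebraMap K L).comp V.subtype).codRestrict W.toSubring hVW).toAlgebra
  have htw' : IsScalarTower V W L := IsScalarTower.of_algebraMap_eq' rfl
  obtain ⟨hN, hfin⟩ := Pool.Agent.Y562.NN.ka V K L W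
  obtain ⟨c, hc⟩ := IsDiscreteValuationRing.exists_irreducible V
  have hcm : algebraMap V W c ∈ maximalIdeal W := by
    rw [mem_maximalIdeal, mem_nonunits_iff, isUnit_iff_exists_inv]
    rintro ⟨y, hy⟩
    apply hc.1
    have h1 : algebraMap K L c * (y : L) = 1 := congrArg Subtype.val hy
    have h2 : (c : K)⁻¹ ∈ V := hWV.le (by
      change algebraMap K L (c : K)⁻¹ ∈ W
      rw [map_inv₀, ← eq_inv_of_mul_eq_one_right h1]
      exact y.2)
    rw [isUnit_iff_exists_inv]
    exact ⟨⟨_, h2⟩, Subtype.ext (mul_inv_cancel₀ fun h => hc.ne_zero (Subtype.ext h))⟩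
  refine ⟨?_, ?_⟩
  · have hpid : IsPrincipalIdealRing W := IsPrincipalIdealRing.of_isNoetherianRing_of_isBezout
    refine { toIsPrincipalIdealRing := hpid, toIsLocalRing := inferInstance, not_a_field' := ?_ }
    intro h2
    rw [h2, Ideal.mem_bot] at hcm
    have h3 : algebraMap K L c = 0 := congrArg Subtype.val hcm
    rw [_root_.map_eq_zero] at h3
    exact hc.ne_zero (Subtype.ext h3)
  · exact hfin (maximalIdeal W) c hc.ne_zero hcm

theorem uu_dvr (hR : HJ R) (ρ : R →+* E) (V : ValuationSubring E)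
    (hV : IsDiscreteValuationRing V) : UU ρ V := by
  intro E' _ _ _ V' hV'
  refine good_dv hR _ V' (Or.inl (dvr_ext V hV V' hV' fun x => ?_).1)
  have h1 : (x : E) ∈ V'.comap (algebraMap E E') := by
    rw [hV']
    exact x.2
  exact h1

/-- The coarsening over a coarser valuation ring. -/
def crs {L : Type u} [Field L] [Algebra E L] (V₁ : ValuationSubring E) (W : ValuationSubring L) :
    ValuationSubring L where
  carrier := {x | ∃ c : E, c ≠ 0 ∧ c ∈ V₁ ∧ c⁻¹ ∈ V₁ ∧ algebraMap E L c * x ∈ W}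
  one_mem' := ⟨1, one_ne_zero, one_mem _, by rw [inv_one]; exact one_mem _, by
    rw [map_one, one_mul]; exact one_mem _⟩
  zero_mem' := ⟨1, one_ne_zero, one_mem _, by rw [inv_one]; exact one_mem _, by
    rw [mul_zero]; exact zero_mem _⟩
  neg_mem' := by
    rintro x ⟨c, hc, h1, h2, h⟩
    exact ⟨c, hc, h1, h2, by rw [mul_neg]; exact neg_mem h⟩
  mul_mem' := by
    rintro x y ⟨c, hc, h1, h2, h⟩ ⟨d, hd, h3, h4, h'⟩
    refine ⟨c * d, mul_ne_zero hc hd, mul_mem h1 h3, by rw [mul_inv]; exact mul_mem h2 h4, ?_⟩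
    have h5 : algebraMap E L (c * d) * (x * y) = (algebraMap E L c * x) *
        (algebraMap E L d * y) := by rw [map_mul]; ring
    rw [h5]
    exact mul_mem h h'
  add_mem' := by
    rintro x y ⟨c, hc, h1, h2, h⟩ ⟨d, hd, h3, h4, h'⟩
    have hc' : algebraMap E L c ≠ 0 := (_root_.map_ne_zero _).2 hc
    have hd' : algebraMap E L d ≠ 0 := (_root_.map_ne_zero _).2 hd
    rcases W.mem_or_inv_mem (algebraMap E L c / algebraMap E L d) with h0 | h0
    · refine ⟨c, hc, h1, h2, ?_⟩
      have h3 : algebraMap E L c * (x + y) = algebraMap E L c * x +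
          algebraMap E L c / algebraMap E L d * (algebraMap E L d * y) := by field_simp
      rw [h3]
      exact add_mem h (mul_mem h0 h')
    · refine ⟨d, hd, h3, h4, ?_⟩
      have h3 : algebraMap E L d * (x + y) = (algebraMap E L c / algebraMap E L d)⁻¹ *
          (algebraMap E L c * x) + algebraMap E L d * y := by field_simp
      rw [h3]
      exact add_mem (mul_mem h0 h) h'
  mem_or_inv_mem' := by
    intro x
    rcases W.mem_or_inv_mem x with h | h
    · exact Or.inl ⟨1, one_ne_zero, one_mem _, by rw [inv_one]; exact one_mem _, by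
        rw [map_one, one_mul]; exact h⟩
    · exact Or.inr ⟨1, one_ne_zero, one_mem _, by rw [inv_one]; exact one_mem _, by
        rw [map_one, one_mul]; exact h⟩

/-- Composites with discrete valuation rings. -/
theorem uu_comp (hR : HJ R) (ρ : R →+* E) {V V₁ : ValuationSubring E}
    {U : ValuationSubring (ResidueField V₁)} (hρ : ∀ a, ρ a ∈ V₁.toSubring) (hc : Cmp V V₁ U)
    (h₁ : IsDiscreteValuationRing V₁)
    (hU : UU ((residue V₁).comp (ρ.codRestrict V₁.toSubring hρ)) U) : UU ρ V := by
  intro L _ _ _ W hW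
  have hVV : V ≤ V₁ := fun z hz => ((hc z).1 hz).1
  have hWV : ∀ x : E, algebraMap E L x ∈ W ↔ x ∈ V := by
    intro x
    rw [← hW]
    rfl
  let W₁ := crs V₁ W
  have hWW : W ≤ W₁ := fun x hx => ⟨1, one_ne_zero, one_mem _, by rw [inv_one]; exact one_mem _,
    by rw [map_one, one_mul]; exact hx⟩
  have hW₁ : W₁.comap (algebraMap E L) = V₁ := by
    ext x
    constructor
    · rintro ⟨c, hc0, h1, h2, h⟩
      rw [← map_mul, hWV] at h
      have h3 := mul_mem h2 (hVV h)
      rwa [inv_mul_cancel_left₀ hc0] at h3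
    · intro hx
      by_cases hx0 : x = 0
      · rw [hx0]
        exact zero_mem _
      by_cases hr : residue V₁ ⟨x, hx⟩ = 0
      · refine hWW ((hWV x).2 ((hc x).2 ⟨hx, ?_⟩))
        rw [hr]
        exact zero_mem _
      · have hxi := (nu_inv hx hx0).1 hr
        refine ⟨x⁻¹, inv_ne_zero hx0, hxi, by rw [inv_inv]; exact hx, ?_⟩
        rw [← map_mul, inv_mul_cancel₀ hx0, map_one]
        exact one_mem _
  have hVW : ∀ x : V₁, algebraMap E L x ∈ W₁.toSubring := by
    intro x
    have h1 : (x : E) ∈ W₁.comap (algebraMap E L) := by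
      rw [hW₁]
      exact x.2
    exact h1
  obtain ⟨hdvr, hfin⟩ := dvr_ext V₁ h₁ W₁ hW₁ hVW
  obtain ⟨U', hU'⟩ := exists_resid hWW
  let φ : V₁ →+* W₁ := ((algebraMap E L).comp V₁.subtype).codRestrict W₁.toSubring hVW
  have hφ : IsLocalHom φ := by
    refine ⟨fun x hx => ?_⟩
    obtain ⟨y, hy⟩ := isUnit_iff_exists_inv.1 hx
    have h1 : algebraMap E L x * (y : L) = 1 := congrArg Subtype.val hy
    have hx0 : (x : E) ≠ 0 := by
      intro h
      rw [h, map_zero, zero_mul] at h1
      exact zero_ne_one h1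
    have h2 : (x : E)⁻¹ ∈ V₁ := hW₁.le (by
      change algebraMap E L (x : E)⁻¹ ∈ W₁
      rw [map_inv₀, ← eq_inv_of_mul_eq_one_right h1]
      exact y.2)
    exact isUnit_iff_exists_inv.2 ⟨⟨_, h2⟩, Subtype.ext (mul_inv_cancel₀ hx0)⟩
  let _ : Algebra (ResidueField V₁) (ResidueField W₁) := (ResidueField.map φ).toAlgebra
  have hfd : FiniteDimensional (ResidueField V₁) (ResidueField W₁) := by
    have h1 : ((ResidueField.map φ).comp (residue V₁)).Finite := by
      rw [ResidueField.map_comp_residue]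
      exact hfin
    exact h1.of_comp_finite
  have hUE : U'.comap (algebraMap (ResidueField V₁) (ResidueField W₁)) = U := by
    ext z
    obtain ⟨x, rfl⟩ := residue_surjective z
    change residue W₁ (φ x) ∈ U' ↔ _
    have h1 : (x : E) ∈ V ↔ residue V₁ x ∈ U := by
      rw [hc]
      exact ⟨fun h => h.2, fun h => ⟨x.2, h⟩⟩
    rw [← h1, ← hWV, hU']
    exact ⟨fun h => ⟨hVW x, h⟩, fun h => h.2⟩
  have h2 := hU (ResidueField W₁) U' hUE
  exact good_comp hR ((algebraMap E L).comp ρ) (fun a => hVW ⟨ρ a, hρ a⟩) hU'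
    (good_dv hR _ W₁ (Or.inl hdvr)) h2

/-- Good valuations are dense among the extensions. -/
theorem dense (hR : HJ R) (ρ : R →+* E) (V₀ : ValuationSubring E) (hU : UU ρ V₀) (n : ℕ) :
    ∀ (K : Type u) [Field K] [Algebra E K] (T : Finset K), T.card ≤ n →
    FiniteDimensional (IntermediateField.adjoin E (T : Set K)) K →
    ∀ (V : ValuationSubring K), V.comap (algebraMap E K) = V₀ → ∀ S : Finset K,
    ∃ W : ValuationSubring K, W.comap (algebraMap E K) = V₀ ∧
      UU ((algebraMap E K).comp ρ) W ∧ (∀ s ∈ S, s ∈ V → s ∈ W) ∧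
      (∀ s ∈ S, V.valuation s < 1 → W.valuation s < 1) := by
  classical
  induction n with
  | zero =>
    intro K _ _ T hT hfin V hV S
    have hT0 : T = ∅ := Finset.card_eq_zero.1 (Nat.le_zero.1 hT)
    have h1 : FiniteDimensional E K := by
      rw [hT0, Finset.coe_empty, adjoin_empty] at hfin
      have h2 : FiniteDimensional E (⊥ : IntermediateField E K) := inferInstance
      exact FiniteDimensional.trans E (⊥ : IntermediateField E K) K
    exact ⟨V, hV, hU.fin hV, fun _ _ h => h, fun _ _ h => h⟩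
  | succ n ih =>
    intro K _ _ T hT hfin V hV S
    rcases T.eq_empty_or_nonempty with rfl | ⟨t, htT⟩
    · exact ih K ∅ (by simp) hfin V hV S
    let T' := T.erase t
    have hT' : T'.card ≤ n := by
      rw [Finset.card_erase_of_mem htT]
      omega
    let k : IntermediateField E K := IntermediateField.adjoin E (T' : Set K)
    have hkt : FiniteDimensional k⟮t⟯ K := by
      have h1 : (k⟮t⟯).restrictScalars E = IntermediateField.adjoin E (T : Set K) := by
        rw [adjoin_adjoin_left]
        congr 1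
        rw [← Finset.insert_erase htT, Finset.coe_insert, Set.union_comm]
        rfl
      have h2 : FiniteDimensional ((k⟮t⟯).restrictScalars E) K := by
        rw [h1]
        exact hfin
      exact h2
    by_cases hta : IsAlgebraic k t
    · have h1 : FiniteDimensional k k⟮t⟯ := adjoin.finiteDimensional hta.isIntegral
      have h2 : FiniteDimensional k K := FiniteDimensional.trans k k⟮t⟯ K
      exact ih K T' hT' h2 V hV S
    by_cases htriv : ∀ x : k, algebraMap k K x ∈ V
    · refine ⟨V, hV, ?_, fun _ _ h => h, fun _ _ h => h⟩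
      rcases triv_case V htriv t hta hkt with h | h
      · rw [h]
        exact uu_top _
      · exact uu_dvr hR _ V h
    push Not at htriv
    obtain ⟨x₀, hx₀⟩ := htriv
    have hx₀0 : x₀ ≠ 0 := by
      rintro rfl
      exact hx₀ (by rw [map_zero]; exact zero_mem _)
    obtain ⟨W₁, ν, hk, hle, hb, hdvr, hfinψ, hS1, hS2⟩ := step V
      ⟨x₀⁻¹, inv_ne_zero hx₀0, by
        rw [val_lt_iff V ((_root_.map_ne_zero _).2 (inv_ne_zero hx₀0)), map_inv₀, inv_inv]
        exact hx₀⟩ t hta S
    let κ := ResidueField ν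
    let ψ : k →+* κ := (residue ν).comp ((algebraMap k K).codRestrict ν.toSubring hk)
    let _ : Algebra k κ := ψ.toAlgebra
    let _ : Algebra E κ := (ψ.comp (algebraMap E k)).toAlgebra
    have htw : IsScalarTower E k κ := IsScalarTower.of_algebraMap_eq' rfl
    have hkκ : FiniteDimensional k κ := hfinψ
    have hEν : ∀ x : E, algebraMap E K x ∈ ν := fun x => hk (algebraMap E k x)
    have hψE : ∀ x : E, algebraMap E κ x = residue ν ⟨algebraMap E K x, hEν x⟩ := fun x => rfl
    let res : K → κ := fun x => if h : x ∈ ν then residue ν ⟨x, h⟩ else 0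
    have hres : ∀ (x : K) (h : x ∈ ν), res x = residue ν ⟨x, h⟩ := by
      intro x h
      simp only [res, dif_pos h]
    -- the residue field is finite over the field generated by the residues
    let A : IntermediateField E κ := IntermediateField.adjoin E ((T'.image res : Finset κ) : Set κ)
    have hψA : ∀ x : k, ψ x ∈ A := by
      rintro ⟨x, hx⟩
      induction hx using IntermediateField.adjoin_induction with
      | mem x hx =>
        have h1 : ψ ⟨x, IntermediateField.subset_adjoin E _ hx⟩ = res x :=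
          (hres x (hk ⟨x, IntermediateField.subset_adjoin E _ hx⟩)).symm
        rw [h1]
        exact IntermediateField.subset_adjoin E _
          (Finset.mem_coe.2 (Finset.mem_image_of_mem _ (Finset.mem_coe.1 hx)))
      | algebraMap x => exact A.algebraMap_mem x
      | add x y hx hy h1 h2 =>
        have h3 := A.add_mem h1 h2
        rw [← map_add] at h3
        exact h3
      | inv x hx h1 =>
        have h3 := A.inv_mem h1
        rw [← map_inv₀] at h3
        exact h3
      | mul x y hx hy h1 h2 =>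
        have h3 := A.mul_mem h1 h2
        rw [← map_mul] at h3
        exact h3
    have hAκ : FiniteDimensional A κ := by
      let _ : Algebra k A := (ψ.codRestrict A.toSubring hψA).toAlgebra
      have htw' : IsScalarTower k A κ := IsScalarTower.of_algebraMap_eq' rfl
      exact Module.Finite.of_restrictScalars_finite k A κ
    obtain ⟨U, hU₁⟩ := exists_resid hle
    have hUE : U.comap (algebraMap E κ) = V₀ := by
      ext x
      rw [← hV]
      change algebraMap E κ x ∈ U ↔ algebraMap E K x ∈ V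
      rw [hψE]
      have h1 : algebraMap E K x ∈ W₁ ↔ algebraMap E K x ∈ V := hb (algebraMap E k x)
      rw [← h1, hU₁]
      exact ⟨fun h => ⟨hEν x, h⟩, fun h => h.2⟩
    obtain ⟨U', hU'E, hU'g, hU'1, hU'2⟩ := ih κ (T'.image res)
      (Finset.card_image_le.trans hT') hAκ U hUE (S.image res)
    refine ⟨cp ν U', ?_, ?_, fun s hs hsV => ?_, fun s hs hsV => ?_⟩
    · ext x
      rw [← hU'E]
      change algebraMap E K x ∈ cp ν U' ↔ algebraMap E κ x ∈ U'
      rw [hψE]
      exact ⟨fun h => h.2, fun h => ⟨hEν x, h⟩⟩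
    · exact uu_comp hR ((algebraMap E K).comp ρ) (fun a => hEν (ρ a)) (cp_cmp ν U') hdvr hU'g
    · have h1 : s ∈ W₁ := hS1 s hs hsV
      obtain ⟨h2, h3⟩ := (hU₁ s).1 h1
      refine ⟨h2, ?_⟩
      rw [← hres s h2] at h3 ⊢
      exact hU'1 _ (Finset.mem_image_of_mem _ hs) h3
    · have h1 : W₁.valuation s < 1 := hS2 s hs hsV
      have h2 : s ∈ ν := hle ((W₁.valuation_le_one_iff _).1 h1.le)
      have h3 := (cmp_lt hU₁ h2).1 h1
      rw [← hres s h2] at h3
      have h4 := hU'2 _ (Finset.mem_image_of_mem _ hs) h3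
      rw [hres s h2] at h4
      exact (cmp_lt (cp_cmp ν U') h2).2 h4

end

end Pool.Agent.V7H77.RG
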