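import Pool.Agent.V7H77.RG.Step2
import Pool.Agent.V7H77.RG.Dens

/-!
# Density of good valuations among the extensions of a valuation, with control of the residues
-/

set_option autoImplicit false

universe u

namespace Pool.Agent.V7H77.RG

open Polynomial IntermediateField IsLocalRing Pool.Agent.TH188.QS Pool.Agent.R187.CT
  Pool.Agent.W418.LU2

section

variable {R E : Type u} [CommRing R] [Field E]

/-- Good valuations are dense among the extensions. -/
theorem dense2 (hR : HJ R) (ρ : R →+* E) (V₀ : ValuationSubring E) (hne : V₀ ≠ ⊤) (hU : UU ρ V₀)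
    (n : ℕ) :
    ∀ (K : Type u) [Field K] [Algebra E K] (T : Finset K), T.card ≤ n →
    FiniteDimensional (IntermediateField.adjoin E (T : Set K)) K →
    ∀ (V : ValuationSubring K), V.comap (algebraMap E K) = V₀ → ∀ S : Finset K,
    ∃ W : ValuationSubring K, W.comap (algebraMap E K) = V₀ ∧
      UU ((algebraMap E K).comp ρ) W ∧ (∀ s ∈ S, s ∈ V → s ∈ W) ∧
      (∀ s ∈ S, V.valuation s < 1 → W.valuation s < 1) ∧
      (∀ x ∈ coarse E W, ∃ P : E[X], P ≠ 0 ∧ ∀ c : E, algebraMap E K c * aeval x P ∈ W) ∧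
      (∀ s ∈ S, s ≠ 0 → s ∈ coarse E W ∧ s⁻¹ ∈ coarse E W) := by
  classical
  induction n with
  | zero =>
    intro K _ _ T hT hfin V hV S
    have hT0 : T = ∅ := Finset.card_eq_zero.1 (Nat.le_zero.1 hT)
    have h1 : FiniteDimensional E K := by
      rw [hT0, Finset.coe_empty, adjoin_empty] at hfin
      have h2 : FiniteDimensional E (⊥ : IntermediateField E K) := inferInstance
      exact FiniteDimensional.trans E (⊥ : IntermediateField E K) K
    have htop : coarse E V = ⊤ := top_of_alg (L := E) (coarse E V) (base_coarse E V)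
    refine ⟨V, hV, hU.fin hV, fun _ _ h => h, fun _ _ h => h, fun x _ => ⟨minpoly E x,
      minpoly.ne_zero (Algebra.IsIntegral.isIntegral x), fun c => ?_⟩, fun s _ _ => ?_⟩
    · rw [minpoly.aeval, mul_zero]
      exact zero_mem _
    · rw [htop]
      exact ⟨trivial, trivial⟩
  | succ n ih =>
    intro K _ _ T hT hfin V hV S
    rcases T.eq_empty_or_nonempty with rfl | ⟨t, htT⟩
    · exact ih K ∅ (by simp) hfin V hV S
    let T' := T.erase t
    have hT' : T'.card ≤ n := by
      rw [Finset.card_erase_of_mem htT]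
      omega
    let k : IntermediateField E K := IntermediateField.adjoin E (T' : Set K)
    have hkt : FiniteDimensional k⟮t⟯ K := by
      have h1 : (k⟮t⟯).restrictScalars E = IntermediateField.adjoin E (T : Set K) := by
        rw [adjoin_adjoin_left]
        congr 1
        rw [← Finset.insert_erase htT, Finset.coe_insert, Set.union_comm]
        rfl
      have h2 : FiniteDimensional ((k⟮t⟯).restrictScalars E) K := by
        rw [h1]
        exact hfin
      exact h2
    by_cases hta : IsAlgebraic k t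
    · have h1 : FiniteDimensional k k⟮t⟯ := adjoin.finiteDimensional hta.isIntegral
      have h2 : FiniteDimensional k K := FiniteDimensional.trans k k⟮t⟯ K
      exact ih K T' hT' h2 V hV S
    by_cases htriv : ∀ x : k, algebraMap k K x ∈ V
    · exfalso
      apply hne
      rw [← hV, eq_top_iff]
      intro x _
      exact htriv (algebraMap E k x)
    push Not at htriv
    obtain ⟨x₀, hx₀⟩ := htriv
    have hx₀0 : x₀ ≠ 0 := by
      rintro rfl
      exact hx₀ (by rw [map_zero]; exact zero_mem _)
    obtain ⟨W₁, ν, hk, hle, hb, hdvr, hfinψ, hS1, hS2, hS3⟩ := step2 V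
      ⟨x₀⁻¹, inv_ne_zero hx₀0, by
        rw [val_lt_iff V ((_root_.map_ne_zero _).2 (inv_ne_zero hx₀0)), map_inv₀, inv_inv]
        exact hx₀⟩ t hta S
    let κ := ResidueField ν
    let ψ : k →+* κ := (residue ν).comp ((algebraMap k K).codRestrict ν.toSubring hk)
    let _ : Algebra k κ := ψ.toAlgebra
    let _ : Algebra E κ := (ψ.comp (algebraMap E k)).toAlgebra
    have htw : IsScalarTower E k κ := IsScalarTower.of_algebraMap_eq' rfl
    have hkκ : FiniteDimensional k κ := hfinψ
    have hEν : ∀ x : E, algebraMap E K x ∈ ν := fun x => hk (algebraMap E k x)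
    have hψE : ∀ x : E, algebraMap E κ x = residue ν ⟨algebraMap E K x, hEν x⟩ := fun x => rfl
    let res : K → κ := fun x => if h : x ∈ ν then residue ν ⟨x, h⟩ else 0
    have hres : ∀ (x : K) (h : x ∈ ν), res x = residue ν ⟨x, h⟩ := by
      intro x h
      simp only [res, dif_pos h]
    -- the residue field is finite over the field generated by the residues
    let A : IntermediateField E κ := IntermediateField.adjoin E ((T'.image res : Finset κ) : Set κ)
    have hψA : ∀ x : k, ψ x ∈ A := by
      rintro ⟨x, hx⟩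
      induction hx using IntermediateField.adjoin_induction with
      | mem x hx =>
        have h1 : ψ ⟨x, IntermediateField.subset_adjoin E _ hx⟩ = res x :=
          (hres x (hk ⟨x, IntermediateField.subset_adjoin E _ hx⟩)).symm
        rw [h1]
        exact IntermediateField.subset_adjoin E _
          (Finset.mem_coe.2 (Finset.mem_image_of_mem _ (Finset.mem_coe.1 hx)))
      | algebraMap x => exact A.algebraMap_mem x
      | add x y hx hy h1 h2 =>
        have h3 := A.add_mem h1 h2
        rw [← map_add] at h3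
        exact h3
      | inv x hx h1 =>
        have h3 := A.inv_mem h1
        rw [← map_inv₀] at h3
        exact h3
      | mul x y hx hy h1 h2 =>
        have h3 := A.mul_mem h1 h2
        rw [← map_mul] at h3
        exact h3
    have hAκ : FiniteDimensional A κ := by
      let _ : Algebra k A := (ψ.codRestrict A.toSubring hψA).toAlgebra
      have htw' : IsScalarTower k A κ := IsScalarTower.of_algebraMap_eq' rfl
      exact Module.Finite.of_restrictScalars_finite k A κ
    obtain ⟨U, hU₁⟩ := exists_resid hle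
    have hUE : U.comap (algebraMap E κ) = V₀ := by
      ext x
      rw [← hV]
      change algebraMap E κ x ∈ U ↔ algebraMap E K x ∈ V
      rw [hψE]
      have h1 : algebraMap E K x ∈ W₁ ↔ algebraMap E K x ∈ V := hb (algebraMap E k x)
      rw [← h1, hU₁]
      exact ⟨fun h => ⟨hEν x, h⟩, fun h => h.2⟩
    obtain ⟨U', hU'E, hU'g, hU'1, hU'2, hPA, hUN⟩ := ih κ (T'.image res)
      (Finset.card_image_le.trans hT') hAκ U hUE (S.image res)
    have hlift : ∀ (x : K) (hx : x ∈ ν), residue ν ⟨x, hx⟩ ∈ coarse E U' →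
        x ∈ coarse E (cp ν U') := by
      rintro x hx ⟨c, hc, h⟩
      refine ⟨c, hc, mul_mem (hEν c) hx, ?_⟩
      have h1 : (⟨algebraMap E K c * x, mul_mem (hEν c) hx⟩ : ν) =
          ⟨algebraMap E K c, hEν c⟩ * ⟨x, hx⟩ := rfl
      rw [h1, map_mul, ← hψE]
      exact h
    refine ⟨cp ν U', ?_, ?_, fun s hs hsV => ?_, fun s hs hsV => ?_, ?_, fun s hs hs0 => ?_⟩
    · ext x
      rw [← hU'E]
      change algebraMap E K x ∈ cp ν U' ↔ algebraMap E κ x ∈ U'
      rw [hψE]
      exact ⟨fun h => h.2, fun h => ⟨hEν x, h⟩⟩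
    · exact uu_comp hR ((algebraMap E K).comp ρ) (fun a => hEν (ρ a)) (cp_cmp ν U') hdvr hU'g
    · have h1 : s ∈ W₁ := hS1 s hs hsV
      obtain ⟨h2, h3⟩ := (hU₁ s).1 h1
      refine ⟨h2, ?_⟩
      rw [← hres s h2] at h3 ⊢
      exact hU'1 _ (Finset.mem_image_of_mem _ hs) h3
    · have h1 : W₁.valuation s < 1 := hS2 s hs hsV
      have h2 : s ∈ ν := hle ((W₁.valuation_le_one_iff _).1 h1.le)
      have h3 := (cmp_lt hU₁ h2).1 h1
      rw [← hres s h2] at h3
      have h4 := hU'2 _ (Finset.mem_image_of_mem _ hs) h3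
      rw [hres s h2] at h4
      exact (cmp_lt (cp_cmp ν U') h2).2 h4
    · rintro x ⟨c, hc, hcx, h⟩
      have hx : x ∈ ν := by
        have h1 := mul_mem (hEν c⁻¹) hcx
        rwa [map_inv₀, inv_mul_cancel_left₀ ((_root_.map_ne_zero _).2 hc)] at h1
      have h1 : residue ν ⟨x, hx⟩ ∈ coarse E U' := by
        refine ⟨c, hc, ?_⟩
        rw [hψE, ← map_mul]
        exact h
      obtain ⟨P, hP, hPc⟩ := hPA _ h1
      let e : E →+* ν := (algebraMap E K).codRestrict ν.toSubring hEν
      have h2 : ((eval₂ e ⟨x, hx⟩ P : ν) : K) = aeval x P := by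
        change ν.subtype _ = _
        rw [hom_eval₂]
        rfl
      have h3 : residue ν (eval₂ e ⟨x, hx⟩ P) = aeval (residue ν ⟨x, hx⟩) P := by
        rw [hom_eval₂]
        rfl
      refine ⟨P, hP, fun d => ?_⟩
      rw [← h2]
      refine ⟨mul_mem (hEν d) (eval₂ e ⟨x, hx⟩ P).2, ?_⟩
      have h4 : (⟨algebraMap E K d * ((eval₂ e ⟨x, hx⟩ P : ν) : K),
          mul_mem (hEν d) (eval₂ e ⟨x, hx⟩ P).2⟩ : ν) =
          ⟨algebraMap E K d, hEν d⟩ * eval₂ e ⟨x, hx⟩ P := rfl
      rw [h4, map_mul, h3, ← hψE]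
      exact hPc d
    · have h1 : ν.valuation s = 1 := hS3 s hs hs0
      have h2 : s ∈ ν := (ν.valuation_le_one_iff _).1 h1.le
      have h3 : s⁻¹ ∈ ν := (ν.valuation_le_one_iff _).1 (by rw [map_inv₀, h1, inv_one])
      have h4 : residue ν ⟨s, h2⟩ ≠ 0 := (nu_inv h2 hs0).2 h3
      obtain ⟨h5, h6⟩ := hUN (res s) (Finset.mem_image_of_mem _ hs) (by rw [hres s h2]; exact h4)
      rw [hres s h2] at h5 h6
      refine ⟨hlift s h2 h5, hlift _ h3 ?_⟩
      have h7 : residue ν ⟨s, h2⟩ * residue ν ⟨s⁻¹, h3⟩ = 1 := by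
        rw [← map_mul]
        have h8 : (⟨s, h2⟩ * ⟨s⁻¹, h3⟩ : ν) = 1 := Subtype.ext (mul_inv_cancel₀ hs0)
        rw [h8, map_one]
      rw [eq_inv_of_mul_eq_one_right h7]
      exact h6

end

end Pool.Agent.V7H77.RG
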