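import Pool.Agent.V7H77.RG.Meagre

/-!
# Discrete valuations of finite rank are universally uniformizable
-/

set_option autoImplicit false

universe u

namespace Pool.Agent.V7H77.RG

open IsLocalRing Pool.Agent.TH188.QS Pool.Agent.W418.LU2
open Pool.Agent.R187.CT (good_given)

/-- If the valuation ring does not contain the base ring there is nothing to prove. -/
theorem uu_of_not {R E : Type u} [CommRing R] (hR : HJ R) [Field E] (ρ : R →+* E)
    (V : ValuationSubring E) (h : ¬ ∀ a, ρ a ∈ V) : UU ρ V := by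
  intro E' _ _ _ V' hV'
  refine ⟨∅, Set.finite_empty, fun T hT hTV _ => absurd (fun a => ?_) h⟩
  have h1 : algebraMap E E' (ρ a) ∈ V' := hTV (Subring.subset_closure (Or.inl ⟨a, rfl⟩))
  have h2 : ρ a ∈ V'.comap (algebraMap E E') := h1
  rwa [hV'] at h2

theorem uu_disc {R : Type u} [CommRing R] (hR : HJ R) (n : ℕ) : ∀ {E : Type u} [Field E]
    (ρ : R →+* E) (V : ValuationSubring E), DR n V → UU ρ V := by
  induction n with
  | zero =>
    intro E _ ρ V hV
    have h1 : V = ⊤ := hV
    rw [h1]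
    exact uu_top ρ
  | succ n ih =>
    intro E _ ρ V hV
    by_cases hρ : ∀ a, ρ a ∈ V
    · obtain ⟨V₁, W, h1, h2, h3⟩ := hV
      exact uu_comp hR ρ (fun a => ((h3 _).1 (hρ a)).1) h3 h1 (ih _ W h2)
    · exact uu_of_not hR ρ V hρ

end Pool.Agent.V7H77.RG
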