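import Pool.Agent.V7H77.RG.Dens
import Pool.Agent.V7H82.ZR.Main

/-!
# Generic extensions of a valuation
-/

set_option autoImplicit false

universe u

namespace Pool.Agent.V7H77.RG

open IsLocalRing Pool.Agent.TH188.QS Pool.Agent.R187.CT Pool.Agent.W418.LU2
  Pool.Agent.V7H82.ZR

/-- The extensions of `V₀` to `K`. -/
def Ex {E : Type u} [Field E] (V₀ : ValuationSubring E) (K : Type u) [Field K] [Algebra E K] :
    Type u :=
  {V : ValuationSubring K // V.comap (algebraMap E K) = V₀}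

/-- `x` is in the valuation ring. -/
def exm {E : Type u} [Field E] {V₀ : ValuationSubring E} {K : Type u} [Field K] [Algebra E K]
    (V : Ex V₀ K) (x : K) : Prop :=
  x ∈ V.1

section

variable {E : Type u} [Field E] {V₀ : ValuationSubring E} {K : Type u} [Field K] [Algebra E K]

theorem ex_nonempty : Nonempty (Ex V₀ K) := by
  obtain ⟨W, hW⟩ := exists_ext (algebraMap E K) V₀
  exact ⟨⟨W, hW⟩⟩

theorem ex_t2 : @T2Space (Ex V₀ K) (pt exm) := by
  refine pt_t2 fun V W h => ?_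
  apply Subtype.ext
  ext x
  exact h x

/-- The limit of an ultrafilter. -/
theorem ex_compact : @CompactSpace (Ex V₀ K) (pt exm) := by
  classical
  refine pt_compact fun F => ?_
  have hall : ∀ {P : Ex V₀ K → Prop}, (∀ V, P V) → {V | P V} ∈ F := fun h =>
    Filter.univ_mem' h
  let W : ValuationSubring K :=
    { carrier := {x | {V : Ex V₀ K | exm V x} ∈ F}
      mul_mem' := fun {a b} ha hb => by
        have h1 := Filter.inter_mem ha hb
        refine Filter.mem_of_superset h1 ?_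
        rintro V ⟨h2, h3⟩
        exact V.1.mul_mem _ _ h2 h3
      one_mem' := hall fun V => V.1.one_mem
      add_mem' := fun {a b} ha hb => by
        have h1 := Filter.inter_mem ha hb
        refine Filter.mem_of_superset h1 ?_
        rintro V ⟨h2, h3⟩
        exact V.1.add_mem _ _ h2 h3
      zero_mem' := hall fun V => V.1.zero_mem
      neg_mem' := fun {a} ha => by
        refine Filter.mem_of_superset ha ?_
        intro V h2
        exact V.1.neg_mem _ h2
      mem_or_inv_mem' := fun x => by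
        have h1 : {V : Ex V₀ K | exm V x} ∪ {V : Ex V₀ K | exm V x⁻¹} ∈ F :=
          hall fun V => V.1.mem_or_inv_mem x
        exact (Ultrafilter.union_mem_iff).1 h1 }
  have hW : ∀ x, x ∈ W ↔ {V : Ex V₀ K | exm V x} ∈ F := fun x => Iff.rfl
  have hVE : ∀ (V : Ex V₀ K) (x : E), exm V (algebraMap E K x) ↔ x ∈ V₀ := by
    intro V x
    conv_rhs => rw [← V.2]
    rfl
  refine ⟨⟨W, ?_⟩, fun x => Iff.rfl⟩
  ext x
  change {V : Ex V₀ K | exm V (algebraMap E K x)} ∈ F ↔ _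
  constructor
  · intro h
    obtain ⟨V, hV⟩ := Ultrafilter.nonempty_of_mem h
    exact (hVE V x).1 hV
  · intro h
    exact hall fun V => (hVE V x).2 h

end

section

variable {R : Type u} [CommRing R] {K : Type u} [Field K] {ρ : R →+* K} {T : Set K}
  {B : Subring K}

/-- Near a valuation ring `W` with the property `GP` all valuation rings have solutions of the
problem `(D, I₀)`. -/
theorem near_gp (hR : HJ R) (h : Ess ρ T B) {W : ValuationSubring K} (hBW : B ≤ W.toSubring)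
    (hW : GP W (Subring.closure ((ρ.range : Set K) ∪ T))) {D I₀ : Ideal B} (hD : D ≠ ⊥) (hI : I₀ ≠ ⊥) :
    ∃ X N : Set K, X.Finite ∧ N.Finite ∧ (∀ z ∈ X, z ∈ W) ∧ (∀ z ∈ N, z ∉ W) ∧
      ∀ V : ValuationSubring K, B ≤ V.toSubring → (∀ z ∈ X, z ∈ V) → (∀ z ∈ N, z ∉ V) →
        ∃ I₁ : Ideal B, I₁ ≠ ⊥ ∧ LogDesing V B D (I₀ * I₁) := by
  classical
  have hnoeB := h.noeth hR
  have hAB := h.le
  have hT := h.fin
  have hAW : Subring.closure ((ρ.range : Set K) ∪ T) ≤ W.toSubring := hAB.trans hBW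
  obtain ⟨S, hS⟩ := (IsNoetherian.noetherian D : D.FG)
  obtain ⟨S', hS'⟩ := (IsNoetherian.noetherian I₀ : I₀.FG)
  have hS : Ideal.span (S : Set B) = D := hS
  have hS' : Ideal.span (S' : Set B) = I₀ := hS'
  obtain ⟨d, hdS, hd0, hd⟩ := exists_gen W hBW S.finite_toSet (by rw [hS]; exact hD)
  obtain ⟨f, hfS, hf0, hf⟩ := exists_gen W hBW S'.finite_toSet (by rw [hS']; exact hI)
  have hdD : d ∈ D := by rw [← hS]; exact Ideal.subset_span hdS
  have hfI : f ∈ I₀ := by rw [← hS']; exact Ideal.subset_span hfS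
  have hd0' : (d : K) ≠ 0 := fun h => hd0 (Subtype.ext h)
  have hf0' : (f : K) ≠ 0 := fun h => hf0 (Subtype.ext h)
  have hfrB : ∀ b ∈ B, Fr (Subring.closure ((ρ.range : Set K) ∪ T)) b := by
    intro b hb
    obtain ⟨a, ha, s, hs, hs0, -, rfl⟩ := h.ge b hb
    exact ⟨a, ha, s, hs, hs0, rfl⟩
  have hfrd : ∀ a b : K, Fr (Subring.closure ((ρ.range : Set K) ∪ T)) a →
      Fr (Subring.closure ((ρ.range : Set K) ∪ T)) b → b ≠ 0 →
      Fr (Subring.closure ((ρ.range : Set K) ∪ T)) (a / b) := by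
    rintro _ _ ⟨a, ha, b, hb, hb0, rfl⟩ ⟨a', ha', b', hb', hb'0, rfl⟩ h0
    have ha'0 : a' ≠ 0 := left_ne_zero_of_mul h0
    refine ⟨a * b', Subring.mul_mem _ ha hb', b * a', Subring.mul_mem _ hb ha',
      mul_ne_zero hb0 ha'0, ?_⟩
    field_simp
  have hfrm : Fr (Subring.closure ((ρ.range : Set K) ∪ T)) ((d : K) * f) :=
    hfrB _ (B.mul_mem d.2 f.2)
  set H : Set K := ((fun a : B => (a : K) / d) '' (S : Set B)) ∪
    ((fun a : B => (a : K) / f) '' (S' : Set B)) with hH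
  have hHf : H.Finite := (S.finite_toSet.image _).union (S'.finite_toSet.image _)
  have hda : DA W (Subring.closure ((ρ.range : Set K) ∪ T)) {(d : K) * f} H := by
    refine hW _ _ (Set.finite_singleton _) hHf (fun h hh => ?_) ?_
    · rw [Set.mem_singleton_iff.1 hh]
      exact ⟨mul_ne_zero hd0' hf0', hfrm⟩
    · rintro _ (⟨a, ha, rfl⟩ | ⟨a, ha, rfl⟩)
      · exact ⟨hd a (Ideal.subset_span ha), hfrd _ _ (hfrB a a.2) (hfrB d d.2) hd0'⟩
      · exact ⟨hf a (Ideal.subset_span ha), hfrd _ _ (hfrB a a.2) (hfrB f f.2) hf0'⟩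
  obtain ⟨X, N, hXf, hNf, hX, hN, hsp⟩ := spread hR ρ hT hAW (Set.finite_singleton _) hHf hda
  refine ⟨X, (fun z => z⁻¹) '' N, hXf, hNf.image _, hX, ?_, ?_⟩
  · rintro _ ⟨z, hz, rfl⟩
    exact hN z hz
  · intro V hBV hXV hNV
    have h1 := hsp V (hAB.trans hBV) hXV fun z hz => hNV _ ⟨z, hz, rfl⟩
    exact logDesing_of_da hBV hS hS' hdD hfI hd0 hf0 (h1.loc (hAB.trans hBV) hAB (h.le_lo hBV))

end

section

variable {R E : Type u} [CommRing R] [Field E] {ρ : R →+* E} {V₀ : ValuationSubring E}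
  {K : Type u} [Field K] [Algebra E K]

/-- The universally uniformizable extensions are dense. -/
theorem near_uu (hR : HJ R) (hU : UU ρ V₀)
    (hK : ∃ T : Finset K, FiniteDimensional (IntermediateField.adjoin E (T : Set K)) K)
    (V : Ex V₀ K) {A N : Set K} (hA : A.Finite) (hN : N.Finite) (hAV : ∀ x ∈ A, exm V x)
    (hNV : ∀ x ∈ N, ¬ exm V x) :
    ∃ W : Ex V₀ K, UU ((algebraMap E K).comp ρ) W.1 ∧ (∀ x ∈ A, exm W x) ∧
      ∀ x ∈ N, ¬ exm W x := by
  classical
  obtain ⟨T, hT⟩ := hK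
  obtain ⟨W, hWE, hWU, h1, h2⟩ := dense hR ρ V₀ hU T.card K T le_rfl hT V.1 V.2
    (hA.toFinset ∪ hN.toFinset.image fun x => x⁻¹)
  refine ⟨⟨W, hWE⟩, hWU, fun x hx => ?_, fun x hx hxW => ?_⟩
  · exact h1 x (Finset.mem_union_left _ (hA.mem_toFinset.2 hx)) (hAV x hx)
  · have hx0 : x ≠ 0 := by
      rintro rfl
      exact hNV 0 hx (zero_mem V.1)
    have h3 : V.1.valuation x⁻¹ < 1 := by
      rw [val_lt_iff _ (inv_ne_zero hx0), inv_inv]
      exact hNV x hx
    have h4 := h2 x⁻¹ (Finset.mem_union_right _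
      (Finset.mem_image_of_mem _ (hN.mem_toFinset.2 hx))) h3
    rw [val_lt_iff _ (inv_ne_zero hx0), inv_inv] at h4
    exact h4 hxW

theorem dense_uu (hR : HJ R) (hU : UU ρ V₀)
    (hK : ∃ T : Finset K, FiniteDimensional (IntermediateField.adjoin E (T : Set K)) K) :
    @Dense (Ex V₀ K) (pt exm) {V | UU ((algebraMap E K).comp ρ) V.1} := by
  let _ : TopologicalSpace (Ex V₀ K) := pt exm
  rw [dense_iff_inter_open]
  rintro O hO ⟨V, hV⟩
  obtain ⟨A, N, hA, hN, h1, h2, h3⟩ := pt_basic hO hV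
  obtain ⟨W, hW, h4, h5⟩ := near_uu hR hU hK V hA hN h1 h2
  exact ⟨W, h3 W h4 h5, hW⟩

/-- The extensions with bad extensions to a finite extension of the field are nowhere dense. -/
theorem nwd (hR : HJ R) (hU : UU ρ V₀)
    (hK : ∃ T : Finset K, FiniteDimensional (IntermediateField.adjoin E (T : Set K)) K)
    (K' : Type u) [Field K'] [Algebra K K'] [FiniteDimensional K K'] {T : Set K'}
    {B : Subring K'} (hB : Ess ((algebraMap K K').comp ((algebraMap E K).comp ρ)) T B)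
    (hfr : ∀ z : K', Fr (Subring.closure
      ((((algebraMap K K').comp ((algebraMap E K).comp ρ)).range : Set K') ∪ T)) z)
    {D I₀ : Ideal B} (hD : D ≠ ⊥) (hI : I₀ ≠ ⊥) :
    @IsNowhereDense (Ex V₀ K) (pt exm) {V | ∃ V' : ValuationSubring K',
      V'.comap (algebraMap K K') = V.1 ∧ B ≤ V'.toSubring ∧
        ¬ ∃ I₁ : Ideal B, I₁ ≠ ⊥ ∧ LogDesing V' B D (I₀ * I₁)} := by
  classical
  let _ : Algebra E K' := ((algebraMap K K').comp (algebraMap E K)).toAlgebra
  let _ : TopologicalSpace (Ex V₀ K) := pt exm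
  let _ : TopologicalSpace (Ex V₀ K') := pt exm
  have hc' : CompactSpace (Ex V₀ K') := ex_compact
  have ht : T2Space (Ex V₀ K) := ex_t2
  let r : Ex V₀ K' → Ex V₀ K := fun V' => ⟨V'.1.comap (algebraMap K K'),
    (rfl : _ = V'.1.comap (algebraMap E K')).trans V'.2⟩
  have hr : Continuous r := by
    refine continuous_generateFrom_iff.2 ?_
    rintro _ ⟨x, rfl | rfl⟩
    · exact (pt_isOpen (m := exm (V₀ := V₀) (K := K')) (algebraMap K K' x)).1
    · exact (pt_isOpen (m := exm (V₀ := V₀) (K := K')) (algebraMap K K' x)).2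
  let bad : Set (Ex V₀ K') := {V' | B ≤ V'.1.toSubring ∧
    ¬ ∃ I₁ : Ideal B, I₁ ≠ ⊥ ∧ LogDesing V'.1 B D (I₀ * I₁)}
  refine pt_nowhereDense fun V A N hA hN h1 h2 => ?_
  obtain ⟨W, hW, h3, h4⟩ := near_uu hR hU hK V hA hN h1 h2
  have hWn : W ∉ r '' closure bad := by
    rintro ⟨W', hW', hr'⟩
    have hcomap : W'.1.comap (algebraMap K K') = W.1 := congrArg Subtype.val hr'
    have hg := hW K' W'.1 hcomap
    by_cases hBW : B ≤ W'.1.toSubring
    · have hgp : GP W'.1 (Subring.closure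
          ((((algebraMap K K').comp ((algebraMap E K).comp ρ)).range : Set K') ∪ T)) := by
        obtain ⟨T₀, -, h0⟩ := hg
        exact h0 T hB.fin (hB.le.trans hBW) fun t _ => hfr t
      obtain ⟨X, N', hXf, hNf, hX, hN', hsol⟩ := near_gp hR hB hBW hgp hD hI
      have hO := pt_isOpen_basic (m := exm (V₀ := V₀) (K := K')) hXf hNf
      obtain ⟨V', hV', hV'b⟩ := mem_closure_iff.1 hW' _ hO ⟨hX, hN'⟩
      exact hV'b.2 (hsol V'.1 hV'b.1 hV'.1 hV'.2)
    · obtain ⟨b, hb, hbW⟩ := Set.not_subset.1 hBW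
      have hO := (pt_isOpen (m := exm (V₀ := V₀) (K := K')) b).2
      obtain ⟨V', hV', hV'b⟩ := mem_closure_iff.1 hW' _ hO hbW
      exact hV' (hV'b.1 hb)
  have hcl : IsClosed (r '' closure bad) :=
    (isClosed_closure.isCompact.image hr).isClosed
  obtain ⟨A', N', hA', hN', h5, h6, h7⟩ := pt_basic hcl.isOpen_compl hWn
  refine ⟨W, A', N', hA', hN', ?_, ?_, fun V₁ h8 h9 => ?_⟩
  · rintro x (hx | hx)
    · exact h3 x hx
    · exact h5 x hx
  · rintro x (hx | hx)
    · exact h4 x hx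
    · exact h6 x hx
  · rintro ⟨V', hV', hBV', hn⟩
    refine h7 V₁ h8 h9 ⟨⟨V', ?_⟩, subset_closure ⟨hBV', hn⟩, Subtype.ext hV'⟩
    rw [← V₁.2, ← hV']
    rfl

end

end Pool.Agent.V7H77.RG
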