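import Mathlib

/-!
# Approximation of a transcendental element by a point, one variable
-/

set_option autoImplicit false

namespace Pool.Agent.V7H77.RG

open Polynomial

section

variable {k : Type*} [Field k] [IsAlgClosed k] {Γ : Type*} [LinearOrderedCommGroupWithZero Γ]
  (v : Valuation k Γ)

/-- An element whose distance to finitely many elements of value at most one is one. -/
theorem exists_generic (P : Finset k) (hP : ∀ r ∈ P, v r ≤ 1) :
    ∃ u : k, v u = 1 ∧ ∀ r ∈ P, v (u - r) = 1 := by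
  classical
  let P' := insert (0 : k) P
  have h0 : (0 : k) ∈ P' := Finset.mem_insert_self _ _
  have hP' : ∀ r ∈ P', v r ≤ 1 := by
    intro r hr
    rcases Finset.mem_insert.1 hr with rfl | hr
    · rw [map_zero]; exact zero_le_one
    · exact hP r hr
  obtain ⟨u, hu⟩ : ∃ u : k, ∏ r ∈ P', (u - r) = 1 := by
    let q : k[X] := ∏ r ∈ P', (X - C r) - C 1
    have hd : (∏ r ∈ P', (X - C r) : k[X]).degree = (P'.card : ℕ) := by
      rw [degree_prod]
      simp
    have hc : 0 < P'.card := Finset.card_pos.2 ⟨0, h0⟩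
    have hq : q.degree = (P'.card : ℕ) := by
      rw [← hd]
      refine degree_sub_eq_left_of_degree_lt ?_
      rw [hd]
      refine lt_of_le_of_lt degree_C_le ?_
      exact_mod_cast hc
    obtain ⟨u, hu⟩ := IsAlgClosed.exists_root q (by rw [hq]; exact_mod_cast hc.ne')
    refine ⟨u, ?_⟩
    have h1 : q.eval u = 0 := hu
    rw [eval_sub, eval_prod, eval_C, sub_eq_zero] at h1
    simpa using h1
  have hprod : ∏ r ∈ P', v (u - r) = 1 := by
    rw [← map_prod, hu, map_one]
  have hu1 : v u ≤ 1 := by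
    by_contra h
    rw [not_le] at h
    have h1 : ∀ r ∈ P', 1 < v (u - r) := by
      intro r hr
      have h2 : v r < v u := lt_of_le_of_lt (hP' r hr) h
      rw [Valuation.map_sub_eq_of_lt_left v h2]
      exact h
    have h4 : 1 ≤ ∏ r ∈ P'.erase 0, v (u - r) :=
      Finset.prod_induction _ (fun x => 1 ≤ x) (fun a b ha hb => one_le_mul ha hb) le_rfl
        fun r hr => (h1 r (Finset.mem_of_mem_erase hr)).le
    have h5 := Finset.mul_prod_erase P' (fun r => v (u - r)) h0
    rw [hprod] at h5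
    have h6 : 1 < v (u - 0) * ∏ r ∈ P'.erase 0, v (u - r) := by
      calc (1 : Γ) < v (u - 0) := h1 0 h0
        _ ≤ v (u - 0) * ∏ r ∈ P'.erase 0, v (u - r) := le_mul_of_one_le_right' h4
    exact absurd h5 h6.ne'
  have hle : ∀ r ∈ P', v (u - r) ≤ 1 := fun r hr =>
    (v.map_sub _ _).trans (max_le hu1 (hP' r hr))
  have heq : ∀ r ∈ P', v (u - r) = 1 := by
    intro r hr
    by_contra h
    have h1 : v (u - r) < 1 := lt_of_le_of_ne (hle r hr) h
    have h2 : ∏ r ∈ P'.erase r, v (u - r) ≤ 1 :=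
      Finset.prod_induction _ (fun x => x ≤ 1) (fun a b ha hb => mul_le_one' ha hb) le_rfl
        fun r hr => hle r (Finset.mem_of_mem_erase hr)
    have h3 := Finset.mul_prod_erase P' (fun r => v (u - r)) hr
    rw [hprod] at h3
    have h4 : v (u - r) * ∏ r ∈ P'.erase r, v (u - r) < 1 := by
      calc v (u - r) * ∏ r ∈ P'.erase r, v (u - r) ≤ v (u - r) * 1 := mul_le_mul_right h2 _
        _ < 1 := by rw [mul_one]; exact h1
    exact absurd h3 h4.ne
  refine ⟨u, ?_, fun r hr => heq r (Finset.mem_insert_of_mem hr)⟩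
  have := heq 0 h0
  rwa [sub_zero] at this

/-- An element in a given cut. -/
theorem exists_cut (hnt : ∃ x : k, x ≠ 0 ∧ v x < 1) (D : Finset k) (hD : ∀ d ∈ D, d ≠ 0) (γ : Γ) :
    ∃ c : k, c ≠ 0 ∧ ∀ d ∈ D, (v d < γ → v d < v c) ∧ (γ < v d → v c < v d) := by
  classical
  obtain ⟨x, hx0, hx⟩ := hnt
  have hx0' : v x ≠ 0 := (v.ne_zero_iff).2 hx0
  have hlt : ∀ d : k, d ≠ 0 → v (d * x) < v d := by
    intro d hd
    rw [map_mul]
    have h1 : 0 < v d := zero_lt_iff.2 ((v.ne_zero_iff).2 hd)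
    calc v d * v x < v d * 1 := (mul_lt_mul_iff_right₀ h1).2 hx
      _ = v d := mul_one _
  by_cases hl : (D.filter fun d => v d < γ).Nonempty
  · obtain ⟨a, ha, hamax⟩ := Finset.exists_max_image _ v hl
    rw [Finset.mem_filter] at ha
    by_cases hu : (D.filter fun d => γ < v d).Nonempty
    · obtain ⟨b, hb, hbmin⟩ := Finset.exists_min_image _ v hu
      rw [Finset.mem_filter] at hb
      obtain ⟨c, hc⟩ := IsAlgClosed.exists_pow_nat_eq (a * b) (n := 2) (by norm_num)
      have hab : v a < v b := ha.2.trans hb.2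
      have hvc : v c * v c = v a * v b := by
        rw [← map_mul, ← map_mul, ← hc, sq]
      have hc0 : c ≠ 0 := by
        rintro rfl
        rw [zero_pow two_ne_zero] at hc
        exact mul_ne_zero (hD a ha.1) (hD b hb.1) hc.symm
      have ha0 : 0 < v a := zero_lt_iff.2 ((v.ne_zero_iff).2 (hD a ha.1))
      have hb0 : 0 < v b := zero_lt_iff.2 ((v.ne_zero_iff).2 (hD b hb.1))
      have h1 : v a < v c := by
        by_contra h
        rw [not_lt] at h
        have h2 : v c * v c ≤ v a * v a := mul_le_mul' h h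
        rw [hvc] at h2
        exact absurd h2 (not_le.2 ((mul_lt_mul_iff_right₀ ha0).2 hab))
      have h2 : v c < v b := by
        by_contra h
        rw [not_lt] at h
        have h2 : v b * v b ≤ v c * v c := mul_le_mul' h h
        rw [hvc] at h2
        exact absurd h2 (not_le.2 ((mul_lt_mul_iff_left₀ hb0).2 hab))
      refine ⟨c, hc0, fun d hd => ⟨fun h => ?_, fun h => ?_⟩⟩
      · exact (hamax d (Finset.mem_filter.2 ⟨hd, h⟩)).trans_lt h1
      · exact h2.trans_le (hbmin d (Finset.mem_filter.2 ⟨hd, h⟩))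
    · refine ⟨a * x⁻¹, mul_ne_zero (hD a ha.1) (inv_ne_zero hx0), fun d hd => ⟨fun h => ?_, fun h =>
        absurd ⟨d, Finset.mem_filter.2 ⟨hd, h⟩⟩ hu⟩⟩
      have h1 := hlt (a * x⁻¹) (mul_ne_zero (hD a ha.1) (inv_ne_zero hx0))
      rw [inv_mul_cancel_right₀ hx0] at h1
      exact (hamax d (Finset.mem_filter.2 ⟨hd, h⟩)).trans_lt h1
  · by_cases hu : (D.filter fun d => γ < v d).Nonempty
    · obtain ⟨b, hb, hbmin⟩ := Finset.exists_min_image _ v hu
      rw [Finset.mem_filter] at hb
      refine ⟨b * x, mul_ne_zero (hD b hb.1) hx0, fun d hd => ⟨fun h =>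
        absurd ⟨d, Finset.mem_filter.2 ⟨hd, h⟩⟩ hl, fun h => ?_⟩⟩
      exact (hlt b (hD b hb.1)).trans_le (hbmin d (Finset.mem_filter.2 ⟨hd, h⟩))
    · exact ⟨1, one_ne_zero, fun d hd => ⟨fun h => absurd ⟨d, Finset.mem_filter.2 ⟨hd, h⟩⟩ hl,
        fun h => absurd ⟨d, Finset.mem_filter.2 ⟨hd, h⟩⟩ hu⟩⟩

omit [IsAlgClosed k] in
/-- A product of maxima. -/
theorem prod_max (s : Multiset k) (b : k) (x y : Γ)
    (h : ∀ α ∈ s, x < v (α - b) ↔ y < v (α - b)) :
    (s.map fun α => max y (v (α - b))).prod =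
      v ((s.filter fun α => x < v (α - b)).map fun α => α - b).prod *
        y ^ (s.filter fun α => ¬ x < v (α - b)).card := by
  classical
  induction s using Multiset.induction_on with
  | empty => simp
  | cons α s ih =>
    have h1 := ih fun β hβ => h β (Multiset.mem_cons_of_mem hβ)
    have h2 := h α (Multiset.mem_cons_self α s)
    rw [Multiset.map_cons, Multiset.prod_cons, h1]
    by_cases hc : x < v (α - b)
    · rw [Multiset.filter_cons_of_pos s hc,
        Multiset.filter_cons_of_neg (p := fun α => ¬ x < v (α - b)) s (not_not.2 hc),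
        Multiset.map_cons, Multiset.prod_cons, map_mul, max_eq_right (h2.1 hc).le, mul_assoc]
    · rw [Multiset.filter_cons_of_neg s hc,
        Multiset.filter_cons_of_pos (p := fun α => ¬ x < v (α - b)) s hc, Multiset.card_cons,
        max_eq_left (not_lt.1 fun h3 => hc (h2.2 h3)), pow_succ]
      rw [mul_left_comm, mul_comm y]

end

section

variable {k M : Type*} [Field k] [IsAlgClosed k] [Field M] [Algebra k M] {Γ : Type*}
  [LinearOrderedCommGroupWithZero Γ] (v : Valuation M Γ)

/-- The points near a transcendental element. -/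
theorem one_var (hnt : ∃ x : k, x ≠ 0 ∧ v (algebraMap k M x) < 1) (t : M)
    (ht : ∀ x : k, algebraMap k M x ≠ t) (F : Finset k[X]) (hF : ∀ f ∈ F, f ≠ 0) :
    ∃ a : k, (∀ f ∈ F, f.eval a ≠ 0) ∧ ∀ f ∈ F, ∀ g ∈ F,
      (v (aeval t f) ≤ v (aeval t g) ↔
        v (algebraMap k M (f.eval a)) ≤ v (algebraMap k M (g.eval a))) := by
  classical
  let i := algebraMap k M
  let w : Valuation k Γ := v.comap i
  have hw : ∀ x, w x = v (i x) := fun x => rfl
  let R : Finset k := insert 0 (F.biUnion fun f => f.roots.toFinset)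
  have hR : ∀ f ∈ F, ∀ α ∈ f.roots, α ∈ R := fun f hf α hα =>
    Finset.mem_insert_of_mem (Finset.mem_biUnion.2 ⟨f, hf, Multiset.mem_toFinset.2 hα⟩)
  obtain ⟨b, hb, hmin⟩ := Finset.exists_min_image R (fun α => v (t - i α))
    ⟨0, Finset.mem_insert_self _ _⟩
  set γ : Γ := v (t - i b) with hγ
  have hγ0 : 0 < γ := zero_lt_iff.2 ((v.ne_zero_iff).2 (sub_ne_zero.2 (ht b).symm))
  have hval : ∀ α ∈ R, v (t - i α) = max γ (w (α - b)) := by
    intro α hα
    have h1 : t - i α = (t - i b) - i (α - b) := by rw [map_sub]; ring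
    have h2 : i (α - b) = (t - i b) - (t - i α) := by rw [map_sub]; ring
    refine le_antisymm ?_ (max_le (hmin α hα) ?_)
    · rw [h1]
      exact v.map_sub _ _
    · rw [hw, h2]
      refine (v.map_sub _ _).trans (max_le (hmin α hα) le_rfl)
  let N : k[X] → Γ → Γ := fun f x => w f.leadingCoeff * (f.roots.map fun α => max x (w (α - b))).prod
  have hNt : ∀ f ∈ F, v (aeval t f) = N f γ := by
    intro f hf
    have h1 := (IsAlgClosed.splits f).eq_prod_roots
    have h2 : aeval t f = i f.leadingCoeff * (f.roots.map fun α => t - i α).prod := by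
      conv_lhs => rw [h1]
      rw [map_mul, aeval_C, map_multiset_prod, Multiset.map_map]
      congr 2
      refine Multiset.map_congr rfl fun α _ => ?_
      simp [i]
    rw [h2, map_mul, map_multiset_prod, Multiset.map_map]
    congr 2
    exact Multiset.map_congr rfl fun α hα => hval α (hR f hf α hα)
  have hNa : ∀ c : k, (∀ α ∈ R, w (c - (α - b)) = max (w c) (w (α - b))) → ∀ f ∈ F,
      w (f.eval (b + c)) = N f (w c) := by
    intro c hc f hf
    have h1 := (IsAlgClosed.splits f).eq_prod_roots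
    have h2 : f.eval (b + c) = f.leadingCoeff * (f.roots.map fun α => c - (α - b)).prod := by
      conv_lhs => rw [h1]
      rw [eval_mul, eval_C, eval_multiset_prod, Multiset.map_map]
      congr 2
      refine Multiset.map_congr rfl fun α _ => ?_
      simp only [Function.comp, eval_sub, eval_X, eval_C]
      ring
    rw [h2, map_mul, map_multiset_prod, Multiset.map_map]
    congr 2
    exact Multiset.map_congr rfl fun α hα => hc α (hR f hf α hα)
  have hN0 : ∀ f ∈ F, ∀ x : Γ, x ≠ 0 → N f x ≠ 0 := by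
    intro f hf x hx
    refine mul_ne_zero ((w.ne_zero_iff).2 (leadingCoeff_ne_zero.2 (hF f hf))) ?_
    refine Multiset.prod_ne_zero fun h => ?_
    obtain ⟨α, -, h1⟩ := Multiset.mem_map.1 h
    have h2 : x ≤ 0 := by rw [← h1]; exact le_max_left _ _
    exact hx (le_zero_iff.1 h2)
  -- it is enough to find `c`
  have key : ∀ c : k, c ≠ 0 → (∀ α ∈ R, w (c - (α - b)) = max (w c) (w (α - b))) →
      (∀ f ∈ F, ∀ g ∈ F, (N f γ ≤ N g γ ↔ N f (w c) ≤ N g (w c))) → 
      ∃ a : k, (∀ f ∈ F, f.eval a ≠ 0) ∧ ∀ f ∈ F, ∀ g ∈ F,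
      (v (aeval t f) ≤ v (aeval t g) ↔
        v (algebraMap k M (f.eval a)) ≤ v (algebraMap k M (g.eval a))) := by
    intro c hc0 hc hN
    refine ⟨b + c, fun f hf h0 => ?_, fun f hf g hg => ?_⟩
    · have h1 := hNa c hc f hf
      rw [h0, map_zero] at h1
      exact hN0 f hf _ ((w.ne_zero_iff).2 hc0) h1.symm
    · rw [hNt f hf, hNt g hg, hN f hf g hg, ← hNa c hc f hf, ← hNa c hc g hg]
      rfl
  by_cases hA : ∃ c₀ : k, w c₀ = γ
  · obtain ⟨c₀, hc₀⟩ := hA
    have hc₀0 : c₀ ≠ 0 := by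
      rintro rfl
      rw [map_zero] at hc₀
      exact hγ0.ne hc₀
    obtain ⟨u, hu, huP⟩ := exists_generic w
      ((R.filter fun α => w (α - b) ≤ γ).image fun α => (α - b) / c₀) (by
        intro r hr
        obtain ⟨α, hα, rfl⟩ := Finset.mem_image.1 hr
        rw [Finset.mem_filter] at hα
        rw [map_div₀, hc₀]
        exact div_le_one_of_le₀ hα.2 zero_le)
    have hwc : w (c₀ * u) = γ := by rw [map_mul, hu, mul_one, hc₀]
    have hu0 : u ≠ 0 := by
      rintro rfl
      rw [map_zero] at hu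
      exact zero_ne_one hu
    refine key (c₀ * u) (mul_ne_zero hc₀0 hu0) (fun α hα => ?_) (fun f _ g _ => by rw [hwc])
    rw [hwc]
    by_cases h : w (α - b) ≤ γ
    · rw [max_eq_left h]
      have h1 : c₀ * u - (α - b) = c₀ * (u - (α - b) / c₀) := by
        field_simp
      rw [h1, map_mul, huP _ (Finset.mem_image.2 ⟨α, Finset.mem_filter.2 ⟨hα, h⟩, rfl⟩), mul_one,
        hc₀]
    · rw [not_le] at h
      rw [max_eq_right h.le]
      refine Valuation.map_sub_eq_of_lt_right w ?_
      rw [hwc]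
      exact h
  · push Not at hA
    let B : k[X] → k := fun f =>
      f.leadingCoeff * ((f.roots.filter fun α => γ < w (α - b)).map fun α => α - b).prod
    let e : k[X] → ℕ := fun f => (f.roots.filter fun α => ¬ γ < w (α - b)).card
    have hB0 : ∀ f ∈ F, B f ≠ 0 := by
      intro f hf
      refine mul_ne_zero (leadingCoeff_ne_zero.2 (hF f hf)) ?_
      refine Multiset.prod_ne_zero fun h => ?_
      obtain ⟨α, h2, h1⟩ := Multiset.mem_map.1 h
      have h3 := (Multiset.mem_filter.1 h2).2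
      rw [h1, map_zero] at h3
      exact absurd h3 (not_lt.2 hγ0.le)
    have hd : ∀ p : k[X] × k[X], ∃ d : k, p.1 ∈ F → p.2 ∈ F → d ≠ 0 ∧
        (e p.2 < e p.1 → d ^ (e p.1 - e p.2) = B p.2 / B p.1) := by
      intro p
      by_cases h : e p.2 < e p.1
      · obtain ⟨d, hd⟩ := IsAlgClosed.exists_pow_nat_eq (B p.2 / B p.1) (Nat.sub_pos_of_lt h)
        refine ⟨d, fun h1 h2 => ⟨?_, fun _ => hd⟩⟩
        rintro rfl
        rw [zero_pow (Nat.sub_pos_of_lt h).ne'] at hd
        exact div_ne_zero (hB0 _ h2) (hB0 _ h1) hd.symm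
      · exact ⟨1, fun _ _ => ⟨one_ne_zero, fun h1 => absurd h1 h⟩⟩
    choose d hd using hd
    let D : Finset k := ((R.image fun α => α - b).erase 0) ∪ (F ×ˢ F).image d
    have hD : ∀ x ∈ D, x ≠ 0 := by
      intro x hx
      rcases Finset.mem_union.1 hx with hx | hx
      · exact (Finset.mem_erase.1 hx).1
      · obtain ⟨p, hp, rfl⟩ := Finset.mem_image.1 hx
        rw [Finset.mem_product] at hp
        exact (hd p hp.1 hp.2).1
    obtain ⟨c, hc0, hc⟩ := exists_cut w (by
      obtain ⟨x, h1, h2⟩ := hnt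
      exact ⟨x, h1, h2⟩) D hD γ
    have hc' : ∀ x ∈ D, (γ < w x ↔ w c < w x) ∧ (γ ≤ w x ↔ w c ≤ w x) := by
      intro x hx
      obtain ⟨h1, h2⟩ := hc x hx
      rcases lt_or_gt_of_ne (hA x) with h3 | h3
      · exact ⟨⟨fun h => absurd h (not_lt.2 h3.le), fun h => absurd h (not_lt.2 (h1 h3).le)⟩,
          ⟨fun h => absurd h (not_le.2 h3), fun h => absurd h (not_le.2 (h1 h3))⟩⟩
      · exact ⟨⟨fun _ => h2 h3, fun _ => h3⟩, ⟨fun _ => (h2 h3).le, fun _ => h3.le⟩⟩
    have hwc0 : 0 < w c := zero_lt_iff.2 ((w.ne_zero_iff).2 hc0)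
    have hRc : ∀ α ∈ R, γ < w (α - b) ↔ w c < w (α - b) := by
      intro α hα
      by_cases h0 : α - b = 0
      · rw [h0, map_zero]
        exact ⟨fun h => absurd h (not_lt.2 hγ0.le), fun h => absurd h (not_lt.2 hwc0.le)⟩
      · exact (hc' (α - b) (Finset.mem_union_left _
          (Finset.mem_erase.2 ⟨h0, Finset.mem_image.2 ⟨α, hα, rfl⟩⟩))).1
    have hNf : ∀ f ∈ F, ∀ x : Γ, (∀ α ∈ R, γ < w (α - b) ↔ x < w (α - b)) →
        N f x = w (B f) * x ^ e f := by
      intro f hf x hx
      have h1 := prod_max w f.roots b γ x fun α hα => hx α (hR f hf α hα)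
      change w f.leadingCoeff * _ = _
      rw [h1, ← mul_assoc, ← map_mul]
    refine key c hc0 (fun α hα => ?_) fun f hf g hg => ?_
    · by_cases h : w c < w (α - b)
      · rw [max_eq_right h.le]
        exact Valuation.map_sub_eq_of_lt_right w h
      · rw [max_eq_left (not_lt.1 h)]
        refine Valuation.map_sub_eq_of_lt_left w ?_
        by_cases h0 : α - b = 0
        · rw [h0, map_zero]
          exact hwc0
        · have h1 := hc (α - b) (Finset.mem_union_left _
            (Finset.mem_erase.2 ⟨h0, Finset.mem_image.2 ⟨α, hα, rfl⟩⟩))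
          refine h1.1 (lt_of_le_of_ne ?_ (hA _))
          by_contra h2
          exact h (h1.2 (not_le.1 h2))
    · have gen : ∀ f ∈ F, ∀ g ∈ F, e g < e f → ∀ x : Γ, 0 < x →
          ((w (B f) * x ^ e f ≤ w (B g) * x ^ e g ↔ x ≤ w (d (f, g))) ∧
            (w (B g) * x ^ e g ≤ w (B f) * x ^ e f ↔ w (d (f, g)) ≤ x)) := by
        intro f hf g hg hlt x hx
        obtain ⟨h1, h2⟩ := hd (f, g) hf hg
        have h3 : d (f, g) ^ (e f - e g) = B g / B f := h2 hlt
        have h4 : w (d (f, g)) ^ (e f - e g) * w (B f) = w (B g) := by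
          rw [← map_pow, ← map_mul, h3, div_mul_cancel₀ _ (hB0 f hf)]
        have h5 : x ^ e f = x ^ (e f - e g) * x ^ e g := by
          rw [← pow_add, Nat.sub_add_cancel hlt.le]
        have h6 : 0 < x ^ e g := pow_pos hx _
        have h7 : 0 < w (B f) := zero_lt_iff.2 ((w.ne_zero_iff).2 (hB0 f hf))
        rw [h5, ← mul_assoc, ← h4]
        constructor
        · rw [mul_le_mul_iff_left₀ h6, mul_comm (w (B f)), mul_le_mul_iff_left₀ h7,
            pow_le_pow_iff_left₀ zero_le zero_le (Nat.sub_pos_of_lt hlt).ne']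
        · rw [mul_le_mul_iff_left₀ h6, mul_comm (w (B f)), mul_le_mul_iff_left₀ h7,
            pow_le_pow_iff_left₀ zero_le zero_le (Nat.sub_pos_of_lt hlt).ne']
      rw [hNf f hf γ fun _ _ => Iff.rfl, hNf g hg γ fun _ _ => Iff.rfl, hNf f hf _ hRc,
        hNf g hg _ hRc]
      rcases lt_trichotomy (e g) (e f) with h | h | h
      · rw [(gen f hf g hg h γ hγ0).1, (gen f hf g hg h _ hwc0).1]
        exact (hc' _ (Finset.mem_union_right _ (Finset.mem_image.2
          ⟨(f, g), Finset.mem_product.2 ⟨hf, hg⟩, rfl⟩))).2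
      · rw [h, mul_le_mul_iff_left₀ (pow_pos hγ0 _), mul_le_mul_iff_left₀ (pow_pos hwc0 _)]
      · rw [(gen g hg f hf h γ hγ0).2, (gen g hg f hf h _ hwc0).2]
        have h1 := (hc' _ (Finset.mem_union_right _ (Finset.mem_image.2
          ⟨(g, f), Finset.mem_product.2 ⟨hg, hf⟩, rfl⟩))).1
        rw [← not_lt, ← not_lt, h1]

end

end Pool.Agent.V7H77.RG
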