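import Pool.Agent.V7H77.RG.Curve
import Pool.Agent.Y562.NN.KA2

/-!
# Approximation of a valuation of a function field of one variable by composites
-/

set_option autoImplicit false

namespace Pool.Agent.V7H77.RG

open Polynomial IntermediateField IsLocalRing

/-- Extension of valuation rings. -/
theorem exists_ext {L K : Type*} [Field L] [Field K] (j : L →+* K) (W' : ValuationSubring L) :
    ∃ W : ValuationSubring K, W.comap j = W' := by
  let f : W' →+* K := j.comp W'.subtype
  obtain ⟨W, hW, hloc⟩ := IsLocalRing.exists_factor_valuationRing f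
  refine ⟨W, ?_⟩
  apply le_antisymm
  · intro z hz
    by_contra h
    have h1 : z⁻¹ ∈ W' := (W'.mem_or_inv_mem z).resolve_left h
    have hz0 : z ≠ 0 := by
      rintro rfl
      exact h W'.zero_mem
    have h2 : IsUnit ((f.codRestrict W.toSubring hW) ⟨z⁻¹, h1⟩) := by
      refine isUnit_iff_exists_inv.2 ⟨⟨j z, hz⟩, Subtype.ext ?_⟩
      change j z⁻¹ * j z = 1
      rw [← map_mul, inv_mul_cancel₀ hz0, map_one]
    have h3 : IsUnit (⟨z⁻¹, h1⟩ : W') := hloc.map_nonunit _ h2
    obtain ⟨y, hy⟩ := isUnit_iff_exists_inv.1 h3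
    have h4 : z⁻¹ * (y : L) = 1 := congrArg Subtype.val hy
    have h5 : (y : L) = z := by
      rw [← mul_one z, ← h4, mul_inv_cancel_left₀ hz0]
    exact h (by rw [← h5]; exact y.2)
  · intro z hz
    exact hW ⟨z, hz⟩

lemma val_lt_iff {M : Type*} [Field M] (U : ValuationSubring M) {y : M} (hy : y ≠ 0) :
    U.valuation y < 1 ↔ y⁻¹ ∉ U := by
  have h0 : (0 : U.ValueGroup) < U.valuation y := zero_lt_iff.2 ((_root_.map_ne_zero _).2 hy)
  rw [← U.valuation_le_one_iff, map_inv₀, not_le, one_lt_inv₀ h0]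

lemma val_lt_comap {L K : Type*} [Field L] [Field K] (j : L →+* K) (W : ValuationSubring K)
    (x : L) : (W.comap j).valuation x < 1 ↔ W.valuation (j x) < 1 := by
  by_cases hx : x = 0
  · rw [hx, map_zero, map_zero, map_zero]
    exact ⟨fun _ => zero_lt_one, fun _ => zero_lt_one⟩
  rw [val_lt_iff _ hx, val_lt_iff _ ((_root_.map_ne_zero j).2 hx), ← map_inv₀]
  rfl

lemma field_aux {M : Type*} [Field M] (c d x y : M) (hd : d ≠ 0) :
    c * (x * y) = c * d⁻¹ * x * (d * y) := by
  field_simp

section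

variable (k : Type*) {K : Type*} [Field k] [Field K] [Algebra k K] (W : ValuationSubring K)

lemma coarse_common {x y : K} (hx : ∃ c : k, c ≠ 0 ∧ algebraMap k K c * x ∈ W)
    (hy : ∃ c : k, c ≠ 0 ∧ algebraMap k K c * y ∈ W) :
    ∃ c : k, c ≠ 0 ∧ algebraMap k K c * x ∈ W ∧ algebraMap k K c * y ∈ W := by
  obtain ⟨c, hc, h1⟩ := hx
  obtain ⟨d, hd, h2⟩ := hy
  have hc' : algebraMap k K c ≠ 0 := (_root_.map_ne_zero _).2 hc
  have hd' : algebraMap k K d ≠ 0 := (_root_.map_ne_zero _).2 hd
  rcases W.mem_or_inv_mem (algebraMap k K c / algebraMap k K d) with h | h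
  · refine ⟨c, hc, h1, ?_⟩
    have h3 : algebraMap k K c * y = algebraMap k K c / algebraMap k K d *
        (algebraMap k K d * y) := by field_simp
    rw [h3]
    exact mul_mem h h2
  · refine ⟨d, hd, ?_, h2⟩
    have h3 : algebraMap k K d * x = (algebraMap k K c / algebraMap k K d)⁻¹ *
        (algebraMap k K c * x) := by field_simp
    rw [h3]
    exact mul_mem h h1

/-- The smallest valuation ring which contains a valuation ring and a field. -/
def coarse : ValuationSubring K where
  carrier := {x | ∃ c : k, c ≠ 0 ∧ algebraMap k K c * x ∈ W}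
  one_mem' := ⟨1, one_ne_zero, by rw [map_one, one_mul]; exact one_mem _⟩
  zero_mem' := ⟨1, one_ne_zero, by rw [mul_zero]; exact zero_mem _⟩
  neg_mem' := by
    rintro x ⟨c, hc, h⟩
    exact ⟨c, hc, by rw [mul_neg]; exact neg_mem h⟩
  mul_mem' := by
    rintro x y ⟨c, hc, h⟩ ⟨d, hd, h'⟩
    refine ⟨c * d, mul_ne_zero hc hd, ?_⟩
    have h3 : algebraMap k K (c * d) * (x * y) = (algebraMap k K c * x) *
        (algebraMap k K d * y) := by rw [map_mul]; ring
    rw [h3]
    exact mul_mem h h'
  add_mem' := by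
    intro x y hx hy
    obtain ⟨c, hc, h1, h2⟩ := coarse_common k W hx hy
    exact ⟨c, hc, by rw [mul_add]; exact add_mem h1 h2⟩
  mem_or_inv_mem' := by
    intro x
    rcases W.mem_or_inv_mem x with h | h
    · exact Or.inl ⟨1, one_ne_zero, by rw [map_one, one_mul]; exact h⟩
    · exact Or.inr ⟨1, one_ne_zero, by rw [map_one, one_mul]; exact h⟩

lemma mem_coarse {x : K} : x ∈ coarse k W ↔ ∃ c : k, c ≠ 0 ∧ algebraMap k K c * x ∈ W := Iff.rfl

lemma le_coarse : W ≤ coarse k W := fun x hx =>
  ⟨1, one_ne_zero, by rw [map_one, one_mul]; exact hx⟩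

lemma base_coarse (x : k) : algebraMap k K x ∈ coarse k W := by
  by_cases hx : x = 0
  · rw [hx, map_zero]
    exact zero_mem _
  · exact ⟨x⁻¹, inv_ne_zero hx, by
      rw [← map_mul, inv_mul_cancel₀ hx, map_one]
      exact one_mem _⟩

/-- A criterion for the maximal ideal of the coarsening. -/
lemma coarse_nonunit (hnt : ∃ x : k, algebraMap k K x ∉ W) {y : K} (hy0 : y ≠ 0)
    (hy : ∀ c : k, algebraMap k K c * y ∈ W) : y⁻¹ ∉ coarse k W := by
  rintro ⟨c, hc, h⟩
  obtain ⟨x, hx⟩ := hnt
  apply hx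
  have h1 := mul_mem (hy (x * c⁻¹)) h
  have h2 : algebraMap k K (x * c⁻¹) * y * (algebraMap k K c * y⁻¹) = algebraMap k K x := by
    have hc' : algebraMap k K c ≠ 0 := (_root_.map_ne_zero _).2 hc
    rw [map_mul, map_inv₀]
    field_simp
  rwa [h2] at h1

end

section

variable {k K : Type*} [Field k] [Field K] [Algebra k K] (t : K) (ht : Transcendental k t)

include ht in
/-- Rational functions. -/
theorem isFrac : letI : Algebra k[X] k⟮t⟯ := (aeval (AdjoinSimple.gen k t)).toAlgebra
    IsFractionRing k[X] k⟮t⟯ := by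
  let : Algebra k[X] k⟮t⟯ := (aeval (AdjoinSimple.gen k t)).toAlgebra
  have hmap : ∀ f : k[X], ((algebraMap k[X] k⟮t⟯ f : k⟮t⟯) : K) = aeval t f := by
    intro f
    change ((aeval (AdjoinSimple.gen k t) f : k⟮t⟯) : K) = aeval t f
    have h1 := aeval_algebraMap_apply K (AdjoinSimple.gen k t) f
    rw [AdjoinSimple.algebraMap_gen] at h1
    exact h1.symm
  have hinj : Function.Injective (algebraMap k[X] k⟮t⟯) := by
    intro f g hfg
    refine (transcendental_iff_injective.1 ht) ?_
    rw [← hmap, ← hmap, hfg]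
  exact
    { map_units := by
        rintro ⟨y, hy⟩
        refine isUnit_iff_ne_zero.2 fun h => nonZeroDivisors.ne_zero hy (hinj ?_)
        rw [map_zero]
        exact h
      surj := by
        intro z
        obtain ⟨r, s, hrs⟩ := (mem_adjoin_simple_iff k (z : K)).1 z.2
        by_cases hs : s = 0
        · refine ⟨(0, 1), Subtype.ext ?_⟩
          rw [hs, map_zero, div_zero] at hrs
          change (z : K) * _ = _
          rw [hrs, zero_mul, hmap, map_zero]
        · refine ⟨(r, ⟨s, mem_nonZeroDivisors_of_ne_zero hs⟩), Subtype.ext ?_⟩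
          change (z : K) * ((algebraMap k[X] k⟮t⟯ s : k⟮t⟯) : K) = _
          have h1 : aeval t s ≠ 0 := fun h => hs ((transcendental_iff.1 ht) s h)
          rw [hmap, hmap, hrs, div_mul_cancel₀ _ h1]
      exists_of_eq := by
        intro a b hab
        refine ⟨1, ?_⟩
        rw [hinj hab] }

include ht in
/-- Discrete valuation rings of a function field of one variable. -/
theorem dvr_of_center [FiniteDimensional k⟮t⟯ K] (ν : ValuationSubring K)
    (hk : ∀ x : k, algebraMap k K x ∈ ν) (htν : t ∈ ν) (p : k[X]) (hp : p.Monic)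
    (hpν : (aeval t p)⁻¹ ∉ ν) : IsDiscreteValuationRing ν ∧
      ((residue ν).comp ((algebraMap k K).codRestrict ν.toSubring hk)).Finite := by
  let : Algebra k[X] k⟮t⟯ := (aeval (AdjoinSimple.gen k t)).toAlgebra
  have hfr : IsFractionRing k[X] k⟮t⟯ := isFrac t ht
  let : Algebra k[X] K := (aeval t : k[X] →ₐ[k] K).toAlgebra
  have htower : IsScalarTower k[X] k⟮t⟯ K := by
    refine IsScalarTower.of_algebraMap_eq fun f => ?_
    change aeval t f = ((aeval (AdjoinSimple.gen k t) f : k⟮t⟯) : K)
    have h1 := aeval_algebraMap_apply K (AdjoinSimple.gen k t) f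
    rw [AdjoinSimple.algebraMap_gen] at h1
    exact h1
  have hmem : ∀ f : k[X], aeval t f ∈ ν.toSubring := by
    intro f
    rw [aeval_eq_sum_range]
    refine sum_mem fun i _ => ?_
    rw [Algebra.smul_def]
    exact mul_mem (hk _) (pow_mem htν _)
  let : Algebra k[X] ν :=
    ((aeval t : k[X] →ₐ[k] K).toRingHom.codRestrict ν.toSubring hmem).toAlgebra
  have htower' : IsScalarTower k[X] ν K := IsScalarTower.of_algebraMap_eq fun f => rfl
  have hco : ∀ f : k[X], ((algebraMap k[X] ν f : ν) : K) = aeval t f := fun f => rfl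
  have hp0 : aeval t p ≠ 0 := fun h => hp.ne_zero ((transcendental_iff.1 ht) p h)
  obtain ⟨hN, hfin⟩ := Pool.Agent.Y562.NN.ka k[X] k⟮t⟯ K ν
  have hpm : algebraMap k[X] ν p ∈ maximalIdeal ν := by
    rw [mem_maximalIdeal, mem_nonunits_iff, isUnit_iff_exists_inv]
    rintro ⟨y, hy⟩
    apply hpν
    have h1 : aeval t p * (y : K) = 1 := congrArg Subtype.val hy
    rw [← eq_inv_of_mul_eq_one_right h1]
    exact y.2
  refine ⟨?_, ?_⟩
  · have hpid : IsPrincipalIdealRing ν := IsPrincipalIdealRing.of_isNoetherianRing_of_isBezout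
    refine { toIsPrincipalIdealRing := hpid, toIsLocalRing := inferInstance, not_a_field' := ?_ }
    intro h2
    rw [h2, Ideal.mem_bot] at hpm
    exact hp0 (congrArg Subtype.val hpm)
  · have h2 : Module.Finite k[X] (ν ⧸ maximalIdeal ν) := hfin (maximalIdeal ν) p hp.ne_zero hpm
    have h3 : ((residue ν).comp (algebraMap k[X] ν)).Finite := h2
    let θ : k[X] ⧸ Ideal.span {p} →+* ResidueField ν :=
      Ideal.Quotient.lift _ ((residue ν).comp (algebraMap k[X] ν)) (by
        intro f hf
        obtain ⟨g, rfl⟩ := Ideal.mem_span_singleton.1 hf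
        rw [map_mul, RingHom.comp_apply, (residue_eq_zero_iff _).2 hpm, zero_mul])
    have h4 : θ.Finite := by
      refine RingHom.Finite.of_comp_finite (f := Ideal.Quotient.mk (Ideal.span {p})) ?_
      have h5 : θ.comp (Ideal.Quotient.mk (Ideal.span {p})) =
          (residue ν).comp (algebraMap k[X] ν) := Ideal.Quotient.lift_comp_mk _ _ _
      rw [h5]
      exact h3
    have h5 : Module.Finite k (k[X] ⧸ Ideal.span {p}) := hp.finite_quotient
    have h6 : (algebraMap k (k[X] ⧸ Ideal.span {p})).Finite := RingHom.finite_algebraMap.2 h5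
    have h7 := h4.comp h6
    have h8 : θ.comp (algebraMap k (k[X] ⧸ Ideal.span {p})) =
        (residue ν).comp ((algebraMap k K).codRestrict ν.toSubring hk) := by
      ext x
      change residue ν (algebraMap k[X] ν (C x)) = residue ν _
      congr 1
      apply Subtype.ext
      rw [hco, aeval_C]
      rfl
    rw [← h8]
    exact h7

end

section

variable {k K : Type*} [Field k] [Field K] [Algebra k K] (V : ValuationSubring K)

/-- Approximation of a valuation by composites, in one variable. -/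
theorem step (hnt : ∃ x : k, x ≠ 0 ∧ V.valuation (algebraMap k K x) < 1) (t : K)
    (ht : Transcendental k t) [FiniteDimensional k⟮t⟯ K] (S : Finset K) :
    ∃ (W ν : ValuationSubring K) (hk : ∀ x : k, algebraMap k K x ∈ ν), W ≤ ν ∧
      (∀ x : k, algebraMap k K x ∈ W ↔ algebraMap k K x ∈ V) ∧
      IsDiscreteValuationRing ν ∧
      ((residue ν).comp ((algebraMap k K).codRestrict ν.toSubring hk)).Finite ∧
      (∀ s ∈ S, s ∈ V → s ∈ W) ∧ (∀ s ∈ S, V.valuation s < 1 → W.valuation s < 1) := by
  classical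
  let M := AlgebraicClosure K
  let i : K →+* M := algebraMap K M
  obtain ⟨VM, hVM⟩ := exists_ext i V
  let A : IntermediateField k M := algebraicClosure k M
  have hA : IsAlgClosed A := IsAlgClosure.isAlgClosed k
  have hAk : Algebra.IsAlgebraic k A := algebraicClosure.isAlgebraic k M
  let t' : M := i t
  have ht' : Transcendental A t' := by
    intro h
    have h1 : IsAlgebraic k t' := h.restrictScalars k
    exact ht ((isAlgebraic_algebraMap_iff i.injective).1 h1)
  let L : IntermediateField A M := A⟮t'⟯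
  have hkA : ∀ f : k[X], aeval t' f = aeval t' (f.map (algebraMap k A)) := by
    intro f
    rw [aeval_map_algebraMap]
  have hiae : ∀ f : k[X], i (aeval t f) = aeval t' f := fun f =>
    (aeval_algebraMap_apply M t f).symm
  have hφ : ∀ x : k⟮t⟯, i (x : K) ∈ L := by
    intro x
    obtain ⟨r, s, hrs⟩ := (mem_adjoin_simple_iff k (x : K)).1 x.2
    refine (mem_adjoin_simple_iff A _).2 ⟨r.map (algebraMap k A), s.map (algebraMap k A), ?_⟩
    rw [← hkA, ← hkA, ← hiae, ← hiae, hrs, map_div₀]
  let φ : k⟮t⟯ →+* L := (i.comp (algebraMap k⟮t⟯ K)).codRestrict L.toSubring hφ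
  let S' : Set M := (S.image i : Finset M)
  have hint : ∀ x ∈ S', IsIntegral L x := by
    intro x hx
    obtain ⟨s, -, rfl⟩ := Finset.mem_image.1 (Finset.mem_coe.1 hx)
    exact IsIntegral.map_of_comp_eq φ i (RingHom.ext fun _ => rfl)
      (Algebra.IsIntegral.isIntegral (R := k⟮t⟯) s)
  let F : IntermediateField L M := IntermediateField.adjoin L S'
  have hfinF : FiniteDimensional L F := IntermediateField.finiteDimensional_adjoin hint
  have htF : t' ∈ F := F.algebraMap_mem ⟨t', mem_adjoin_simple_self A t'⟩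
  let tF : F := ⟨t', htF⟩
  have hAFM : IsScalarTower A F M := IsScalarTower.of_algebraMap_eq fun x => rfl
  have haeF : ∀ f : A[X], ((aeval tF f : F) : M) = aeval t' f := fun f =>
    (aeval_algebraMap_apply M tF f).symm
  let VF : ValuationSubring F := VM.comap (algebraMap F M)
  have hVlt : ∀ x : K, V.valuation x < 1 ↔ VM.valuation (i x) < 1 := by
    intro x
    conv_lhs => rw [← hVM]
    exact val_lt_comap i VM x
  have hVF : ∀ x : F, VF.valuation x < 1 ↔ VM.valuation (x : M) < 1 := fun x =>
    val_lt_comap (algebraMap F M) VM x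
  have hVk : ∀ x : k, algebraMap k K x ∈ V ↔ algebraMap k M x ∈ VM := by
    intro x
    rw [← hVM]
    rfl
  have hSF : ∀ s ∈ S, i s ∈ F := fun s hs =>
    IntermediateField.subset_adjoin L S' (Finset.mem_coe.2 (Finset.mem_image_of_mem _ hs))
  let sF : K → F := fun s => if h : i s ∈ F then ⟨i s, h⟩ else 0
  have hsF : ∀ s ∈ S, ((sF s : F) : M) = i s := by
    intro s hs
    simp only [sF, dif_pos (hSF s hs)]
  obtain ⟨x₀, hx₀, hx₀1⟩ := hnt
  obtain ⟨a, WF, h1, h2, h3, h4⟩ := curve VF L
    ⟨algebraMap k A x₀, (_root_.map_ne_zero _).2 hx₀, by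
      rw [hVF]
      exact (hVlt _).1 hx₀1⟩ tF
    (fun h => ht' (h.algebraMap (A := M))) (by
      intro c
      obtain ⟨r, s, hrs⟩ := (mem_adjoin_simple_iff A (c : M)).1 c.2
      by_cases hs : s = 0
      · refine ⟨0, 1, one_ne_zero, Subtype.ext ?_⟩
        rw [hs, map_zero, div_zero] at hrs
        change (c : M) * ((aeval tF (1 : A[X]) : F) : M) = ((aeval tF (0 : A[X]) : F) : M)
        rw [hrs, zero_mul, haeF, map_zero]
      · refine ⟨r, s, hs, Subtype.ext ?_⟩
        change (c : M) * ((aeval tF s : F) : M) = ((aeval tF r : F) : M)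
        have h1 : aeval t' s ≠ 0 := fun h => hs ((transcendental_iff.1 ht') s h)
        rw [haeF, haeF, hrs, div_mul_cancel₀ _ h1])
    (by
      intro x f g hg hx
      have h0 : aeval t' g ≠ 0 := fun h => hg ((transcendental_iff.1 ht') g h)
      have h1 : (x : M) = aeval t' f / aeval t' g := by
        rw [eq_div_iff h0, ← haeF, ← haeF, ← hx]
        rfl
      exact ⟨⟨x, (mem_adjoin_simple_iff A _).2 ⟨f, g, h1⟩⟩, Subtype.ext rfl⟩)
    (S.image sF)
  obtain ⟨WM, hWM⟩ := exists_ext (algebraMap F M) WF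
  let W : ValuationSubring K := WM.comap i
  have hWlt : ∀ x : K, W.valuation x < 1 ↔ WM.valuation (i x) < 1 := fun x =>
    val_lt_comap i WM x
  have hWF : ∀ x : F, WF.valuation x < 1 ↔ WM.valuation (x : M) < 1 := by
    intro x
    conv_lhs => rw [← hWM]
    exact val_lt_comap (algebraMap F M) WM x
  have hWFm : ∀ x : F, x ∈ WF ↔ (x : M) ∈ WM := by
    intro x
    rw [← hWM]
    rfl
  have hbase : ∀ x : k, algebraMap k K x ∈ W ↔ algebraMap k K x ∈ V := by
    intro x
    have h5 := h1 (algebraMap k A x)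
    rw [hWFm] at h5
    exact h5.trans (hVk x).symm
  have hnt' : ∃ x : k, algebraMap k K x ∉ W := by
    refine ⟨x₀⁻¹, fun h => ?_⟩
    rw [hbase, map_inv₀] at h
    exact (val_lt_iff V ((_root_.map_ne_zero _).2 hx₀)).1 hx₀1 h
  -- the algebraic elements are in the coarsening
  have hAc : ∀ x : A, (x : M) ∈ coarse k WM := by
    intro x
    obtain ⟨p, hp, hpx⟩ := (hAk.isAlgebraic x).isIntegral
    have h2 : IsIntegral (coarse k WM) (x : M) := by
      refine ⟨p.map ((algebraMap k M).codRestrict (coarse k WM).toSubring (base_coarse k WM)),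
        hp.map _, ?_⟩
      rw [eval₂_map]
      have h5 : eval₂ (algebraMap k M) (x : M) p = ((eval₂ (algebraMap k A) x p : A) : M) := by
        change eval₂ (algebraMap k M) (algebraMap A M x) p = algebraMap A M _
        rw [hom_eval₂]
        rfl
      rw [hpx] at h5
      exact h5
    exact (IsIntegrallyClosed.isIntegral_iff.1 h2).elim fun y hy => hy ▸ y.2
  have hta : ∀ c : A, (c : M) * (t' - (a : M)) ∈ WM := fun c => (hWFm _).1 (h2 c)
  have htc : t' ∈ coarse k WM := by
    have h5 : t' - (a : M) ∈ WM := by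
      have h6 := hta 1
      rwa [OneMemClass.coe_one, one_mul] at h6
    have h6 := add_mem (le_coarse k WM h5) (hAc a)
    rwa [sub_add_cancel] at h6
  have hcomap : ∀ x : K, x ∈ coarse k W ↔ i x ∈ coarse k WM := by
    intro x
    have h5 : ∀ c : k, i (algebraMap k K c * x) = algebraMap k M c * i x := by
      intro c
      rw [map_mul]
      rfl
    constructor
    · rintro ⟨c, hc, h⟩
      exact ⟨c, hc, by rw [← h5]; exact h⟩
    · rintro ⟨c, hc, h⟩
      exact ⟨c, hc, by rw [← h5] at h; exact h⟩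
  have hai : IsIntegral k a := (hAk.isAlgebraic a).isIntegral
  have hpm : (minpoly k a).Monic := minpoly.monic hai
  have hp0 : aeval t (minpoly k a) ≠ 0 := fun h =>
    hpm.ne_zero ((transcendental_iff.1 ht) _ h)
  have hpc : ∀ c : k, algebraMap k K c * aeval t (minpoly k a) ∈ W := by
    intro c
    obtain ⟨q, hq⟩ : (X - C a) ∣ (minpoly k a).map (algebraMap k A) := by
      rw [dvd_iff_isRoot, IsRoot.def, eval_map, ← aeval_def]
      exact minpoly.aeval k a
    have hqc : aeval t' q ∈ coarse k WM := by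
      rw [aeval_eq_sum_range]
      refine sum_mem fun n _ => ?_
      rw [Algebra.smul_def]
      exact mul_mem (hAc _) (pow_mem htc _)
    obtain ⟨d, hd, hdq⟩ := hqc
    change i _ ∈ WM
    have h5 : i (algebraMap k K c * aeval t (minpoly k a)) =
        ((algebraMap k A (c * d⁻¹) : A) : M) * (t' - (a : M)) * (algebraMap k M d * aeval t' q) := by
      rw [map_mul, hiae, hkA, hq, map_mul, map_sub, aeval_X, aeval_C]
      have hd' : algebraMap k M d ≠ 0 := (_root_.map_ne_zero _).2 hd
      have h6 : ((algebraMap k A (c * d⁻¹) : A) : M) = algebraMap k M c * (algebraMap k M d)⁻¹ := by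
        change algebraMap k M (c * d⁻¹) = _
        rw [map_mul, map_inv₀]
      have h7 : i (algebraMap k K c) = algebraMap k M c := rfl
      have h8 : algebraMap A M a = (a : M) := rfl
      rw [h6, h7, h8]
      exact field_aux _ _ _ _ hd'
    rw [h5]
    exact mul_mem (hta _) hdq
  obtain ⟨hdvr, hfin⟩ := dvr_of_center t ht (coarse k W) (base_coarse k W) ((hcomap t).2 htc)
    (minpoly k a) hpm (coarse_nonunit k W hnt' hp0 hpc)
  refine ⟨W, coarse k W, base_coarse k W, le_coarse k W, hbase, hdvr, hfin, fun s hs hsV => ?_,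
    fun s hs hsV => ?_⟩
  · have h5 : sF s ∈ VF := by
      change ((sF s : F) : M) ∈ VM
      rw [hsF s hs]
      rw [← hVM] at hsV
      exact hsV
    have h6 := (hWFm _).1 (h3 (sF s) (Finset.mem_image_of_mem _ hs) h5)
    rw [hsF s hs] at h6
    exact h6
  · have h5 : VF.valuation (sF s) < 1 := by
      rw [hVF, hsF s hs]
      exact (hVlt s).1 hsV
    have h6 := (hWF _).1 (h4 (sF s) (Finset.mem_image_of_mem _ hs) h5)
    rw [hsF s hs] at h6
    exact (hWlt s).2 h6

end

end Pool.Agent.V7H77.RG
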