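import Pool.Agent.V7H77.RG.Curve2

/-!
# Approximation by composites, in one variable, with control of finitely many elements
-/

set_option autoImplicit false

namespace Pool.Agent.V7H77.RG

open Polynomial IntermediateField IsLocalRing

section

variable {k K : Type*} [Field k] [Field K] [Algebra k K] (V : ValuationSubring K)

/-- Approximation of a valuation by composites, in one variable. -/
theorem step2 (hnt : ∃ x : k, x ≠ 0 ∧ V.valuation (algebraMap k K x) < 1) (t : K)
    (ht : Transcendental k t) [FiniteDimensional k⟮t⟯ K] (S : Finset K) :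
    ∃ (W ν : ValuationSubring K) (hk : ∀ x : k, algebraMap k K x ∈ ν), W ≤ ν ∧
      (∀ x : k, algebraMap k K x ∈ W ↔ algebraMap k K x ∈ V) ∧
      IsDiscreteValuationRing ν ∧
      ((residue ν).comp ((algebraMap k K).codRestrict ν.toSubring hk)).Finite ∧
      (∀ s ∈ S, s ∈ V → s ∈ W) ∧ (∀ s ∈ S, V.valuation s < 1 → W.valuation s < 1) ∧
      (∀ s ∈ S, s ≠ 0 → ν.valuation s = 1) := by
  classical
  let M := AlgebraicClosure K
  let i : K →+* M := algebraMap K M
  obtain ⟨VM, hVM⟩ := exists_ext i V
  let A : IntermediateField k M := algebraicClosure k M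
  have hA : IsAlgClosed A := IsAlgClosure.isAlgClosed k
  have hAk : Algebra.IsAlgebraic k A := algebraicClosure.isAlgebraic k M
  let t' : M := i t
  have ht' : Transcendental A t' := by
    intro h
    have h1 : IsAlgebraic k t' := h.restrictScalars k
    exact ht ((isAlgebraic_algebraMap_iff i.injective).1 h1)
  let L : IntermediateField A M := A⟮t'⟯
  have hkA : ∀ f : k[X], aeval t' f = aeval t' (f.map (algebraMap k A)) := by
    intro f
    rw [aeval_map_algebraMap]
  have hiae : ∀ f : k[X], i (aeval t f) = aeval t' f := fun f =>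
    (aeval_algebraMap_apply M t f).symm
  have hφ : ∀ x : k⟮t⟯, i (x : K) ∈ L := by
    intro x
    obtain ⟨r, s, hrs⟩ := (mem_adjoin_simple_iff k (x : K)).1 x.2
    refine (mem_adjoin_simple_iff A _).2 ⟨r.map (algebraMap k A), s.map (algebraMap k A), ?_⟩
    rw [← hkA, ← hkA, ← hiae, ← hiae, hrs, map_div₀]
  let φ : k⟮t⟯ →+* L := (i.comp (algebraMap k⟮t⟯ K)).codRestrict L.toSubring hφ
  let S' : Set M := (S.image i : Finset M)
  have hint : ∀ x ∈ S', IsIntegral L x := by
    intro x hx
    obtain ⟨s, -, rfl⟩ := Finset.mem_image.1 (Finset.mem_coe.1 hx)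
    exact IsIntegral.map_of_comp_eq φ i (RingHom.ext fun _ => rfl)
      (Algebra.IsIntegral.isIntegral (R := k⟮t⟯) s)
  let F : IntermediateField L M := IntermediateField.adjoin L S'
  have hfinF : FiniteDimensional L F := IntermediateField.finiteDimensional_adjoin hint
  have htF : t' ∈ F := F.algebraMap_mem ⟨t', mem_adjoin_simple_self A t'⟩
  let tF : F := ⟨t', htF⟩
  have hAFM : IsScalarTower A F M := IsScalarTower.of_algebraMap_eq fun x => rfl
  have haeF : ∀ f : A[X], ((aeval tF f : F) : M) = aeval t' f := fun f =>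
    (aeval_algebraMap_apply M tF f).symm
  let VF : ValuationSubring F := VM.comap (algebraMap F M)
  have hVlt : ∀ x : K, V.valuation x < 1 ↔ VM.valuation (i x) < 1 := by
    intro x
    conv_lhs => rw [← hVM]
    exact val_lt_comap i VM x
  have hVF : ∀ x : F, VF.valuation x < 1 ↔ VM.valuation (x : M) < 1 := fun x =>
    val_lt_comap (algebraMap F M) VM x
  have hVk : ∀ x : k, algebraMap k K x ∈ V ↔ algebraMap k M x ∈ VM := by
    intro x
    rw [← hVM]
    rfl
  have hSF : ∀ s ∈ S, i s ∈ F := fun s hs =>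
    IntermediateField.subset_adjoin L S' (Finset.mem_coe.2 (Finset.mem_image_of_mem _ hs))
  let sF : K → F := fun s => if h : i s ∈ F then ⟨i s, h⟩ else 0
  have hsF : ∀ s ∈ S, ((sF s : F) : M) = i s := by
    intro s hs
    simp only [sF, dif_pos (hSF s hs)]
  obtain ⟨x₀, hx₀, hx₀1⟩ := hnt
  obtain ⟨a, WF, h1, h2, h3, h4, h10⟩ := curve2 VF L
    ⟨algebraMap k A x₀, (_root_.map_ne_zero _).2 hx₀, by
      rw [hVF]
      exact (hVlt _).1 hx₀1⟩ tF
    (fun h => ht' (h.algebraMap (A := M))) (by
      intro c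
      obtain ⟨r, s, hrs⟩ := (mem_adjoin_simple_iff A (c : M)).1 c.2
      by_cases hs : s = 0
      · refine ⟨0, 1, one_ne_zero, Subtype.ext ?_⟩
        rw [hs, map_zero, div_zero] at hrs
        change (c : M) * ((aeval tF (1 : A[X]) : F) : M) = ((aeval tF (0 : A[X]) : F) : M)
        rw [hrs, zero_mul, haeF, map_zero]
      · refine ⟨r, s, hs, Subtype.ext ?_⟩
        change (c : M) * ((aeval tF s : F) : M) = ((aeval tF r : F) : M)
        have h1 : aeval t' s ≠ 0 := fun h => hs ((transcendental_iff.1 ht') s h)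
        rw [haeF, haeF, hrs, div_mul_cancel₀ _ h1])
    (by
      intro x f g hg hx
      have h0 : aeval t' g ≠ 0 := fun h => hg ((transcendental_iff.1 ht') g h)
      have h1 : (x : M) = aeval t' f / aeval t' g := by
        rw [eq_div_iff h0, ← haeF, ← haeF, ← hx]
        rfl
      exact ⟨⟨x, (mem_adjoin_simple_iff A _).2 ⟨f, g, h1⟩⟩, Subtype.ext rfl⟩)
    (S.image sF)
  obtain ⟨WM, hWM⟩ := exists_ext (algebraMap F M) WF
  let W : ValuationSubring K := WM.comap i
  have hWlt : ∀ x : K, W.valuation x < 1 ↔ WM.valuation (i x) < 1 := fun x =>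
    val_lt_comap i WM x
  have hWF : ∀ x : F, WF.valuation x < 1 ↔ WM.valuation (x : M) < 1 := by
    intro x
    conv_lhs => rw [← hWM]
    exact val_lt_comap (algebraMap F M) WM x
  have hWFm : ∀ x : F, x ∈ WF ↔ (x : M) ∈ WM := by
    intro x
    rw [← hWM]
    rfl
  have hbase : ∀ x : k, algebraMap k K x ∈ W ↔ algebraMap k K x ∈ V := by
    intro x
    have h5 := h1 (algebraMap k A x)
    rw [hWFm] at h5
    exact h5.trans (hVk x).symm
  have hnt' : ∃ x : k, algebraMap k K x ∉ W := by
    refine ⟨x₀⁻¹, fun h => ?_⟩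
    rw [hbase, map_inv₀] at h
    exact (val_lt_iff V ((_root_.map_ne_zero _).2 hx₀)).1 hx₀1 h
  -- the algebraic elements are in the coarsening
  have hAc : ∀ x : A, (x : M) ∈ coarse k WM := by
    intro x
    obtain ⟨p, hp, hpx⟩ := (hAk.isAlgebraic x).isIntegral
    have h2 : IsIntegral (coarse k WM) (x : M) := by
      refine ⟨p.map ((algebraMap k M).codRestrict (coarse k WM).toSubring (base_coarse k WM)),
        hp.map _, ?_⟩
      rw [eval₂_map]
      have h5 : eval₂ (algebraMap k M) (x : M) p = ((eval₂ (algebraMap k A) x p : A) : M) := by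
        change eval₂ (algebraMap k M) (algebraMap A M x) p = algebraMap A M _
        rw [hom_eval₂]
        rfl
      rw [hpx] at h5
      exact h5
    exact (IsIntegrallyClosed.isIntegral_iff.1 h2).elim fun y hy => hy ▸ y.2
  have hta : ∀ c : A, (c : M) * (t' - (a : M)) ∈ WM := fun c => (hWFm _).1 (h2 c)
  have htc : t' ∈ coarse k WM := by
    have h5 : t' - (a : M) ∈ WM := by
      have h6 := hta 1
      rwa [OneMemClass.coe_one, one_mul] at h6
    have h6 := add_mem (le_coarse k WM h5) (hAc a)
    rwa [sub_add_cancel] at h6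
  have hcomap : ∀ x : K, x ∈ coarse k W ↔ i x ∈ coarse k WM := by
    intro x
    have h5 : ∀ c : k, i (algebraMap k K c * x) = algebraMap k M c * i x := by
      intro c
      rw [map_mul]
      rfl
    constructor
    · rintro ⟨c, hc, h⟩
      exact ⟨c, hc, by rw [← h5]; exact h⟩
    · rintro ⟨c, hc, h⟩
      exact ⟨c, hc, by rw [← h5] at h; exact h⟩
  have hai : IsIntegral k a := (hAk.isAlgebraic a).isIntegral
  have hpm : (minpoly k a).Monic := minpoly.monic hai
  have hp0 : aeval t (minpoly k a) ≠ 0 := fun h =>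
    hpm.ne_zero ((transcendental_iff.1 ht) _ h)
  have hpc : ∀ c : k, algebraMap k K c * aeval t (minpoly k a) ∈ W := by
    intro c
    obtain ⟨q, hq⟩ : (X - C a) ∣ (minpoly k a).map (algebraMap k A) := by
      rw [dvd_iff_isRoot, IsRoot.def, eval_map, ← aeval_def]
      exact minpoly.aeval k a
    have hqc : aeval t' q ∈ coarse k WM := by
      rw [aeval_eq_sum_range]
      refine sum_mem fun n _ => ?_
      rw [Algebra.smul_def]
      exact mul_mem (hAc _) (pow_mem htc _)
    obtain ⟨d, hd, hdq⟩ := hqc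
    change i _ ∈ WM
    have h5 : i (algebraMap k K c * aeval t (minpoly k a)) =
        ((algebraMap k A (c * d⁻¹) : A) : M) * (t' - (a : M)) * (algebraMap k M d * aeval t' q) := by
      rw [map_mul, hiae, hkA, hq, map_mul, map_sub, aeval_X, aeval_C]
      have hd' : algebraMap k M d ≠ 0 := (_root_.map_ne_zero _).2 hd
      have h6 : ((algebraMap k A (c * d⁻¹) : A) : M) = algebraMap k M c * (algebraMap k M d)⁻¹ := by
        change algebraMap k M (c * d⁻¹) = _
        rw [map_mul, map_inv₀]
      have h7 : i (algebraMap k K c) = algebraMap k M c := rfl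
      have h8 : algebraMap A M a = (a : M) := rfl
      rw [h6, h7, h8]
      exact field_aux _ _ _ _ hd'
    rw [h5]
    exact mul_mem (hta _) hdq
  obtain ⟨hdvr, hfin⟩ := dvr_of_center t ht (coarse k W) (base_coarse k W) ((hcomap t).2 htc)
    (minpoly k a) hpm (coarse_nonunit k W hnt' hp0 hpc)
  refine ⟨W, coarse k W, base_coarse k W, le_coarse k W, hbase, hdvr, hfin, fun s hs hsV => ?_,
    fun s hs hsV => ?_, fun s hs hs0 => ?_⟩
  · have h5 : sF s ∈ VF := by
      change ((sF s : F) : M) ∈ VM
      rw [hsF s hs]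
      rw [← hVM] at hsV
      exact hsV
    have h6 := (hWFm _).1 (h3 (sF s) (Finset.mem_image_of_mem _ hs) h5)
    rw [hsF s hs] at h6
    exact h6
  · have h5 : VF.valuation (sF s) < 1 := by
      rw [hVF, hsF s hs]
      exact (hVlt s).1 hsV
    have h6 := (hWF _).1 (h4 (sF s) (Finset.mem_image_of_mem _ hs) h5)
    rw [hsF s hs] at h6
    exact (hWlt s).2 h6
  · have hs0' : sF s ≠ 0 := by
      intro h
      have h5 := hsF s hs
      rw [h] at h5
      exact hs0 (i.injective (by rw [map_zero]; exact h5.symm))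
    have h5 := h10 (sF s) (Finset.mem_image_of_mem _ hs) hs0'
    have hup : ∀ x : F, x ∈ coarse A WF → (x : M) ∈ coarse k WM := by
      rintro x ⟨c, hc, hcx⟩
      have h6 : (c : M) * (x : M) ∈ WM := (hWFm _).1 hcx
      have h7 := mul_mem (hAc c⁻¹) (le_coarse k WM h6)
      have hc' : (c : M) ≠ 0 := fun h => hc (Subtype.ext h)
      have h8 : ((c⁻¹ : A) : M) * ((c : M) * (x : M)) = x := by
        have h9 : ((c⁻¹ : A) : M) = (c : M)⁻¹ := rfl
        rw [h9, inv_mul_cancel_left₀ hc']
      rwa [h8] at h7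
    have h6 : s ∈ coarse k W := by
      rw [hcomap, ← hsF s hs]
      exact hup _ ((ValuationSubring.valuation_le_one_iff _ _).1 h5.le)
    have h7 : s⁻¹ ∈ coarse k W := by
      rw [hcomap, map_inv₀, ← hsF s hs]
      have h8 : (sF s)⁻¹ ∈ coarse A WF := by
        rw [← ValuationSubring.valuation_le_one_iff, map_inv₀, h5, inv_one]
      exact hup _ h8
    refine le_antisymm ((ValuationSubring.valuation_le_one_iff _ _).2 h6) ?_
    rw [← ValuationSubring.valuation_le_one_iff, map_inv₀] at h7
    have h8 : (0 : (coarse k W).ValueGroup) < (coarse k W).valuation s :=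
      zero_lt_iff.2 ((_root_.map_ne_zero _).2 hs0)
    exact (inv_le_one₀ h8).1 h7

end

end Pool.Agent.V7H77.RG
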